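import Pool.Agent.Lib.MP_8be6f6_co.AC.Spec

/-!
# Quasirandom abelian Cayley graphs, module ASA: simple statements about large real numbers
-/

set_option autoImplicit false

namespace Pool.Agent.Lib.MP8be6f6.AC

open Filter

namespace ASAM

theorem cc_low {y δ η : ℝ} (hy : 0 < y) (hy2 : y ≤ Real.log 2) (hδ : 0 ≤ δ) (hη : 0 < η) :
    3 / 5 < cc y δ η := by
  unfold cc
  have h1 : 1 - y ≤ Real.exp (-y) := by
    have := Real.add_one_le_exp (-y)
    linarith
  have h2 : Real.log 2 < 0.6931471808 := Real.log_two_lt_d9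
  have h3 : (3 : ℝ) / 5 < Real.exp (-y) + y / 2 := by linarith
  have h4 : 0 ≤ δ * (Real.exp (-y) + y / 2) := by
    apply mul_nonneg hδ
    linarith
  nlinarith

/-- The conditions on `L = log k`. -/
structure Large (y c L : ℝ) : Prop where
  two : 2 ≤ L
  b : 2 * c * (Real.log 2 + 1) ≤ (2 * c - 1) * L
  c6 : 8 * L ^ 6 ≤ Real.exp (y * L)
  d3 : 2 * L ^ 3 ≤ c * Real.exp (2 * L)

theorem eventually_large {y c : ℝ} (hy : 0 < y) (hc : 3 / 5 < c) :
    ∀ᶠ L : ℝ in atTop, Large y c L := by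
  have h1 : ∀ᶠ L : ℝ in atTop, 2 ≤ L := eventually_ge_atTop 2
  have h2 : ∀ᶠ L : ℝ in atTop, 2 * c * (Real.log 2 + 1) / (2 * c - 1) ≤ L := eventually_ge_atTop _
  have h3 : ∀ᶠ L : ℝ in atTop, ‖L ^ 6‖ ≤ 1 / 8 * ‖Real.exp (y * L)‖ :=
    (isLittleO_pow_exp_pos_mul_atTop 6 hy).def (by norm_num)
  have h4 : ∀ᶠ L : ℝ in atTop, ‖L ^ 3‖ ≤ c / 2 * ‖Real.exp (2 * L)‖ :=
    (isLittleO_pow_exp_pos_mul_atTop 3 (by norm_num : (0 : ℝ) < 2)).def (by linarith)
  filter_upwards [h1, h2, h3, h4] with L k1 k2 k3 k4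
  refine ⟨k1, ?_, ?_, ?_⟩
  · rw [div_le_iff₀ (by linarith)] at k2
    linarith
  · rw [Real.norm_of_nonneg (by positivity), Real.norm_of_nonneg (Real.exp_pos _).le] at k3
    linarith
  · rw [Real.norm_of_nonneg (by positivity), Real.norm_of_nonneg (Real.exp_pos _).le] at k4
    linarith

end ASAM

open ASAM in
theorem specASA : SpecASA := by
  intro y δ η hy hy2 hδ hη
  have hc := cc_low hy hy2 hδ hη
  have ht : Tendsto (fun k : ℕ => Real.log (k : ℝ)) atTop atTop :=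
    Real.tendsto_log_atTop.comp tendsto_natCast_atTop_atTop
  obtain ⟨k₀, hk₀⟩ := eventually_atTop.1 (ht.eventually (eventually_large hy hc))
  refine ⟨max k₀ 1, fun k hk => ?_⟩
  have hL := hk₀ k (le_trans (le_max_left _ _) hk)
  have hk1 : 1 ≤ k := le_trans (le_max_right _ _) hk
  have hkpos : (0 : ℝ) < k := by exact_mod_cast hk1
  obtain ⟨l2, lb, l6, l3⟩ := hL
  set L : ℝ := Real.log k with hLd
  set c : ℝ := cc y δ η with hcd
  have hexp : Real.exp L = k := Real.exp_log hkpos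
  have hmm : ((mm k : ℕ) : ℝ) ≤ 2 * L ^ 2 := by
    unfold mm
    have h1 := Nat.ceil_lt_add_one (show (0 : ℝ) ≤ Real.log k ^ 2 by positivity)
    rw [← hLd] at h1 ⊢
    nlinarith
  have hk2 : Real.exp (2 * L) = (k : ℝ) ^ 2 := by
    rw [two_mul, Real.exp_add, hexp, sq]
  refine ⟨l2, ?_, ?_, ?_, ?_, ?_⟩
  · unfold mm
    have h1 : ((4 : ℕ) : ℝ) ≤ Real.log k ^ 2 := by
      rw [← hLd]
      push_cast
      nlinarith
    exact_mod_cast h1.trans (Nat.le_ceil _)
  · have h1 : (k : ℝ) ^ y = Real.exp (y * L) := by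
      rw [Real.rpow_def_of_pos hkpos, ← hLd, mul_comm]
    rw [h1]
    refine le_trans ?_ l6
    calc ((mm k : ℕ) : ℝ) ^ 3 ≤ (2 * L ^ 2) ^ 3 := by gcongr
      _ = 8 * L ^ 6 := by ring
  · intro N hN
    refine le_trans (hmm.trans ?_) hN.le
    rw [le_div_iff₀ (by linarith), ← hk2]
    calc 2 * L ^ 2 * L = 2 * L ^ 3 := by ring
      _ ≤ c * Real.exp (2 * L) := l3
  · intro N hN h
    rw [le_div_iff₀ (by linarith)]
    rw [← mul_div_assoc, div_le_iff₀ hkpos] at h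
    nlinarith
  · intro N hN h
    rw [le_div_iff₀ (by linarith)]
    have h1 : Real.log ((k : ℝ) / 2) = L - Real.log 2 := by
      rw [Real.log_div hkpos.ne' (by norm_num)]
    rw [h1, ← mul_div_assoc, div_le_iff₀ (by positivity)] at h
    have h2 : N * (2 * (L - Real.log 2 - 1)) ≤ (k : ℝ) ^ 2 := by nlinarith
    have h3 : L ≤ c * (2 * (L - Real.log 2 - 1)) := by nlinarith
    calc N * L ≤ N * (c * (2 * (L - Real.log 2 - 1))) := mul_le_mul_of_nonneg_left h3 hN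
      _ = c * (N * (2 * (L - Real.log 2 - 1))) := by ring
      _ ≤ c * (k : ℝ) ^ 2 := mul_le_mul_of_nonneg_left h2 (by linarith)

end Pool.Agent.Lib.MP8be6f6.AC
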