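import Pool.Agent.Lib.MP_8be6f6_co.AC.Spec

/-!
# MP_8be6f6_co, AC: module ASB (helper77).  Real analysis, second part.
-/

set_option autoImplicit false

namespace Pool.Agent.Lib.MP8be6f6.AC

open Filter Real

namespace ASBM

/-- The conditions on `L = log k`. -/
structure Ok (y δ η L : ℝ) : Prop where
  l6 : 6 ≤ L
  c1 : 28 * L ^ 9 ≤ exp L
  c3 : 16 * L ^ 7 ≤ exp (y * L / 6 - 23 * y)
  c4 : 32 * L ^ 7 ≤ exp (2 / 5 * L - 23 * y)
  c6 : (4 * (log 32 + 7 * log L + 23 * y + 1) + 36 * (1 + δ) + 1) ≤ η / (1 + δ) * L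

theorem ok_eventually (y δ η : ℝ) (hy : 0 < y) (hδ : 0 ≤ δ) (hη : 0 < η) :
    ∀ᶠ L : ℝ in atTop, Ok y δ η L := by
  have e1 : ∀ᶠ L : ℝ in atTop, 28 * L ^ 9 ≤ exp L := by
    have h := (isLittleO_pow_exp_pos_mul_atTop 9 (b := 1) one_pos).bound
      (show (0 : ℝ) < 1 / 28 by norm_num)
    filter_upwards [h, eventually_ge_atTop 0] with L hL h0
    rw [norm_of_nonneg (by positivity), norm_of_nonneg (exp_pos _).le, one_mul] at hL
    linarith
  have e3 : ∀ᶠ L : ℝ in atTop, 16 * L ^ 7 ≤ exp (y * L / 6 - 23 * y) := by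
    have h := (isLittleO_pow_exp_pos_mul_atTop 7 (b := y / 6) (by positivity)).bound
      (show (0 : ℝ) < exp (-(23 * y)) / 16 by positivity)
    filter_upwards [h, eventually_ge_atTop 0] with L hL h0
    rw [norm_of_nonneg (by positivity), norm_of_nonneg (exp_pos _).le] at hL
    have h2 : exp (y * L / 6 - 23 * y) = exp (-(23 * y)) * exp (y / 6 * L) := by
      rw [← exp_add]; congr 1; ring
    rw [h2]
    linarith
  have e4 : ∀ᶠ L : ℝ in atTop, 32 * L ^ 7 ≤ exp (2 / 5 * L - 23 * y) := by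
    have h := (isLittleO_pow_exp_pos_mul_atTop 7 (b := 2 / 5) (by positivity)).bound
      (show (0 : ℝ) < exp (-(23 * y)) / 32 by positivity)
    filter_upwards [h, eventually_ge_atTop 0] with L hL h0
    rw [norm_of_nonneg (by positivity), norm_of_nonneg (exp_pos _).le] at hL
    have h2 : exp (2 / 5 * L - 23 * y) = exp (-(23 * y)) * exp (2 / 5 * L) := by
      rw [← exp_add]; congr 1; ring
    rw [h2]
    linarith
  have hc : 0 < η / (1 + δ) := by positivity
  have e6 : ∀ᶠ L : ℝ in atTop,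
      (4 * (log 32 + 7 * log L + 23 * y + 1) + 36 * (1 + δ) + 1) ≤ η / (1 + δ) * L := by
    have h := isLittleO_log_id_atTop.bound (show (0 : ℝ) < η / (1 + δ) / 56 by positivity)
    filter_upwards [h, eventually_ge_atTop 1,
      eventually_ge_atTop ((4 * (log 32 + 23 * y + 1) + 36 * (1 + δ) + 1) / (η / (1 + δ) / 2))]
      with L hL h0 h1
    rw [norm_of_nonneg (log_nonneg h0), id, norm_of_nonneg (by linarith)] at hL
    rw [div_le_iff₀ (by positivity)] at h1
    nlinarith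
  filter_upwards [e1, e3, e4, e6, eventually_ge_atTop 6] with L h1 h3 h4 h6 h0
  exact ⟨h0, h1, h3, h4, h6⟩

theorem exp_lower (y : ℝ) (hy : 0 < y) (hy2 : y ≤ log 2) : 3 / 5 ≤ exp (-y) + y / 2 := by
  have h1 := add_one_le_exp (-y)
  have h2 : log 2 < 0.6931471808 := log_two_lt_d9
  linarith

/-- The bound for `mu`. -/
theorem mu_le {L k N D κ m C : ℝ} (hL : 6 ≤ L) (hC : 3 / 5 ≤ C) (hk : 28 * L ^ 9 ≤ k)
    (h1 : k / 2 ≤ D) (h2 : D ≤ k) (h3 : C * k ^ 2 / L < N) (h5 : N ≤ m ^ 3 * κ)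
    (m1 : L ^ 2 ≤ m) (m2 : m ≤ 2 * L ^ 2) :
    D < κ / 2 ∧ 0 < N ∧ N / (8 * L ^ 6) ≤ κ ∧ 0 ≤ mu N D κ m ∧ D ^ 2 / (2 * N) ≤ L / (6 / 5) ∧
      mu N D κ m ≤ D ^ 2 / (2 * N) + 23 / L := by
  have hL0 : 0 < L := by linarith
  have hk0 : 0 < k := lt_of_lt_of_le (by positivity) hk
  have hD0 : 0 < D := by linarith
  have hN0 : 3 / 5 * k ^ 2 / L < N := by
    refine lt_of_le_of_lt ?_ h3
    gcongr
  have hN : 0 < N := lt_trans (by positivity) hN0
  have hm0 : 0 < m := lt_of_lt_of_le (by positivity) m1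
  have hκ : N / (8 * L ^ 6) ≤ κ := by
    rw [div_le_iff₀ (by positivity)]
    have h6 : m ^ 3 ≤ (2 * L ^ 2) ^ 3 := by gcongr
    have hκ0 : 0 < κ := by
      by_contra hneg
      push Not at hneg
      have : m ^ 3 * κ ≤ 0 := mul_nonpos_of_nonneg_of_nonpos (by positivity) hneg
      linarith
    nlinarith
  have hκ2 : 3 / 5 * k ^ 2 / L / (8 * L ^ 6) ≤ κ := by
    refine le_trans ?_ hκ
    gcongr
  -- `D ≤ κ / (2 L²)`
  have hDκ : 2 * L ^ 2 * D ≤ κ := by
    refine le_trans ?_ hκ2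
    have h7 : 3 / 5 * k ^ 2 / L / (8 * L ^ 6) = 3 / 40 * k ^ 2 / L ^ 7 := by
      field_simp
      norm_num
    rw [h7, le_div_iff₀ (by positivity)]
    have h8 : 2 * L ^ 2 * D * L ^ 7 ≤ 2 * L ^ 9 * k := by
      have : 2 * L ^ 2 * D * L ^ 7 = 2 * L ^ 9 * D := by ring
      rw [this]
      gcongr
    have h9 : 2 * L ^ 9 * k ≤ 3 / 40 * k ^ 2 := by
      have : 3 / 40 * (28 * L ^ 9) * k ≤ 3 / 40 * k * k := by gcongr
      nlinarith [mul_pos (pow_pos hL0 9) hk0]
    linarith
  have hL2 : 36 ≤ L ^ 2 := by nlinarith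
  have hDκ2 : D < κ / 2 := by nlinarith
  have hκ0 : 0 < κ := by linarith
  have hsub : 0 < κ - D := by linarith
  have hu : D ^ 2 / (2 * N) ≤ L / (6 / 5) := by
    rw [div_le_div_iff₀ (by positivity) (by norm_num)]
    have h10 : 3 / 5 * k ^ 2 ≤ N * L := by
      rw [div_lt_iff₀ hL0] at hN0
      exact hN0.le
    have h11 : D ^ 2 ≤ k ^ 2 := by gcongr
    nlinarith
  have hu0 : 0 ≤ D ^ 2 / (2 * N) := by positivity
  have hmu : mu N D κ m = D ^ 2 / (2 * N) * ((1 + 6 / m) * (1 + 1 / D) * (κ / (κ - D))) := by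
    unfold mu
    field_simp
  have f1 : 1 + 6 / m ≤ 1 + 6 / L ^ 2 := by gcongr
  have f2 : 1 + 1 / D ≤ 1 + 1 / L ^ 2 := by
    have : L ^ 2 ≤ D := by
      have h12 : L ^ 2 ≤ L ^ 9 := pow_le_pow_right₀ (by linarith) (by norm_num)
      nlinarith [pow_pos hL0 9]
    gcongr
  have f3 : κ / (κ - D) ≤ 1 + 1 / L ^ 2 := by
    rw [div_le_iff₀ hsub]
    have h13 : D ≤ κ / (2 * L ^ 2) := by
      rw [le_div_iff₀ (by positivity)]
      linarith
    have h14 : κ / (2 * L ^ 2) = 1 / L ^ 2 * (κ / 2) := by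
      field_simp
    have h15 : 0 < 1 / L ^ 2 := by positivity
    have h16 : 1 / L ^ 2 * (κ / 2) ≤ 1 / L ^ 2 * (κ - D) := by
      apply mul_le_mul_of_nonneg_left _ h15.le
      linarith
    nlinarith
  have f0 : (1 + 6 / m) * (1 + 1 / D) * (κ / (κ - D)) ≤ 1 + 27 / L ^ 2 := by
    have h17 : (1 + 6 / m) * (1 + 1 / D) * (κ / (κ - D)) ≤
        (1 + 6 / L ^ 2) * (1 + 1 / L ^ 2) * (1 + 1 / L ^ 2) := by gcongr
    refine h17.trans ?_
    have h18 : 6 / L ^ 2 = 6 * (1 / L ^ 2) := by ring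
    have h19 : 27 / L ^ 2 = 27 * (1 / L ^ 2) := by ring
    rw [h18, h19]
    have h20 : 0 < 1 / L ^ 2 := by positivity
    have h21 : 1 / L ^ 2 ≤ 1 := by
      rw [div_le_one (by positivity)]
      linarith
    generalize 1 / L ^ 2 = u at h20 h21
    nlinarith [mul_pos h20 h20, mul_pos (mul_pos h20 h20) h20, mul_le_mul h21 h21 h20.le zero_le_one]
  refine ⟨hDκ2, hN, hκ, ?_, hu, ?_⟩
  · rw [hmu]
    positivity
  · rw [hmu]
    have h22 : D ^ 2 / (2 * N) * ((1 + 6 / m) * (1 + 1 / D) * (κ / (κ - D))) ≤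
        D ^ 2 / (2 * N) * (1 + 27 / L ^ 2) := mul_le_mul_of_nonneg_left f0 hu0
    refine h22.trans ?_
    rw [mul_add, mul_one]
    have h23 : D ^ 2 / (2 * N) * (27 / L ^ 2) ≤ L / (6 / 5) * (27 / L ^ 2) := by gcongr
    have h24 : L / (6 / 5) * (27 / L ^ 2) = 45 / 2 / L := by
      field_simp
      norm_num
    have h25 : 45 / 2 / L ≤ 23 / L := by gcongr; norm_num
    linarith

/-- The final computation. -/
theorem final {L k N D C E δ g : ℝ} (hk0 : 0 < k) (hL0 : 0 < L) (hδ : 0 ≤ δ) (h1 : k / 2 ≤ D)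
    (h2 : D ≤ k) (h3 : C * k ^ 2 / L < N) (hg : g ≤ C / (1 + δ)) (hC : 0 < C)
    (hE : 1 + E ≤ g + C / (1 + δ)) :
    k + k * E ≤ g * D + N * L / ((1 + δ) * D) := by
  have hD0 : 0 < D := by linarith
  have hδ0 : 0 < 1 + δ := by linarith
  set B := C / (1 + δ) with hB
  have hB0 : 0 < B := by positivity
  have h4 : C * k ^ 2 ≤ N * L := by
    rw [div_lt_iff₀ hL0] at h3
    exact h3.le
  have h5 : B * k ^ 2 / D ≤ N * L / ((1 + δ) * D) := by
    rw [div_le_div_iff₀ hD0 (by positivity)]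
    have h6 : B * (1 + δ) = C := by
      rw [hB]; field_simp
    have : B * k ^ 2 * ((1 + δ) * D) = C * k ^ 2 * D := by
      rw [← h6]; ring
    rw [this]
    nlinarith
  have h7 : B * k ^ 2 / D = B * k + B * k * (k - D) / D := by
    field_simp
    ring
  have h8 : B * (k - D) ≤ B * k * (k - D) / D := by
    rw [le_div_iff₀ hD0]
    have : 0 ≤ k - D := by linarith
    nlinarith [mul_nonneg hB0.le this]
  have h9 : g * (k - D) ≤ B * (k - D) := mul_le_mul_of_nonneg_right hg (by linarith)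
  have h10 : k * (1 + E) ≤ k * (g + B) := mul_le_mul_of_nonneg_left hE hk0.le
  nlinarith

theorem main {y δ η L k N D κ m : ℝ} (hy : 0 < y) (hy2 : y ≤ log 2) (hδ : 0 ≤ δ) (hη : 0 < η)
    (ok : Ok y δ η L) (hk : k = exp L) (m1 : L ^ 2 ≤ m) (m2 : m ≤ 2 * L ^ 2)
    (h1 : k / 2 ≤ D) (h2 : D ≤ k) (h3 : cc y δ η * k ^ 2 / L < N) (h4 : N ≤ 2 * k ^ 2 / L)
    (h5 : N ≤ m ^ 3 * κ) :
    D < κ ∧ N ≤ exp (y * L) * (1 / L * e0 N D κ m y) ∧
    1 ≤ (1 + δ) * D / N * (1 / L * e0 N D κ m y) ∧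
    k ≤ (1 - exp (-y)) * (D - mu N D κ m * (18 * (1 + δ) * D / m)) -
      1 / L * D + N / ((1 + δ) * D) *
        (log ((1 + δ) * D / N * (1 / L * e0 N D κ m y)) - 1) := by
  obtain ⟨l6, c1, c3, c4, c6⟩ := ok
  have hL0 : 0 < L := by linarith
  have hk0 : 0 < k := hk ▸ exp_pos L
  have hδ0 : 0 < 1 + δ := by linarith
  have hlow := exp_lower y hy hy2
  have hcc : exp (-y) + y / 2 ≤ cc y δ η := by
    unfold cc
    have : 0 ≤ δ * (exp (-y) + y / 2) := by positivity
    nlinarith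
  have hC : 3 / 5 ≤ cc y δ η := hlow.trans hcc
  have hc1 : 28 * L ^ 9 ≤ k := hk ▸ c1
  obtain ⟨a1, hN, hκ, hmu0, hu, hmu⟩ := mu_le l6 hC hc1 h1 h2 h3 h5 m1 m2
  have hD0 : 0 < D := by linarith
  have hu0 : 0 ≤ D ^ 2 / (2 * N) := by positivity
  have hy7 : y ≤ 7 / 10 := by
    have : log 2 < 0.6931471808 := log_two_lt_d9
    linarith
  have hmu2 : y * mu N D κ m ≤ y * (D ^ 2 / (2 * N)) + 23 * y := by
    have : 23 / L ≤ 23 := by
      rw [div_le_iff₀ hL0]
      nlinarith
    nlinarith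
  have hexp : exp (-(y * (D ^ 2 / (2 * N)) + 23 * y)) ≤ exp (-(y * mu N D κ m)) :=
    exp_le_exp.2 (neg_le_neg hmu2)
  -- the lower bound for `e0 / L`
  have hZ : N / (16 * L ^ 7) * exp (-(y * (D ^ 2 / (2 * N)) + 23 * y)) ≤
      1 / L * e0 N D κ m y := by
    unfold e0
    have h6 : N / (16 * L ^ 6) ≤ κ - D := by
      have : N / (16 * L ^ 6) = N / (8 * L ^ 6) / 2 := by
        field_simp
        norm_num
      rw [this]
      linarith
    have h7 : N / (16 * L ^ 6) * exp (-(y * (D ^ 2 / (2 * N)) + 23 * y)) ≤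
        (κ - D) * exp (-(y * mu N D κ m)) := by
      apply mul_le_mul h6 hexp (exp_pos _).le
      linarith
    have h8 : N / (16 * L ^ 7) * exp (-(y * (D ^ 2 / (2 * N)) + 23 * y)) =
        1 / L * (N / (16 * L ^ 6) * exp (-(y * (D ^ 2 / (2 * N)) + 23 * y))) := by
      field_simp
    rw [h8]
    exact mul_le_mul_of_nonneg_left h7 (by positivity)
  set Z := 1 / L * e0 N D κ m y with hZdef
  have hu2 : y * (D ^ 2 / (2 * N)) ≤ y * (L / (6 / 5)) := mul_le_mul_of_nonneg_left hu hy.le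
  have hZ0 : 0 < Z := lt_of_lt_of_le (by positivity) hZ
  refine ⟨by linarith, ?_, ?_, ?_⟩
  · -- second
    have h9 : N * 1 ≤ exp (y * L) *
        (N / (16 * L ^ 7) * exp (-(y * (D ^ 2 / (2 * N)) + 23 * y))) := by
      have h10 : exp (y * L) * (N / (16 * L ^ 7) * exp (-(y * (D ^ 2 / (2 * N)) + 23 * y))) =
          N * (exp (y * L - (y * (D ^ 2 / (2 * N)) + 23 * y)) / (16 * L ^ 7)) := by
        rw [sub_eq_add_neg, exp_add]
        ring
      rw [h10]
      apply mul_le_mul_of_nonneg_left _ hN.le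
      rw [le_div_iff₀ (by positivity), one_mul]
      refine c3.trans (exp_le_exp.2 ?_)
      have : y * (L / (6 / 5)) = y * L - y * L / 6 := by ring
      linarith
    rw [mul_one] at h9
    exact h9.trans (mul_le_mul_of_nonneg_left hZ (exp_pos _).le)
  · -- third
    have h11 : 1 ≤ D / N * (N / (16 * L ^ 7) * exp (-(y * (D ^ 2 / (2 * N)) + 23 * y))) := by
      have h12 : D / N * (N / (16 * L ^ 7) * exp (-(y * (D ^ 2 / (2 * N)) + 23 * y))) =
          D * exp (-(y * (D ^ 2 / (2 * N)) + 23 * y)) / (16 * L ^ 7) := by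
        field_simp
      rw [h12, le_div_iff₀ (by positivity), one_mul]
      have h13 : k / 2 * exp (-(y * (D ^ 2 / (2 * N)) + 23 * y)) ≤
          D * exp (-(y * (D ^ 2 / (2 * N)) + 23 * y)) := by gcongr
      refine le_trans ?_ h13
      have h14 : k / 2 * exp (-(y * (D ^ 2 / (2 * N)) + 23 * y)) =
          exp (L - (y * (D ^ 2 / (2 * N)) + 23 * y)) / 2 := by
        rw [hk, sub_eq_add_neg, exp_add]
        ring
      rw [h14]
      have h15 : exp (2 / 5 * L - 23 * y) ≤ exp (L - (y * (D ^ 2 / (2 * N)) + 23 * y)) := by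
        apply exp_le_exp.2
        have : y * (L / (6 / 5)) ≤ 7 / 10 * (L / (6 / 5)) := by gcongr
        have h16 : 7 / 10 * (L / (6 / 5)) = 7 / 12 * L := by ring
        linarith
      linarith
    have h17 : D / N * (N / (16 * L ^ 7) * exp (-(y * (D ^ 2 / (2 * N)) + 23 * y))) ≤
        (1 + δ) * D / N * Z := by
      have h18 : D / N ≤ (1 + δ) * D / N := by
        apply div_le_div_of_nonneg_right _ hN.le
        nlinarith
      exact mul_le_mul h18 hZ (by positivity) (by positivity)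
    exact h11.trans h17
  · -- fourth
    have hlog : L - y * (D ^ 2 / (2 * N)) - (log 32 + 7 * log L + 23 * y) ≤
        log ((1 + δ) * D / N * Z) := by
      have h19 : exp (L - (y * (D ^ 2 / (2 * N)) + 23 * y)) / (32 * L ^ 7) ≤
          (1 + δ) * D / N * Z := by
        have h20 : exp (L - (y * (D ^ 2 / (2 * N)) + 23 * y)) / (32 * L ^ 7) =
            k / 2 / N * (N / (16 * L ^ 7) * exp (-(y * (D ^ 2 / (2 * N)) + 23 * y))) := by
          rw [hk, sub_eq_add_neg, exp_add]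
          field_simp
          norm_num
        rw [h20]
        apply mul_le_mul _ hZ (by positivity) (by positivity)
        apply div_le_div_of_nonneg_right _ hN.le
        nlinarith
      have h21 := log_le_log (by positivity) h19
      refine le_trans (le_of_eq ?_) h21
      rw [log_div (exp_pos _).ne' (by positivity), log_exp, log_mul (by norm_num) (by positivity),
        log_pow]
      push_cast
      ring
    have hP0 : 0 ≤ N / ((1 + δ) * D) := by positivity
    have hP : N / ((1 + δ) * D) ≤ 4 * k / L := by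
      have h22 : N / ((1 + δ) * D) ≤ (2 * k ^ 2 / L) / (k / 2) := by
        apply div_le_div₀ (by positivity) h4 (by positivity)
        nlinarith
      refine h22.trans (le_of_eq ?_)
      field_simp
      norm_num
    set E1 := log 32 + 7 * log L + 23 * y + 1 with hE1
    have hE10 : 0 ≤ E1 := by
      have := log_nonneg (show (1 : ℝ) ≤ L by linarith)
      have := log_nonneg (show (1 : ℝ) ≤ 32 by norm_num)
      rw [hE1]
      positivity
    have h23 : N * L / ((1 + δ) * D) - y / 2 * D - 4 * k / L * E1 ≤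
        N / ((1 + δ) * D) * (log ((1 + δ) * D / N * Z) - 1) := by
      have h24 : N / ((1 + δ) * D) * (L - y * (D ^ 2 / (2 * N)) - E1) ≤
          N / ((1 + δ) * D) * (log ((1 + δ) * D / N * Z) - 1) := by
        apply mul_le_mul_of_nonneg_left _ hP0
        rw [hE1]
        linarith
      refine le_trans ?_ h24
      have h25 : N / ((1 + δ) * D) * (L - y * (D ^ 2 / (2 * N)) - E1) =
          N * L / ((1 + δ) * D) - y * D / (2 * (1 + δ)) - N / ((1 + δ) * D) * E1 := by
        field_simp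
      rw [h25]
      have h26 : y * D / (2 * (1 + δ)) ≤ y / 2 * D := by
        rw [div_le_iff₀ (by positivity)]
        have : 0 ≤ y * D * δ := by positivity
        nlinarith
      have h27 : N / ((1 + δ) * D) * E1 ≤ 4 * k / L * E1 := mul_le_mul_of_nonneg_right hP hE10
      linarith
    -- the first term
    have hmu3 : mu N D κ m ≤ 2 * L := by
      have h28 : 23 / L ≤ 23 / 6 := by gcongr
      have h29 : L / (6 / 5) = 5 / 6 * L := by ring
      linarith
    have hm0 : 0 < m := lt_of_lt_of_le (by positivity) m1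
    have h30 : mu N D κ m * (18 * (1 + δ) * D / m) ≤ 36 * (1 + δ) * k / L := by
      have h31 : mu N D κ m * (18 * (1 + δ) * D / m) ≤ 2 * L * (18 * (1 + δ) * k / L ^ 2) := by
        apply mul_le_mul hmu3 _ (by positivity) (by positivity)
        apply div_le_div₀ (by positivity) _ (by positivity) m1
        gcongr
      refine h31.trans (le_of_eq ?_)
      field_simp
      norm_num
    have hexp1 : exp (-y) ≤ 1 := by
      rw [← exp_zero]
      exact exp_le_exp.2 (by linarith)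
    have hexp2 := exp_pos (-y)
    have h32 : (1 - exp (-y)) * D - 36 * (1 + δ) * k / L ≤
        (1 - exp (-y)) * (D - mu N D κ m * (18 * (1 + δ) * D / m)) := by
      have h33 : 0 ≤ mu N D κ m * (18 * (1 + δ) * D / m) := by positivity
      nlinarith
    have h34 : 1 / L * D ≤ k / L := by
      rw [one_div, inv_mul_eq_div]
      gcongr
    -- conclusion
    have hfin := final (L := L) (k := k) (N := N) (D := D) (C := cc y δ η)
      (E := (4 * E1 + 36 * (1 + δ) + 1) / L) (δ := δ) (g := 1 - exp (-y) - y / 2) hk0 hL0 hδ h1 h2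
      h3 ?_ (by linarith) ?_
    · have h35 : k * ((4 * E1 + 36 * (1 + δ) + 1) / L) =
          4 * k / L * E1 + 36 * (1 + δ) * k / L + k / L := by
        field_simp
      rw [h35] at hfin
      nlinarith
    · have h36 : cc y δ η / (1 + δ) = exp (-y) + y / 2 + η / (1 + δ) := by
        unfold cc
        field_simp
      rw [h36]
      have h37 := add_one_le_exp (-y)
      have : 0 < η / (1 + δ) := by positivity
      linarith
    · have h36 : cc y δ η / (1 + δ) = exp (-y) + y / 2 + η / (1 + δ) := by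
        unfold cc
        field_simp
      rw [h36]
      have h38 : (4 * E1 + 36 * (1 + δ) + 1) / L ≤ η / (1 + δ) := by
        rw [div_le_iff₀ hL0]
        exact c6
      linarith

end ASBM

theorem specASB : SpecASB := by
  intro y δ η hy hy2 hδ hη
  have h := ASBM.ok_eventually y δ η hy hδ hη
  have ht : Tendsto (fun k : ℕ => log (k : ℝ)) atTop atTop :=
    tendsto_log_atTop.comp tendsto_natCast_atTop_atTop
  have h2 := ht.eventually h
  obtain ⟨k₀, hk₀⟩ := eventually_atTop.1 (h2.and (eventually_ge_atTop 1))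
  refine ⟨k₀, fun k hk => ?_⟩
  obtain ⟨ok, hk1⟩ := hk₀ k hk
  intro N D κ h1 h2 h3 h4 h5 _
  have hk0 : (0 : ℝ) < k := by
    have : 0 < k := by omega
    exact_mod_cast this
  have hkexp : (k : ℝ) = exp (log k) := (exp_log hk0).symm
  have hl6 := ok.l6
  have m1 : log (k : ℝ) ^ 2 ≤ ((mm k : ℕ) : ℝ) := by
    unfold mm
    exact Nat.le_ceil _
  have m2 : ((mm k : ℕ) : ℝ) ≤ 2 * log (k : ℝ) ^ 2 := by
    unfold mm
    have := (Nat.ceil_lt_add_one (show (0 : ℝ) ≤ log (k : ℝ) ^ 2 by positivity)).le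
    nlinarith
  have hm := ASBM.main hy hy2 hδ hη ok hkexp m1 m2 h1 h2 h3 h4 h5
  have hpow : (k : ℝ) ^ y = exp (y * log k) := by
    rw [rpow_def_of_pos hk0, mul_comm]
  rw [hpow]
  exact hm

end Pool.Agent.Lib.MP8be6f6.AC
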