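import Pool.Agent.Lib.MP_8be6f6_co.AC.Spec

/-!
# MP_8be6f6_co, module BIA: a choice of cells
-/

set_option autoImplicit false

namespace Pool.Agent.Lib.MP8be6f6.AC

open Finset Classical

universe u

namespace BIAM

/-- The probability of `C`. -/
noncomputable def pr (q : ℝ) (U C : Finset ℕ) : ℝ := q ^ C.card * (1 - q) ^ (U \ C).card

lemma prod1 (q : ℝ) (M C : Finset ℕ) :
    ∏ i ∈ C, (if i ∈ M then (0 : ℝ) else q) = if Disjoint M C then q ^ C.card else 0 := by
  split_ifs with h
  · rw [← Finset.prod_const]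
    refine Finset.prod_congr rfl fun i hi => ?_
    rw [if_neg]
    exact fun hM => (Finset.disjoint_left.mp h hM hi)
  · rw [Finset.not_disjoint_iff] at h
    obtain ⟨i, hM, hC⟩ := h
    exact Finset.prod_eq_zero hC (if_pos hM)

lemma prod2 (q : ℝ) (U C : Finset ℕ) (c : ℕ) (hc : c ∈ U) :
    ∏ i ∈ U \ C, (if i = c then (0 : ℝ) else 1 - q) =
      if c ∈ C then (1 - q) ^ (U \ C).card else 0 := by
  split_ifs with h
  · rw [← Finset.prod_const]
    refine Finset.prod_congr rfl fun i hi => ?_
    rw [if_neg]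
    rintro rfl
    exact (Finset.mem_sdiff.mp hi).2 h
  · exact Finset.prod_eq_zero (Finset.mem_sdiff.mpr ⟨hc, h⟩) (if_pos rfl)

lemma sum1 (q : ℝ) (U M : Finset ℕ) (hM : M ⊆ U) :
    ∑ C ∈ U.powerset, pr q U C * (if Disjoint M C then 1 else 0) = (1 - q) ^ M.card := by
  have h := Finset.prod_add (fun i => if i ∈ M then (0 : ℝ) else q) (fun _ => 1 - q) U
  have e1 : ∏ i ∈ U, ((if i ∈ M then (0 : ℝ) else q) + (1 - q)) = (1 - q) ^ M.card := by
    rw [← Finset.prod_subset hM (fun i _ hi => by rw [if_neg hi]; ring)]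
    rw [← Finset.prod_const]
    refine Finset.prod_congr rfl fun i hi => ?_
    rw [if_pos hi]; ring
  rw [← e1, h]
  refine Finset.sum_congr rfl fun C _ => ?_
  rw [prod1, Finset.prod_const, pr]
  split_ifs <;> ring

lemma sum0 (q : ℝ) (U : Finset ℕ) : ∑ C ∈ U.powerset, pr q U C = 1 := by
  have h := sum1 q U ∅ (Finset.empty_subset U)
  simpa using h

lemma sum2 (q : ℝ) (U M : Finset ℕ) (hM : M ⊆ U) (c : ℕ) (hc : c ∈ U) (hcM : c ∉ M) :
    ∑ C ∈ U.powerset, pr q U C * (if Disjoint M C then 1 else 0) * (if c ∈ C then 1 else 0) =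
      q * (1 - q) ^ M.card := by
  have h := Finset.prod_add (fun i => if i ∈ M then (0 : ℝ) else q)
    (fun i => if i = c then (0 : ℝ) else 1 - q) U
  have hsub : insert c M ⊆ U := Finset.insert_subset hc hM
  have e1 : ∏ i ∈ U, ((if i ∈ M then (0 : ℝ) else q) + (if i = c then (0 : ℝ) else 1 - q)) =
      q * (1 - q) ^ M.card := by
    rw [← Finset.prod_subset hsub (fun i _ hi => by
      rw [Finset.mem_insert, not_or] at hi
      rw [if_neg hi.1, if_neg hi.2]; ring)]
    rw [Finset.prod_insert hcM, if_neg hcM, if_pos rfl, add_zero]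
    congr 1
    rw [← Finset.prod_const]
    refine Finset.prod_congr rfl fun i hi => ?_
    have hic : i ≠ c := by
      rintro rfl
      exact hcM hi
    rw [if_pos hi, if_neg hic]; ring
  rw [← e1, h]
  refine Finset.sum_congr rfl fun C _ => ?_
  rw [prod1, prod2 q U C c hc, pr]
  split_ifs <;> ring

lemma pr_pos (q : ℝ) (h0 : 0 < q) (h1 : q < 1) (U C : Finset ℕ) : 0 < pr q U C := by
  unfold pr
  have : 0 < 1 - q := by linarith
  positivity

end BIAM

open BIAM in
/-- The module BIA. -/
theorem specBIA : SpecBIA.{u} := by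
  intro V K hK M U hMU a A μ y θ ha hA hy hθ hθ1 hμ
  have hA0 : 0 ≤ A := le_trans (ha 0) (hA 0)
  have hKpos : (0 : ℝ) < K.card := by exact_mod_cast hK.card_pos
  have hμ0 : 0 ≤ μ := by
    have h1 : (0 : ℝ) ≤ ∑ x ∈ K, ((M x).card : ℝ) := Finset.sum_nonneg fun x _ => by positivity
    by_contra hneg
    have h2 : μ * K.card < 0 := mul_neg_of_neg_of_pos (not_le.mp hneg) hKpos
    linarith
  set q : ℝ := 1 - Real.exp (-y) with hq
  have hexp : Real.exp (-y) < 1 := by
    rw [Real.exp_lt_one_iff]; linarith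
  have hq0 : 0 < q := by rw [hq]; linarith
  have hq1 : q < 1 := by rw [hq]; have := Real.exp_pos (-y); linarith
  have h1q : 1 - q = Real.exp (-y) := by rw [hq]; ring
  set S : ℝ := ∑ c ∈ U, a c with hS
  have hS0 : 0 ≤ S := Finset.sum_nonneg fun c _ => ha c
  -- the weights
  set w : V → ℝ := fun x => Real.exp (-(y * (M x).card)) with hw
  have hwpow : ∀ x, (1 - q) ^ (M x).card = w x := by
    intro x
    rw [h1q, hw, ← Real.exp_nat_mul]
    congr 1
    ring
  have hwpos : ∀ x, 0 < w x := fun x => Real.exp_pos _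
  set wb : ℝ := Real.exp (-(y * μ)) with hwb
  have hwbpos : 0 < wb := Real.exp_pos _
  set E : ℝ := ∑ x ∈ K, w x with hE
  have hdiff : ∑ x ∈ K, (((M x).card : ℝ) - μ) ≤ 0 := by
    rw [Finset.sum_sub_distrib, Finset.sum_const, nsmul_eq_mul]
    linarith
  -- Jensen
  have hE0 : K.card * wb ≤ E := by
    have h1 : ∀ x ∈ K, wb - y * wb * (((M x).card : ℝ) - μ) ≤ w x := by
      intro x _
      have h2 : -(y * (((M x).card : ℝ) - μ)) + 1 ≤ Real.exp (-(y * (((M x).card : ℝ) - μ))) :=
        Real.add_one_le_exp _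
      have h3 : w x = wb * Real.exp (-(y * (((M x).card : ℝ) - μ))) := by
        simp only [hw, hwb]
        rw [← Real.exp_add]
        congr 1
        ring
      rw [h3]
      nlinarith [mul_le_mul_of_nonneg_left h2 hwbpos.le]
    have h4 := Finset.sum_le_sum h1
    rw [Finset.sum_sub_distrib, Finset.sum_const, nsmul_eq_mul, ← Finset.mul_sum] at h4
    have h5 : y * wb * ∑ x ∈ K, (((M x).card : ℝ) - μ) ≤ 0 :=
      mul_nonpos_of_nonneg_of_nonpos (by positivity) hdiff
    linarith
  -- Chebyshev
  have hCh : ∑ x ∈ K, w x * (M x).card ≤ μ * E := by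
    have h1 : ∀ x ∈ K, w x * (M x).card ≤ μ * w x + wb * (((M x).card : ℝ) - μ) := by
      intro x _
      have h2 : (w x - wb) * (((M x).card : ℝ) - μ) ≤ 0 := by
        rcases le_total (((M x).card : ℝ)) μ with h | h
        · have h3 : wb ≤ w x := by
            rw [hw, hwb]
            apply Real.exp_le_exp.mpr
            nlinarith
          exact mul_nonpos_of_nonneg_of_nonpos (by linarith) (by linarith)
        · have h3 : w x ≤ wb := by
            rw [hw, hwb]
            apply Real.exp_le_exp.mpr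
            nlinarith
          exact mul_nonpos_of_nonpos_of_nonneg (by linarith) (by linarith)
      nlinarith
    have h4 := Finset.sum_le_sum h1
    rw [Finset.sum_add_distrib, ← Finset.mul_sum, ← Finset.mul_sum] at h4
    have h5 : wb * ∑ x ∈ K, (((M x).card : ℝ) - μ) ≤ 0 :=
      mul_nonpos_of_nonneg_of_nonpos hwbpos.le hdiff
    linarith
  -- the random variables
  set T : Finset ℕ → ℝ := fun C => ((K.filter fun x => Disjoint (M x) C).card : ℝ) with hT
  set J : Finset ℕ → ℝ := fun C => ∑ c ∈ C, a c with hJ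
  have hTsum : ∀ C, T C = ∑ x ∈ K, (if Disjoint (M x) C then (1 : ℝ) else 0) := by
    intro C
    rw [hT]
    simp only [Finset.sum_boole]
  have hJsum : ∀ C ∈ U.powerset, J C = ∑ c ∈ U, a c * (if c ∈ C then (1 : ℝ) else 0) := by
    intro C hC
    rw [Finset.mem_powerset] at hC
    rw [hJ]
    simp only [mul_ite, mul_one, mul_zero]
    rw [← Finset.sum_filter]
    apply Finset.sum_congr _ fun _ _ => rfl
    ext c
    rw [Finset.mem_filter]
    exact ⟨fun h => ⟨hC h, h⟩, fun h => h.2⟩
  have hT0 : ∀ C, 0 ≤ T C := fun C => by rw [hT]; positivity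
  have hJ0 : ∀ C, 0 ≤ J C := fun C => Finset.sum_nonneg fun c _ => ha c
  have hJS : ∀ C ∈ U.powerset, J C ≤ S := fun C hC =>
    Finset.sum_le_sum_of_subset_of_nonneg (Finset.mem_powerset.mp hC) fun c _ _ => ha c
  have hET : ∑ C ∈ U.powerset, pr q U C * T C = E := by
    simp only [hTsum, Finset.mul_sum]
    rw [Finset.sum_comm]
    rw [hE]
    refine Finset.sum_congr rfl fun x hx => ?_
    rw [sum1 q U (M x) (hMU x hx), hwpow]
  have hETJ : q * (S - μ * A) * E ≤ ∑ C ∈ U.powerset, pr q U C * (T C * J C) := by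
    have e1 : ∑ C ∈ U.powerset, pr q U C * (T C * J C) =
        ∑ x ∈ K, ∑ c ∈ U, a c * ∑ C ∈ U.powerset,
          pr q U C * (if Disjoint (M x) C then 1 else 0) * (if c ∈ C then 1 else 0) := by
      have e2 : ∀ C ∈ U.powerset, pr q U C * (T C * J C) = ∑ x ∈ K, ∑ c ∈ U,
          a c * (pr q U C * (if Disjoint (M x) C then 1 else 0) * (if c ∈ C then 1 else 0)) := by
        intro C hC
        rw [hTsum C, hJsum C hC, Finset.sum_mul_sum, Finset.mul_sum]
        refine Finset.sum_congr rfl fun x _ => ?_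
        rw [Finset.mul_sum]
        refine Finset.sum_congr rfl fun c _ => ?_
        ring
      rw [Finset.sum_congr rfl e2, Finset.sum_comm]
      refine Finset.sum_congr rfl fun x _ => ?_
      rw [Finset.sum_comm]
      refine Finset.sum_congr rfl fun c _ => ?_
      rw [Finset.mul_sum]
    rw [e1]
    have e3 : ∀ x ∈ K, q * (w x * (S - A * (M x).card)) ≤ ∑ c ∈ U, a c * ∑ C ∈ U.powerset,
          pr q U C * (if Disjoint (M x) C then 1 else 0) * (if c ∈ C then 1 else 0) := by
      intro x hx
      have hterm : ∀ c ∈ U, 0 ≤ a c * ∑ C ∈ U.powerset,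
          pr q U C * (if Disjoint (M x) C then 1 else 0) * (if c ∈ C then 1 else 0) := by
        intro c _
        apply mul_nonneg (ha c)
        refine Finset.sum_nonneg fun C _ => ?_
        have := (pr_pos q hq0 hq1 U C).le
        split_ifs <;> simp [this]
      have hle : ∑ c ∈ U \ M x, a c * (q * w x) ≤ ∑ c ∈ U, a c * ∑ C ∈ U.powerset,
          pr q U C * (if Disjoint (M x) C then 1 else 0) * (if c ∈ C then 1 else 0) := by
        have h1 : ∑ c ∈ U \ M x, a c * (q * w x) = ∑ c ∈ U \ M x, a c * ∑ C ∈ U.powerset,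
          pr q U C * (if Disjoint (M x) C then 1 else 0) * (if c ∈ C then 1 else 0) := by
          refine Finset.sum_congr rfl fun c hc => ?_
          rw [Finset.mem_sdiff] at hc
          rw [sum2 q U (M x) (hMU x hx) c hc.1 hc.2, hwpow]
        rw [h1]
        exact Finset.sum_le_sum_of_subset_of_nonneg Finset.sdiff_subset
          fun c hc _ => hterm c hc
      refine le_trans ?_ hle
      rw [← Finset.sum_mul]
      have h2 : ∑ c ∈ U \ M x, a c + ∑ c ∈ M x, a c = S := Finset.sum_sdiff (hMU x hx)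
      have h3 : ∑ c ∈ M x, a c ≤ A * (M x).card := by
        have := Finset.sum_le_card_nsmul (M x) a A fun c _ => hA c
        rw [nsmul_eq_mul] at this
        linarith
      have h4 : S - A * (M x).card ≤ ∑ c ∈ U \ M x, a c := by linarith
      have h5 : 0 ≤ q * w x := mul_nonneg hq0.le (hwpos x).le
      nlinarith [mul_le_mul_of_nonneg_right h4 h5]
    refine le_trans ?_ (Finset.sum_le_sum e3)
    rw [← Finset.mul_sum]
    have h6 : ∑ x ∈ K, w x * (S - A * (M x).card) = S * E - A * ∑ x ∈ K, w x * (M x).card := by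
      rw [hE, Finset.mul_sum, Finset.mul_sum, ← Finset.sum_sub_distrib]
      refine Finset.sum_congr rfl fun x _ => ?_
      ring
    rw [h6]
    have h7 : A * ∑ x ∈ K, w x * (M x).card ≤ A * (μ * E) := mul_le_mul_of_nonneg_left hCh hA0
    nlinarith [mul_le_mul_of_nonneg_left h7 hq0.le]
  have hEpos : 0 < E := lt_of_lt_of_le (by positivity) hE0
  have hE0' : 0 < θ * (K.card * wb) := by positivity
  have hU : U.powerset.Nonempty := ⟨U, Finset.mem_powerset_self U⟩
  by_contra hcon
  push Not at hcon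
  have hgood : ∀ C ∈ U.powerset, θ * (K.card * wb) ≤ T C → J C < q * (S - μ * A) - θ * S := by
    intro C hC h
    exact hcon C (Finset.mem_powerset.mp hC) h
  by_cases hj : q * (S - μ * A) - θ * S ≤ 0
  · have hbad : ∀ C ∈ U.powerset, T C < θ * (K.card * wb) := by
      intro C hC
      by_contra h
      have h1 := hgood C hC (not_lt.mp h)
      have h2 := hJ0 C
      linarith
    have h1 : ∑ C ∈ U.powerset, pr q U C * T C <
        ∑ C ∈ U.powerset, pr q U C * (θ * (K.card * wb)) :=
      Finset.sum_lt_sum_of_nonempty hU fun C hC =>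
        mul_lt_mul_of_pos_left (hbad C hC) (pr_pos q hq0 hq1 U C)
    rw [← Finset.sum_mul, sum0, hET, one_mul] at h1
    nlinarith
  · push Not at hj
    have hSpos : 0 < S := by
      rcases hS0.lt_or_eq with h | h
      · exact h
      · exfalso
        rw [← h] at hj
        nlinarith [mul_nonneg hq0.le (mul_nonneg hμ0 hA0)]
    have hterm : ∀ C ∈ U.powerset, T C * (J C - (q * (S - μ * A) - θ * S)) <
        θ * (K.card * wb) * S := by
      intro C hC
      by_cases h : θ * (K.card * wb) ≤ T C
      · have h1 := hgood C hC h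
        have h2 : T C * (J C - (q * (S - μ * A) - θ * S)) ≤ 0 :=
          mul_nonpos_of_nonneg_of_nonpos (hT0 C) (by linarith)
        have h3 : 0 < θ * (K.card * wb) * S := by positivity
        linarith
      · push Not at h
        have h1 : T C * (J C - (q * (S - μ * A) - θ * S)) ≤ T C * S :=
          mul_le_mul_of_nonneg_left (by linarith [hJS C hC]) (hT0 C)
        have h2 : T C * S < θ * (K.card * wb) * S := mul_lt_mul_of_pos_right h hSpos
        linarith
    have h1 : ∑ C ∈ U.powerset, pr q U C * (T C * (J C - (q * (S - μ * A) - θ * S))) <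
        ∑ C ∈ U.powerset, pr q U C * (θ * (K.card * wb) * S) :=
      Finset.sum_lt_sum_of_nonempty hU fun C hC =>
        mul_lt_mul_of_pos_left (hterm C hC) (pr_pos q hq0 hq1 U C)
    rw [← Finset.sum_mul, sum0, one_mul] at h1
    have h2 : ∀ j : ℝ, ∑ C ∈ U.powerset, pr q U C * (T C * (J C - j)) =
        ∑ C ∈ U.powerset, pr q U C * (T C * J C) - j * E := by
      intro j
      rw [← hET, Finset.mul_sum, ← Finset.sum_sub_distrib]
      refine Finset.sum_congr rfl fun C _ => ?_
      ring
    rw [h2] at h1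
    have h3 : θ * (K.card * wb) * S ≤ θ * S * E := by
      nlinarith [mul_le_mul_of_nonneg_left hE0 (mul_nonneg hθ.le hS0)]
    nlinarith

end Pool.Agent.Lib.MP8be6f6.AC
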