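import Pool.Agent.Lib.MP_8be6f6_co.AC.Spec

/-!
# MP_8be6f6_co, module CLA: cells from a subgroup of moderate index (helper72)
-/

set_option autoImplicit false

namespace Pool.Agent.Lib.MP8be6f6.AC

open Finset Classical

universe u

namespace CLAM

variable {Γ : Type u} [AddCommGroup Γ] [Fintype Γ]

/-- The coset. -/
noncomputable def fb (H : AddSubgroup Γ) (g : Γ ⧸ H) : Finset Γ :=
  univ.filter fun x => (QuotientAddGroup.mk x : Γ ⧸ H) = g

theorem mem_fb (H : AddSubgroup Γ) (g : Γ ⧸ H) (x : Γ) :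
    x ∈ fb H g ↔ (QuotientAddGroup.mk x : Γ ⧸ H) = g := by simp [fb]

theorem card_fb (H : AddSubgroup Γ) (g : Γ ⧸ H) : (fb H g).card = (fb H 0).card := by
  obtain ⟨x0, hx0⟩ := QuotientAddGroup.mk_surjective g
  symm
  apply Finset.card_bij (fun x _ => x0 + x)
  · intro x hx
    rw [mem_fb] at *
    rw [QuotientAddGroup.mk_add, hx, hx0, add_zero]
  · intro a _ b _ h
    exact add_left_cancel h
  · intro b hb
    refine ⟨b - x0, ?_, by abel⟩
    rw [mem_fb] at *
    rw [QuotientAddGroup.mk_sub, hb, hx0, sub_self]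

theorem sum_fb (H : AddSubgroup Γ) [Fintype (Γ ⧸ H)] (f : Γ → ℕ) :
    ∑ g : Γ ⧸ H, ∑ x ∈ fb H g, f x = ∑ x : Γ, f x :=
  Finset.sum_fiberwise (univ : Finset Γ) (fun x => (QuotientAddGroup.mk x : Γ ⧸ H)) f

theorem card_eq (H : AddSubgroup Γ) : Fintype.card Γ = H.index * (fb H 0).card := by
  haveI : Fintype (Γ ⧸ H) := Fintype.ofFinite _
  have h := sum_fb H (fun _ => 1)
  simp only [Finset.sum_const, smul_eq_mul, mul_one, card_fb] at h
  rw [AddSubgroup.index, Nat.card_eq_fintype_card]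
  simpa [Finset.card_univ] using h.symm

/-- Many pairs from a coset. -/
theorem pairs (G : SimpleGraph Γ) (hG : Inv G) (H : AddSubgroup Γ) (i : Γ ⧸ H) :
    (fb H 0).card * ((nb G 0).filter fun s => (QuotientAddGroup.mk s : Γ ⧸ H) = i).card ≤
      ed G (fb H 0 ∪ fb H i) := by
  unfold ed
  rw [← Finset.card_product]
  refine Finset.card_le_card_of_injOn (fun z => (z.1, z.1 + z.2)) ?_ ?_
  · intro z hz
    simp only [Finset.coe_product, Set.mem_prod, Finset.mem_coe, Finset.mem_filter, mem_fb, nb,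
      Finset.mem_univ, true_and] at hz
    simp only [Finset.mem_coe, Finset.mem_filter, Finset.mem_product, Finset.mem_union, mem_fb]
    refine ⟨⟨Or.inl hz.1, Or.inr ?_⟩, ?_⟩
    · rw [QuotientAddGroup.mk_add, hz.1, hz.2.2, zero_add]
    · have := (hG z.1 0 z.2).2 hz.2.1
      simpa using this
  · intro z _ w _ h
    simp only [Prod.mk.injEq] at h
    obtain ⟨h1, h2⟩ := h
    rw [h1] at h2
    exact Prod.ext h1 (add_left_cancel h2)

end CLAM

open CLAM in
theorem specCLA (hORB : SpecORB.{u}) : SpecCLA.{u} := by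
  intro Γ _ _ G hG m hm H hH1 hH2
  haveI : Fintype (Γ ⧸ H) := Fintype.ofFinite _
  set D := (nb G 0).card with hD
  set f : Γ → ℕ := fun x => (cn G 0 x).card + ((cn G 0 x).filter fun s => x - s = s).card with hf
  have hsum : ∑ x : Γ, f x ≤ D ^ 2 + D := by
    rw [hf, Finset.sum_add_distrib, hORB.sum Γ G hG]
    exact Nat.add_le_add_left (hORB.fix Γ G hG) _
  have hM : H.index = Fintype.card (Γ ⧸ H) := by
    rw [AddSubgroup.index, Nat.card_eq_fintype_card]
  have hM0 : 0 < H.index := by omega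
  obtain ⟨g, hg⟩ : ∃ g : Γ ⧸ H, H.index * ∑ x ∈ fb H g, f x ≤ D ^ 2 + D := by
    by_contra hcon
    push Not at hcon
    have h1 : ∑ _g : Γ ⧸ H, (D ^ 2 + D) < ∑ g : Γ ⧸ H, H.index * ∑ x ∈ fb H g, f x :=
      Finset.sum_lt_sum_of_nonempty ⟨0, mem_univ _⟩ (fun g _ => hcon g)
    rw [← Finset.mul_sum, sum_fb, Finset.sum_const, smul_eq_mul, Finset.card_univ, ← hM] at h1
    have := Nat.lt_of_mul_lt_mul_left h1
    omega
  obtain ⟨b, hb⟩ : ∃ b : (Γ ⧸ H) → ℕ, Function.Injective b := by
    refine ⟨fun q => (Fintype.equivFin (Γ ⧸ H) q : ℕ), fun x y h => ?_⟩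
    exact (Fintype.equivFin (Γ ⧸ H)).injective (Fin.ext h)
  set cell : Γ → ℕ := fun t => min (b (QuotientAddGroup.mk t)) (b (g - QuotientAddGroup.mk t))
    with hcell
  have hcard := card_eq H
  have hcg : (fb H g).card = (fb H 0).card := card_fb H g
  refine ⟨fb H g, cell, ?_, ?_, ?_⟩
  · rw [hcard, hcg]
    exact Nat.mul_le_mul_right _ hH2
  · have h2 : ∀ x ∈ fb H g, 2 * ((cn G 0 x).image cell).card ≤ f x := by
      intro x hx
      rw [mem_fb] at hx
      have h3 := hORB.orb Γ G hG cell x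
      have h4 : ((cn G 0 x).filter fun s => cell (x - s) ≠ cell s) = ∅ := by
        apply Finset.filter_false_of_mem
        intro s _
        simp only [ne_eq, not_not, hcell, QuotientAddGroup.mk_sub, hx]
        rw [min_comm]
        congr 2
        abel
      rw [h4, Finset.card_empty, add_zero] at h3
      exact h3
    have h5 : 2 * ∑ x ∈ fb H g, ((cn G 0 x).image cell).card ≤ ∑ x ∈ fb H g, f x := by
      rw [Finset.mul_sum]
      exact Finset.sum_le_sum h2
    have h6 : H.index * (2 * ∑ x ∈ fb H g, ((cn G 0 x).image cell).card) ≤ D ^ 2 + D :=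
      le_trans (Nat.mul_le_mul_left _ h5) hg
    have h7 : ((H.index : ℕ) : ℝ) * (2 * ∑ x ∈ fb H g, (((cn G 0 x).image cell).card : ℝ)) ≤
        (D : ℝ) ^ 2 + D := by
      exact_mod_cast h6
    have h8 : (Fintype.card Γ : ℝ) = (H.index : ℝ) * ((fb H g).card : ℝ) := by
      rw [hcard, hcg]; push_cast; ring
    have h9 : (0 : ℝ) ≤ ((fb H g).card : ℝ) := Nat.cast_nonneg _
    have h10 : (0 : ℝ) ≤ 6 / (m : ℝ) := by positivity
    have h11 : (0 : ℝ) ≤ (D : ℝ) ^ 2 + D := by positivity
    rw [h8]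
    calc 2 * (∑ x ∈ fb H g, (((cn G 0 x).image cell).card : ℝ)) *
          ((H.index : ℝ) * ((fb H g).card : ℝ))
        = ((H.index : ℕ) : ℝ) * (2 * ∑ x ∈ fb H g, (((cn G 0 x).image cell).card : ℝ)) *
          ((fb H g).card : ℝ) := by ring
      _ ≤ ((D : ℝ) ^ 2 + D) * ((fb H g).card : ℝ) := mul_le_mul_of_nonneg_right h7 h9
      _ ≤ (1 + 6 / (m : ℝ)) * ((D : ℝ) ^ 2 + D) * ((fb H g).card : ℝ) := by
        apply mul_le_mul_of_nonneg_right _ h9
        nlinarith
  · intro c
    -- the two sets are in cosets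
    have hcos1 : ∃ i : Γ ⧸ H, ((nb G 0).filter fun s => b (QuotientAddGroup.mk s) = c) ⊆
        (nb G 0).filter fun s => (QuotientAddGroup.mk s : Γ ⧸ H) = i := by
      by_cases h : ∃ i, b i = c
      · obtain ⟨i, hi⟩ := h
        refine ⟨i, fun s hs => ?_⟩
        rw [Finset.mem_filter] at hs ⊢
        exact ⟨hs.1, hb (hs.2.trans hi.symm)⟩
      · refine ⟨0, fun s hs => ?_⟩
        rw [Finset.mem_filter] at hs
        exact absurd ⟨_, hs.2⟩ h
    have hcos2 : ∃ i : Γ ⧸ H, ((nb G 0).filter fun s => b (g - QuotientAddGroup.mk s) = c) ⊆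
        (nb G 0).filter fun s => (QuotientAddGroup.mk s : Γ ⧸ H) = i := by
      by_cases h : ∃ i, b i = c
      · obtain ⟨i, hi⟩ := h
        refine ⟨g - i, fun s hs => ?_⟩
        rw [Finset.mem_filter] at hs ⊢
        refine ⟨hs.1, ?_⟩
        have := hb (hs.2.trans hi.symm)
        rw [← this]
        abel
      · refine ⟨0, fun s hs => ?_⟩
        rw [Finset.mem_filter] at hs
        exact absurd ⟨_, hs.2⟩ h
    obtain ⟨i1, h1⟩ := hcos1
    obtain ⟨i2, h2⟩ := hcos2
    have h3 : ((nb G 0).filter fun s => cell s = c).card ≤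
        ((nb G 0).filter fun s => (QuotientAddGroup.mk s : Γ ⧸ H) = i1).card +
        ((nb G 0).filter fun s => (QuotientAddGroup.mk s : Γ ⧸ H) = i2).card := by
      refine le_trans (Finset.card_le_card (t := ((nb G 0).filter fun s =>
        (QuotientAddGroup.mk s : Γ ⧸ H) = i1) ∪ ((nb G 0).filter fun s =>
        (QuotientAddGroup.mk s : Γ ⧸ H) = i2)) ?_) (Finset.card_union_le _ _)
      intro s hs
      rw [Finset.mem_filter] at hs
      rw [Finset.mem_union]
      rcases min_choice (b (QuotientAddGroup.mk s)) (b (g - QuotientAddGroup.mk s)) with h | h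
      · left
        apply h1
        rw [Finset.mem_filter]
        exact ⟨hs.1, h.symm.trans hs.2⟩
      · right
        apply h2
        rw [Finset.mem_filter]
        exact ⟨hs.1, h.symm.trans hs.2⟩
    obtain ⟨i, hi⟩ : ∃ i : Γ ⧸ H, ((nb G 0).filter fun s => cell s = c).card ≤
        2 * ((nb G 0).filter fun s => (QuotientAddGroup.mk s : Γ ⧸ H) = i).card := by
      rcases le_total ((nb G 0).filter fun s => (QuotientAddGroup.mk s : Γ ⧸ H) = i1).card
        ((nb G 0).filter fun s => (QuotientAddGroup.mk s : Γ ⧸ H) = i2).card with h | h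
      · exact ⟨i2, by omega⟩
      · exact ⟨i1, by omega⟩
    refine ⟨fb H 0 ∪ fb H i, ?_, ?_, ?_⟩
    · rw [hcard]
      exact le_trans (Nat.mul_le_mul_right _ hH2)
        (Nat.mul_le_mul_left _ (Finset.card_le_card Finset.subset_union_left))
    · have h4 : (fb H 0 ∪ fb H i).card ≤ 2 * (fb H 0).card := by
        have := Finset.card_union_le (fb H 0) (fb H i)
        rw [card_fb H i] at this
        omega
      rw [hcard]
      calc m * (fb H 0 ∪ fb H i).card ≤ H.index * (2 * (fb H 0).card) :=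
            Nat.mul_le_mul hH1 h4
        _ ≤ 3 * (H.index * (fb H 0).card) := by nlinarith [Nat.zero_le (H.index * (fb H 0).card)]
    · have h4 : (fb H 0 ∪ fb H i).card ≤ 2 * (fb H 0).card := by
        have := Finset.card_union_le (fb H 0) (fb H i)
        rw [card_fb H i] at this
        omega
      have h5 := pairs G hG H i
      calc ((nb G 0).filter fun s => cell s = c).card * (fb H 0 ∪ fb H i).card
          ≤ (2 * ((nb G 0).filter fun s => (QuotientAddGroup.mk s : Γ ⧸ H) = i).card) *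
            (2 * (fb H 0).card) := Nat.mul_le_mul hi h4
        _ = 4 * ((fb H 0).card *
            ((nb G 0).filter fun s => (QuotientAddGroup.mk s : Γ ⧸ H) = i).card) := by ring
        _ ≤ 6 * ed G (fb H 0 ∪ fb H i) := by omega

end Pool.Agent.Lib.MP8be6f6.AC
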