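import Pool.Agent.Lib.MP_8be6f6_co.AC.Spec

/-!
# MP_8be6f6_co, module CLB: cells from a cyclic quotient of large prime order (helper51)
-/

set_option autoImplicit false

namespace Pool.Agent.Lib.MP8be6f6.AC

open Finset Classical

universe u

namespace CLBM

theorem exists_avg {ι : Type*} [Fintype ι] [Nonempty ι] (a : ι → ℕ) (M : ℕ)
    (h : ∑ i, a i ≤ M) : ∃ i, Fintype.card ι * a i ≤ M := by
  by_contra hcon
  push Not at hcon
  have h1 : ∑ _i : ι, M < ∑ i : ι, Fintype.card ι * a i :=
    Finset.sum_lt_sum_of_nonempty univ_nonempty (fun g _ => hcon g)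
  rw [← Finset.mul_sum, Finset.sum_const, smul_eq_mul, Finset.card_univ] at h1
  have := Nat.lt_of_mul_lt_mul_left h1
  omega

section

variable {Γ : Type u} [AddCommGroup Γ] [Fintype Γ] {p : ℕ}

/-- The elements of the group over a set of residues. -/
noncomputable def pre (π : Γ →+ ZMod p) (S : Finset (ZMod p)) : Finset Γ :=
  univ.filter fun x => π x ∈ S

theorem mem_pre (π : Γ →+ ZMod p) (S : Finset (ZMod p)) (x : Γ) : x ∈ pre π S ↔ π x ∈ S := by
  simp [pre]

/-- The size of the fibres. -/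
noncomputable def fs (π : Γ →+ ZMod p) : ℕ := (pre π {0}).card

theorem card_fib (π : Γ →+ ZMod p) (hπ : Function.Surjective π) (t : ZMod p) :
    (pre π {t}).card = fs π := by
  obtain ⟨x0, hx0⟩ := hπ t
  symm
  unfold fs
  apply Finset.card_bij (fun x _ => x0 + x)
  · intro x hx
    simp only [mem_pre, mem_singleton, map_add] at hx ⊢
    rw [hx, hx0, add_zero]
  · intro a _ b _ h
    exact add_left_cancel h
  · intro b hb
    refine ⟨b - x0, ?_, by abel⟩
    simp only [mem_pre, mem_singleton, map_sub] at hb ⊢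
    rw [hb, hx0, sub_self]

theorem card_pre (π : Γ →+ ZMod p) (hπ : Function.Surjective π) (S : Finset (ZMod p)) :
    (pre π S).card = S.card * fs π := by
  have h : ∀ x ∈ pre π S, π x ∈ S := fun x hx => (mem_pre π S x).1 hx
  rw [Finset.card_eq_sum_card_fiberwise h]
  rw [Finset.sum_congr rfl (g := fun _ => fs π), Finset.sum_const, smul_eq_mul]
  intro t ht
  rw [← card_fib π hπ t]
  congr 1
  ext x
  simp only [mem_filter, mem_pre, mem_singleton]
  constructor
  · exact fun h => h.2
  · exact fun h => ⟨by rw [h]; exact ht, h⟩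

theorem card_all [NeZero p] (π : Γ →+ ZMod p) (hπ : Function.Surjective π) :
    Fintype.card Γ = p * fs π := by
  have h := card_pre π hπ univ
  rw [Finset.card_univ, ZMod.card] at h
  rw [← h, ← Finset.card_univ]
  congr 1
  ext x
  simp [mem_pre]

/-- The interval of residues `a, a + 1, .., a + n - 1`. -/
noncomputable def iv (a : ZMod p) (n : ℕ) : Finset (ZMod p) :=
  (range n).image fun r : ℕ => a + (r : ZMod p)

theorem mem_iv (a : ZMod p) (n : ℕ) (t : ZMod p) : t ∈ iv a n ↔ ∃ r : ℕ, r < n ∧ t = a + r := by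
  simp only [iv, mem_image, mem_range]
  constructor
  · rintro ⟨r, hr, rfl⟩
    exact ⟨r, hr, rfl⟩
  · rintro ⟨r, hr, rfl⟩
    exact ⟨r, hr, rfl⟩

theorem card_iv_le (a : ZMod p) (n : ℕ) : (iv a n).card ≤ n := by
  refine (Finset.card_image_le).trans ?_
  rw [Finset.card_range]

theorem card_iv [NeZero p] (a : ZMod p) (n : ℕ) (hn : n ≤ p) : (iv a n).card = n := by
  unfold iv
  rw [Finset.card_image_of_injOn, Finset.card_range]
  intro r hr s hs h
  simp only [coe_range, Set.mem_Iio] at hr hs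
  have h1 : (r : ZMod p) = (s : ZMod p) := add_left_cancel h
  have h2 := congrArg ZMod.val h1
  rwa [ZMod.val_cast_of_lt (hr.trans_le hn), ZMod.val_cast_of_lt (hs.trans_le hn)] at h2

/-- Summation over the windows. -/
theorem sum_windows [NeZero p] (π : Γ →+ ZMod p) (l : ℕ) (f : Γ → ℕ) :
    ∑ g : ZMod p, ∑ x ∈ pre π (iv g l), f x ≤ l * ∑ x : Γ, f x := by
  have h1 : ∀ g : ZMod p, ∑ x ∈ pre π (iv g l), f x =
      ∑ x : Γ, if π x ∈ iv g l then f x else 0 := by
    intro g
    unfold pre
    rw [Finset.sum_filter]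
  simp only [h1]
  rw [Finset.sum_comm, Finset.mul_sum]
  refine Finset.sum_le_sum fun x _ => ?_
  rw [← Finset.sum_filter, Finset.sum_const, smul_eq_mul]
  refine Nat.mul_le_mul_right _ ?_
  have h2 : (univ.filter fun g : ZMod p => π x ∈ iv g l) ⊆
      (range l).image fun r : ℕ => π x - (r : ZMod p) := by
    intro g hg
    rw [mem_filter, mem_iv] at hg
    obtain ⟨_, r, hr, h⟩ := hg
    rw [mem_image]
    exact ⟨r, mem_range.2 hr, by rw [h]; ring⟩
  refine (Finset.card_le_card h2).trans (Finset.card_image_le.trans ?_)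
  rw [Finset.card_range]

/-- Many pairs from two windows. -/
theorem pairs (G : SimpleGraph Γ) (hG : Inv G) (π : Γ →+ ZMod p) (w : ℕ) (j : ZMod p) :
    (pre π (iv 0 w)).card * ((nb G 0).filter fun s => π s ∈ iv j w).card ≤
      ed G (pre π (iv 0 w) ∪ pre π (iv j (2 * w))) := by
  unfold ed
  rw [← Finset.card_product]
  refine Finset.card_le_card_of_injOn (fun z => (z.1, z.1 + z.2)) ?_ ?_
  · intro z hz
    simp only [Finset.coe_product, Set.mem_prod, Finset.mem_coe, Finset.mem_filter, mem_pre, nb,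
      Finset.mem_univ, true_and] at hz
    obtain ⟨h1, h2, h3⟩ := hz
    simp only [Finset.mem_coe, Finset.mem_filter, Finset.mem_product, Finset.mem_union, mem_pre]
    refine ⟨⟨Or.inl h1, Or.inr ?_⟩, ?_⟩
    · rw [mem_iv] at h1 h3
      obtain ⟨r, hr, h1⟩ := h1
      obtain ⟨s, hs, h3⟩ := h3
      rw [mem_iv]
      refine ⟨r + s, by omega, ?_⟩
      rw [map_add, h1, h3]
      push_cast
      ring
    · have := (hG z.1 0 z.2).2 h2
      simpa using this
  · intro z _ w _ h
    simp only [Prod.mk.injEq] at h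
    obtain ⟨h1, h2⟩ := h
    rw [h1] at h2
    exact Prod.ext h1 (add_left_cancel h2)

theorem core (hORB : SpecORB.{u}) (hINT : SpecINT) (G : SimpleGraph Γ) (hG : Inv G) (m : ℕ)
    (hm : 4 ≤ m) (hp : p.Prime) (hmp : m ^ 3 < p) (π : Γ →+ ZMod p)
    (hπ : Function.Surjective π) : ∃ (K : Finset Γ) (cell : Γ → ℕ), Cell G m K cell := by
  have : NeZero p := ⟨hp.ne_zero⟩
  set D := (nb G 0).card with hD
  set h := fs π with hh
  -- the parameters
  set w := p / m with hw
  set l := w / m with hl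
  have hm0 : 0 < m := by omega
  have hw1 : m ^ 2 ≤ w := by
    rw [hw, Nat.le_div_iff_mul_le hm0]
    have : m ^ 2 * m = m ^ 3 := by ring
    omega
  have hl1 : m ≤ l := by
    rw [hl, Nat.le_div_iff_mul_le hm0]
    have : m * m = m ^ 2 := by ring
    omega
  have hw0 : 0 < w := lt_of_lt_of_le (by positivity) hw1
  have hwm : w * m ≤ p := Nat.div_mul_le_self p m
  have hlm : l * m ≤ w := Nat.div_mul_le_self w m
  have hwp : w ≤ p := Nat.div_le_self p m
  have hlw : l ≤ w := Nat.div_le_self w m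
  have hp2 : p < 2 * m * w := by
    have h1 : p < m * (w + 1) := by
      rw [hw]; exact Nat.lt_mul_div_succ p hm0
    nlinarith
  have hw2 : w < 2 * m * l := by
    have h1 : w < m * (l + 1) := by
      rw [hl]; exact Nat.lt_mul_div_succ w hm0
    nlinarith
  have hcard : Fintype.card Γ = p * h := card_all π hπ
  -- the choice of `g`
  set f : Γ → ℕ := fun x => (cn G 0 x).card + ((cn G 0 x).filter fun s => x - s = s).card with hf
  have hsum : ∑ x : Γ, f x ≤ D ^ 2 + D := by
    rw [hf, Finset.sum_add_distrib, hORB.sum Γ G hG]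
    exact Nat.add_le_add_left (hORB.fix Γ G hG) _
  obtain ⟨g, hg⟩ := exists_avg (fun g : ZMod p => ∑ x ∈ pre π (iv g l), f x) (l * (D ^ 2 + D))
    ((sum_windows π l f).trans (Nat.mul_le_mul_left _ hsum))
  rw [ZMod.card] at hg
  set K := pre π (iv g l) with hK
  have hKc : K.card = l * h := by
    rw [hK, card_pre π hπ, card_iv g l (hlw.trans hwp)]
  -- the cells
  set cell : ZMod p → Γ → ℕ := fun o y => min ((π y - o).val / w) ((g - π y - o).val / w) with hcell
  have hbadone : ∀ x ∈ K, ∀ s : Γ,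
      (univ.filter fun o : ZMod p => cell o (x - s) ≠ cell o s).card ≤ 6 * w := by
    intro x hx s
    rw [hK, mem_pre, mem_iv] at hx
    obtain ⟨r, hr, hx⟩ := hx
    have hpw : p / w ≤ 2 * m := by
      have h1 : p / w < 2 * m := by
        rw [Nat.div_lt_iff_lt_mul hw0]
        exact hp2
      exact h1.le
    have hrb : r * (p / w + 1) ≤ 3 * w := by
      calc r * (p / w + 1) ≤ l * (2 * m + 1) := Nat.mul_le_mul hr.le (by omega)
        _ ≤ l * (3 * m) := Nat.mul_le_mul_left _ (by omega)
        _ = 3 * (l * m) := by ring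
        _ ≤ 3 * w := by omega
    have h1 := hINT.bad p w r hp hw0 hwp (hr.le.trans hlw) (π s)
      (univ.filter fun o : ZMod p => (π s - r - o).val / w ≠ (π s - o).val / w)
      (fun o ho => (mem_filter.1 ho).2)
    have h2 := hINT.bad p w r hp hw0 hwp (hr.le.trans hlw) (g - π s + r)
      (univ.filter fun o : ZMod p => (g - π s + r - r - o).val / w ≠ (g - π s + r - o).val / w)
      (fun o ho => (mem_filter.1 ho).2)
    have h3 : (univ.filter fun o : ZMod p => cell o (x - s) ≠ cell o s) ⊆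
        (univ.filter fun o : ZMod p => (π s - r - o).val / w ≠ (π s - o).val / w) ∪
        (univ.filter fun o : ZMod p =>
          (g - π s + r - r - o).val / w ≠ (g - π s + r - o).val / w) := by
      intro o ho
      rw [mem_union, mem_filter, mem_filter]
      by_contra hcon
      simp only [mem_univ, true_and, not_or, not_not] at hcon
      obtain ⟨e1, e2⟩ := hcon
      apply (mem_filter.1 ho).2
      have e3 : π (x - s) = g - π s + r := by rw [map_sub, hx]; ring
      have e4 : g - π (x - s) - o = π s - r - o := by rw [e3]; ring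
      have e5 : g - π s + r - r - o = g - π s - o := by ring
      simp only [hcell]
      rw [e4, e3, e1, ← e2, e5, min_comm]
    refine (Finset.card_le_card h3).trans ((Finset.card_union_le _ _).trans ?_)
    omega
  -- the choice of `o`
  set C := ∑ x ∈ K, (cn G 0 x).card with hC
  have hsum2 : ∑ o : ZMod p, ∑ x ∈ K,
      ((cn G 0 x).filter fun s => cell o (x - s) ≠ cell o s).card ≤ 6 * w * C := by
    rw [Finset.sum_comm, hC, Finset.mul_sum]
    refine Finset.sum_le_sum fun x hx => ?_
    have h1 : ∀ o : ZMod p, ((cn G 0 x).filter fun s => cell o (x - s) ≠ cell o s).card =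
        ∑ s ∈ cn G 0 x, if cell o (x - s) ≠ cell o s then 1 else 0 := by
      intro o
      rw [Finset.card_filter]
    simp only [h1]
    rw [Finset.sum_comm]
    calc ∑ s ∈ cn G 0 x, ∑ o : ZMod p, (if cell o (x - s) ≠ cell o s then 1 else 0)
        ≤ ∑ s ∈ cn G 0 x, 6 * w := by
          refine Finset.sum_le_sum fun s _ => ?_
          rw [← Finset.card_filter]
          exact hbadone x hx s
      _ = 6 * w * (cn G 0 x).card := by
          rw [Finset.sum_const, smul_eq_mul, mul_comm]
  obtain ⟨o, ho⟩ := exists_avg (fun o : ZMod p => ∑ x ∈ K,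
      ((cn G 0 x).filter fun s => cell o (x - s) ≠ cell o s).card) (6 * w * C) hsum2
  rw [ZMod.card] at ho
  set Bd := ∑ x ∈ K, ((cn G 0 x).filter fun s => cell o (x - s) ≠ cell o s).card with hBd
  have hBd2 : m * Bd ≤ 6 * C := by
    have h1 : p * (m * Bd) ≤ p * (6 * C) := by
      calc p * (m * Bd) = m * (p * Bd) := by ring
        _ ≤ m * (6 * w * C) := Nat.mul_le_mul_left _ ho
        _ = (w * m) * (6 * C) := by ring
        _ ≤ p * (6 * C) := Nat.mul_le_mul_right _ hwm
    exact Nat.le_of_mul_le_mul_left h1 hp.pos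
  refine ⟨K, cell o, ?_, ?_, ?_⟩
  · -- big
    rw [hcard, hKc]
    have h1 : p ≤ m ^ 3 * l := by
      have h2 : p ≤ 4 * m ^ 2 * l := by nlinarith
      have h3 : 4 * m ^ 2 * l ≤ m ^ 3 * l := by
        refine Nat.mul_le_mul_right _ ?_
        have : m ^ 3 = m * m ^ 2 := by ring
        rw [this]
        exact Nat.mul_le_mul_right _ hm
      exact h2.trans h3
    calc p * h ≤ m ^ 3 * l * h := Nat.mul_le_mul_right _ h1
      _ = m ^ 3 * (l * h) := by ring
  · -- avg
    set I := ∑ x ∈ K, ((cn G 0 x).image (cell o)).card with hI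
    have h2 : 2 * I ≤ ∑ x ∈ K, f x + Bd := by
      rw [hI, hBd, Finset.mul_sum, ← Finset.sum_add_distrib]
      exact Finset.sum_le_sum fun x _ => hORB.orb Γ G hG (cell o) x
    have h3 : C ≤ ∑ x ∈ K, f x := by
      rw [hC, hf]
      exact Finset.sum_le_sum fun x _ => Nat.le_add_right _ _
    have h4 : m * (2 * I) ≤ (m + 6) * ∑ x ∈ K, f x := by
      calc m * (2 * I) ≤ m * (∑ x ∈ K, f x + Bd) := Nat.mul_le_mul_left _ h2
        _ = m * ∑ x ∈ K, f x + m * Bd := by ring
        _ ≤ m * ∑ x ∈ K, f x + 6 * ∑ x ∈ K, f x := by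
          exact Nat.add_le_add_left (hBd2.trans (Nat.mul_le_mul_left _ h3)) _
        _ = (m + 6) * ∑ x ∈ K, f x := by ring
    have h5 : m * (2 * I) * p ≤ (m + 6) * (l * (D ^ 2 + D)) := by
      calc m * (2 * I) * p ≤ (m + 6) * (∑ x ∈ K, f x) * p := Nat.mul_le_mul_right _ h4
        _ = (m + 6) * (p * ∑ x ∈ K, f x) := by ring
        _ ≤ (m + 6) * (l * (D ^ 2 + D)) := Nat.mul_le_mul_left _ hg
    have h6 : (m : ℝ) * (2 * (I : ℝ)) * p ≤ (m + 6) * (l * ((D : ℝ) ^ 2 + D)) := by
      exact_mod_cast h5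
    have h7 : (∑ x ∈ K, (((cn G 0 x).image (cell o)).card : ℝ)) = (I : ℝ) := by
      rw [hI]; push_cast; rfl
    rw [h7, hcard, hKc]
    push_cast
    have hmR : (0 : ℝ) < m := by exact_mod_cast hm0
    have hhR : (0 : ℝ) ≤ (h : ℝ) := Nat.cast_nonneg _
    have h8 : (m : ℝ) * (2 * (I : ℝ) * (p * h)) ≤
        m * ((1 + 6 / (m : ℝ)) * ((D : ℝ) ^ 2 + D) * (l * h)) := by
      have h9 : (m : ℝ) * (1 + 6 / (m : ℝ)) = m + 6 := by field_simp
      calc (m : ℝ) * (2 * (I : ℝ) * (p * h)) = ((m : ℝ) * (2 * (I : ℝ)) * p) * h := by ring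
        _ ≤ ((m + 6) * (l * ((D : ℝ) ^ 2 + D))) * h := mul_le_mul_of_nonneg_right h6 hhR
        _ = ((m : ℝ) * (1 + 6 / (m : ℝ))) * (l * ((D : ℝ) ^ 2 + D)) * h := by rw [h9]
        _ = m * ((1 + 6 / (m : ℝ)) * ((D : ℝ) ^ 2 + D) * (l * h)) := by ring
    exact le_of_mul_le_mul_left h8 hmR
  · -- thin
    intro c
    obtain ⟨j1, hj1⟩ := hINT.fib p w hp hw0 o c
    obtain ⟨j2, hj2⟩ := hINT.fib' p w hp hw0 o g c
    have h3 : ((nb G 0).filter fun s => cell o s = c).card ≤
        ((nb G 0).filter fun s => π s ∈ iv j1 w).card +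
        ((nb G 0).filter fun s => π s ∈ iv j2 w).card := by
      refine le_trans (Finset.card_le_card (t := ((nb G 0).filter fun s => π s ∈ iv j1 w) ∪
        ((nb G 0).filter fun s => π s ∈ iv j2 w)) ?_) (Finset.card_union_le _ _)
      intro s hs
      rw [Finset.mem_filter] at hs
      rw [Finset.mem_union, mem_filter, mem_filter, mem_iv, mem_iv]
      rcases min_choice ((π s - o).val / w) ((g - π s - o).val / w) with h' | h'
      · left
        exact ⟨hs.1, hj1 _ (h'.symm.trans hs.2)⟩
      · right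
        exact ⟨hs.1, hj2 _ (h'.symm.trans hs.2)⟩
    obtain ⟨j, hj⟩ : ∃ j : ZMod p, ((nb G 0).filter fun s => cell o s = c).card ≤
        2 * ((nb G 0).filter fun s => π s ∈ iv j w).card := by
      rcases le_total ((nb G 0).filter fun s => π s ∈ iv j1 w).card
        ((nb G 0).filter fun s => π s ∈ iv j2 w).card with h' | h'
      · exact ⟨j2, by omega⟩
      · exact ⟨j1, by omega⟩
    have hA : (pre π (iv 0 w)).card = w * h := by rw [card_pre π hπ, card_iv 0 w hwp]
    have hB : (pre π (iv j (2 * w))).card ≤ 2 * w * h := by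
      rw [card_pre π hπ]
      exact Nat.mul_le_mul_right _ (card_iv_le j (2 * w))
    have hX1 : w * h ≤ (pre π (iv 0 w) ∪ pre π (iv j (2 * w))).card := by
      rw [← hA]
      exact Finset.card_le_card Finset.subset_union_left
    have hX2 : (pre π (iv 0 w) ∪ pre π (iv j (2 * w))).card ≤ 3 * (w * h) := by
      have := Finset.card_union_le (pre π (iv 0 w)) (pre π (iv j (2 * w)))
      rw [hA] at this
      nlinarith
    refine ⟨pre π (iv 0 w) ∪ pre π (iv j (2 * w)), ?_, ?_, ?_⟩
    · rw [hcard]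
      have h1 : p ≤ m ^ 3 * w := by
        have h2 : 2 * m * w ≤ m ^ 3 * w := by
          refine Nat.mul_le_mul_right _ ?_
          nlinarith [Nat.mul_le_mul hm hm]
        omega
      calc p * h ≤ m ^ 3 * w * h := Nat.mul_le_mul_right _ h1
        _ = m ^ 3 * (w * h) := by ring
        _ ≤ _ := Nat.mul_le_mul_left _ hX1
    · rw [hcard]
      calc m * (pre π (iv 0 w) ∪ pre π (iv j (2 * w))).card ≤ m * (3 * (w * h)) :=
            Nat.mul_le_mul_left _ hX2
        _ = 3 * ((w * m) * h) := by ring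
        _ ≤ 3 * (p * h) := Nat.mul_le_mul_left _ (Nat.mul_le_mul_right _ hwm)
    · have h5 := pairs G hG π w j
      rw [hA] at h5
      calc ((nb G 0).filter fun s => cell o s = c).card *
            (pre π (iv 0 w) ∪ pre π (iv j (2 * w))).card
          ≤ (2 * ((nb G 0).filter fun s => π s ∈ iv j w).card) * (3 * (w * h)) :=
            Nat.mul_le_mul hj hX2
        _ = 6 * (w * h * ((nb G 0).filter fun s => π s ∈ iv j w).card) := by ring
        _ ≤ 6 * ed G (pre π (iv 0 w) ∪ pre π (iv j (2 * w))) := Nat.mul_le_mul_left _ h5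

end

end CLBM

open CLBM in
theorem specCLB (hORB : SpecORB.{u}) (hINT : SpecINT) : SpecCLB.{u} := by
  intro Γ _ _ G hG m hm H hH1 hH2
  have hcard : Nat.card (Γ ⧸ H) = H.index := rfl
  have : Fact (H.index).Prime := ⟨hH1⟩
  have hcyc : IsAddCyclic (Γ ⧸ H) := isAddCyclic_of_prime_card (p := H.index) hcard
  let e : ZMod (Nat.card (Γ ⧸ H)) ≃+ (Γ ⧸ H) := zmodAddCyclicAddEquiv hcyc
  let π : Γ →+ ZMod (H.index) := e.symm.toAddMonoidHom.comp (QuotientAddGroup.mk' H)
  have hπ : Function.Surjective π := e.symm.surjective.comp (QuotientAddGroup.mk'_surjective H)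
  exact core hORB hINT G hG m hm hH1 hH2 π hπ

end Pool.Agent.Lib.MP8be6f6.AC
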