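import Pool.Agent.Lib.MP_8be6f6_co.AC.Spec

/-!
# Module DIC (helper81): a subgroup of moderate index or of large prime index
-/

set_option autoImplicit false

namespace Pool.Agent.Lib.MP8be6f6.AC

open Finset Classical

universe u

theorem specDIC : SpecDIC.{u} := by
  intro Γ _ _ m hm hcard
  have hex : ∃ n, ∃ H : AddSubgroup Γ, H.index = n ∧ m ≤ n := by
    refine ⟨Fintype.card Γ, ⊥, ?_, hcard⟩
    rw [AddSubgroup.index_bot, Nat.card_eq_fintype_card]
  obtain ⟨H, hH, hmn⟩ := Nat.find_spec hex
  have hmin : ∀ H' : AddSubgroup Γ, m ≤ H'.index → H.index ≤ H'.index := by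
    intro H' h'
    rw [hH]
    exact Nat.find_min' hex ⟨H', rfl, h'⟩
  rw [← hH] at hmn
  clear hH
  refine ⟨H, ?_⟩
  by_cases h3 : H.index ≤ m ^ 3
  · exact Or.inl ⟨hmn, h3⟩
  right
  push Not at h3
  refine ⟨?_, h3⟩
  by_contra hp
  have hn0 : 0 < H.index := by omega
  have hm3 : m * m ≤ m ^ 3 := by
    calc m * m = m * m * 1 := by ring
      _ ≤ m * m * m := Nat.mul_le_mul_left _ (by omega)
      _ = m ^ 3 := by ring
  have hn1 : H.index ≠ 1 := by
    intro h1
    have : 2 * 2 ≤ m * m := Nat.mul_le_mul hm hm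
    omega
  have hpp : (Nat.minFac H.index).Prime := Nat.minFac_prime hn1
  have : Fact (Nat.minFac H.index).Prime := ⟨hpp⟩
  have hcq : Nat.card (Γ ⧸ H) = H.index := rfl
  obtain ⟨x, hx⟩ := exists_prime_addOrderOf_dvd_card' (G := Γ ⧸ H) (Nat.minFac H.index)
    (by rw [hcq]; exact Nat.minFac_dvd _)
  have h1 : ((AddSubgroup.zmultiples x).comap (QuotientAddGroup.mk' H)).index =
      (AddSubgroup.zmultiples x).index :=
    AddSubgroup.index_comap_of_surjective _ (QuotientAddGroup.mk'_surjective H)
  have h2 := (AddSubgroup.zmultiples x).card_mul_index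
  rw [Nat.card_zmultiples, hx, hcq] at h2
  have h4 : (AddSubgroup.zmultiples x).index < m := by
    by_contra hc
    push Not at hc
    have h5 := hmin _ (by rw [h1]; exact hc)
    rw [h1] at h5
    have h6 := hpp.two_le
    have h7 : 2 * (AddSubgroup.zmultiples x).index ≤ H.index := by
      calc 2 * (AddSubgroup.zmultiples x).index ≤
          H.index.minFac * (AddSubgroup.zmultiples x).index := Nat.mul_le_mul_right _ h6
        _ = H.index := h2
    omega
  have h8 := Nat.minFac_le_div hn0 hp
  have h9 : H.index / H.index.minFac = (AddSubgroup.zmultiples x).index := by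
    conv_lhs => rw [← h2]
    rw [h2]
    exact Nat.div_eq_of_eq_mul_right hpp.pos h2.symm
  rw [h9] at h8
  have h10 : H.index < m * m := by
    calc H.index = H.index.minFac * (AddSubgroup.zmultiples x).index := h2.symm
      _ ≤ (AddSubgroup.zmultiples x).index * (AddSubgroup.zmultiples x).index :=
          Nat.mul_le_mul_right _ h8
      _ < m * m := Nat.mul_lt_mul'' h4 h4
  omega

end Pool.Agent.Lib.MP8be6f6.AC
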