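import Pool.Agent.Lib.MP_8be6f6_co.AC.Spec

/-!
# MP_8be6f6_co, AC: module FIN (helper77).  The assembly.
-/

set_option autoImplicit false

namespace Pool.Agent.Lib.MP8be6f6.AC

open Finset Classical

universe u

namespace FINM

theorem nb_ind {V : Type u} [Fintype V] (G : SimpleGraph V) (hT : TF G) (o : V) :
    Ind G (nb G o) := by
  intro x hx y hy hxy
  simp only [nb, mem_filter, mem_univ, true_and] at hx hy
  exact hT o x y hx hxy hy

theorem ed_univ (hORB : SpecORB.{u}) {Γ : Type u} [AddCommGroup Γ] [Fintype Γ]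
    (G : SimpleGraph Γ) (hI : Inv G) : ed G univ = Fintype.card Γ * (nb G 0).card := by
  unfold ed
  rw [card_filter, sum_product]
  have h : ∀ x : Γ, ∑ z : Γ, (if G.Adj (x, z).1 (x, z).2 then 1 else 0) = (nb G 0).card := by
    intro x
    rw [← hORB.deg Γ G hI x]
    unfold nb
    rw [card_filter]
  rw [sum_congr rfl (fun x _ => h x), sum_const, card_univ, smul_eq_mul]

/-- The consequences of Shearer's bound for a large graph. -/
theorem common (hORB : SpecORB.{u}) (hSHE : SpecSHE.{u}) {y δ η : ℝ} {k : ℕ}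
    (hA : BigA y δ η k) {Γ : Type u} [AddCommGroup Γ] [Fintype Γ] (G : SimpleGraph Γ) (hI : Inv G)
    (hT : TF G) (hind : ∀ I : Finset Γ, Ind G I → I.card < k)
    (hN : cc y δ η * (k : ℝ) ^ 2 / Real.log k < Fintype.card Γ) :
    (nb G 0).card < k ∧ (k : ℝ) / 2 ≤ (nb G 0).card ∧
      (Fintype.card Γ : ℝ) ≤ 2 * (k : ℝ) ^ 2 / Real.log k := by
  have hD : (nb G 0).card < k := hind _ (nb_ind G hT 0)
  have hDr : ((nb G 0).card : ℝ) ≤ k := by exact_mod_cast hD.le
  have hk2 : (2 : ℝ) ≤ k := by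
    by_contra h
    push Not at h
    have hk : k < 2 := by exact_mod_cast h
    have h3 : Real.log (k : ℝ) ≤ 0 := by
      apply Real.log_nonpos (by positivity)
      have : k ≤ 1 := by omega
      exact_mod_cast this
    linarith [hA.log2]
  have hNr : (0 : ℝ) ≤ Fintype.card Γ := by positivity
  have hed : (ed G univ : ℝ) = Fintype.card Γ * (nb G 0).card := by
    rw [ed_univ hORB G hI]
    push_cast
    ring
  have key : ∀ d : ℝ, 1 ≤ d → ((nb G 0).card : ℝ) ≤ d →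
      (Fintype.card Γ : ℝ) * ((Real.log d - 1) / d) ≤ k := by
    intro d hd hd2
    obtain ⟨I, -, hI2, hI3⟩ := hSHE Γ G hT univ d hd (by
      rw [hed, card_univ, mul_comm]
      exact mul_le_mul_of_nonneg_right hd2 hNr)
    rw [card_univ] at hI3
    have h4 : (I.card : ℝ) ≤ k := by exact_mod_cast (hind I hI2).le
    exact hI3.trans h4
  refine ⟨hD, ?_, hA.up _ hNr (key k (by linarith) hDr)⟩
  by_contra h
  push Not at h
  have h5 := hA.half _ hNr (key ((k : ℝ) / 2) (by linarith) h.le)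
  linarith

theorem part1 (hORB : SpecORB.{u}) (hDIC : SpecDIC.{u}) (hCLA : SpecCLA.{u}) (hCLB : SpecCLB.{u})
    (hSHE : SpecSHE.{u}) (hONE : SpecONE.{u}) (hASA : SpecASA) (hASB : SpecASB)
    (y η δ : ℝ) (hy : 0 < y) (hy2 : y ≤ Real.log 2) (hη : 0 < η) (hδ : 0 ≤ δ) :
    ∃ k₀ : ℕ, ∀ k : ℕ, k₀ ≤ k →
      ∀ (Γ : Type u) [AddCommGroup Γ] [Fintype Γ] (G : SimpleGraph Γ) (_ : Inv G) (_ : TF G)
        (_ : ∀ I : Finset Γ, Ind G I → I.card < k)
        (_ : ∀ X : Finset Γ, (Fintype.card Γ : ℝ) ≤ (k : ℝ) ^ y * X.card →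
          (ed G X : ℝ) ≤ (1 + δ) * (nb G 0).card * (X.card : ℝ) ^ 2 / Fintype.card Γ),
        (Fintype.card Γ : ℝ) ≤
          ((1 + δ) * (Real.exp (-y) + y / 2) + η) * ((k : ℝ) ^ 2 / Real.log k) := by
  obtain ⟨k₁, h₁⟩ := hASA y δ η hy hy2 hδ hη
  obtain ⟨k₂, h₂⟩ := hASB y δ η hy hy2 hδ hη
  refine ⟨max k₁ k₂, ?_⟩
  intro k hk Γ _ _ G hI hT hind hsp
  have hA := h₁ k (le_trans (le_max_left _ _) hk)
  have hB := h₂ k (le_trans (le_max_right _ _) hk)
  by_contra hN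
  push Not at hN
  have hN' : cc y δ η * (k : ℝ) ^ 2 / Real.log k < Fintype.card Γ := by
    rw [mul_div_assoc]
    exact hN
  obtain ⟨c1, c2, c3⟩ := common hORB hSHE hA G hI hT hind hN'
  have hD : ((nb G 0).card : ℝ) ≤ k := by exact_mod_cast c1.le
  have hmN : mm k ≤ Fintype.card Γ := by exact_mod_cast hA.mN _ hN'
  have hm4 := hA.m4
  obtain ⟨K, cell, hC⟩ : ∃ (K : Finset Γ) (cell : Γ → ℕ), Cell G (mm k) K cell := by
    obtain ⟨H, hH | hH⟩ := hDIC Γ (mm k) (by omega) hmN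
    · exact hCLA Γ G hI (mm k) (by omega) H hH.1 hH.2
    · exact hCLB Γ G hI (mm k) hm4 H hH.1 hH.2
  have hbig : (Fintype.card Γ : ℝ) ≤ ((mm k : ℕ) : ℝ) ^ 3 * K.card := by exact_mod_cast hC.big
  have hK : (K.card : ℝ) ≤ Fintype.card Γ := by exact_mod_cast card_le_univ K
  obtain ⟨b1, b2, b3, b4⟩ := hB _ _ _ c2 hD hN' c3 hbig hK
  have hlog := hA.log2
  have hk0 : (0 : ℝ) < (nb G 0).card := by
    have : (0 : ℝ) < k := by
      by_contra h
      push Not at h
      have h0 : (k : ℝ) = 0 := le_antisymm h (by positivity)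
      rw [h0, Real.log_zero] at hlog
      linarith
    linarith
  have hθ : 0 < 1 / Real.log (k : ℝ) := by positivity
  have hθ1 : 1 / Real.log (k : ℝ) < 1 := by
    rw [div_lt_one (by linarith)]
    linarith
  have h := hONE Γ G hT k (mm k) (by omega) y δ (1 / Real.log (k : ℝ)) hy hδ hθ hθ1 hind K cell hC
    (by exact_mod_cast hk0) b1 hA.mky hsp b2 b3
  linarith

end FINM

theorem specFIN (hORB : SpecORB.{u}) (hDIC : SpecDIC.{u}) (hCLA : SpecCLA.{u})
    (hCLB : SpecCLB.{u}) (hSHE : SpecSHE.{u}) (hONE : SpecONE.{u}) (hASA : SpecASA)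
    (hASB : SpecASB) (hSPC : SpecSPC.{u}) : SpecFIN.{u} := by
  intro y η hy hy2 hη
  refine ⟨fun δ hδ => FINM.part1 hORB hDIC hCLA hCLB hSHE hONE hASA hASB y η δ hy hy2 hη hδ, ?_⟩
  have hη2 : 0 < η / 2 := by linarith
  have hδ : 0 ≤ η / 4 := by linarith
  obtain ⟨k₁, h₁⟩ := FINM.part1 hORB hDIC hCLA hCLB hSHE hONE hASA hASB y (η / 2) (η / 4) hy hy2
    hη2 hδ
  obtain ⟨k₂, h₂⟩ := hASA y (η / 4) (η / 2) hy hy2 hδ hη2
  have ht : Filter.Tendsto (fun k : ℕ => (k : ℝ) ^ (-η)) Filter.atTop (nhds 0) :=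
    (tendsto_rpow_neg_atTop hη).comp tendsto_natCast_atTop_atTop
  obtain ⟨k₃, h₃⟩ := Filter.eventually_atTop.1
    (ht.eventually (Iio_mem_nhds (show (0 : ℝ) < η / 4 / 2 by positivity)))
  refine ⟨max k₁ (max k₂ k₃), ?_⟩
  intro k hk Γ _ _ G hI hT hind hsp
  have hk1 : k₁ ≤ k := le_trans (le_max_left _ _) hk
  have hk2 : k₂ ≤ k := le_trans (le_max_left _ _) (le_trans (le_max_right _ _) hk)
  have hk3 : k₃ ≤ k := le_trans (le_max_right _ _) (le_trans (le_max_right _ _) hk)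
  have hA := h₂ k hk2
  have hη3 : (k : ℝ) ^ (-η) ≤ η / 4 / 2 := (h₃ k hk3).le
  have hlog := hA.log2
  have hk0 : (0 : ℝ) < k := by
    by_contra h
    push Not at h
    have h0 : (k : ℝ) = 0 := le_antisymm h (by positivity)
    rw [h0, Real.log_zero] at hlog
    linarith
  have hkl : 0 ≤ (k : ℝ) ^ 2 / Real.log k := by positivity
  have hc : (1 + η / 4) * (Real.exp (-y) + y / 2) + η / 2 ≤ Real.exp (-y) + y / 2 + η := by
    have e1 : Real.exp (-y) ≤ 1 := by
      rw [← Real.exp_zero]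
      exact Real.exp_le_exp.2 (by linarith)
    have e2 : Real.log 2 < 0.6931471808 := Real.log_two_lt_d9
    nlinarith
  by_contra hN
  push Not at hN
  have hN' : cc y (η / 4) (η / 2) * (k : ℝ) ^ 2 / Real.log k < Fintype.card Γ := by
    rw [mul_div_assoc]
    refine lt_of_le_of_lt ?_ hN
    exact mul_le_mul_of_nonneg_right hc hkl
  obtain ⟨-, c2, -⟩ := FINM.common hORB hSHE hA G hI hT hind hN'
  have hNpos : (0 : ℝ) < Fintype.card Γ := by exact_mod_cast Fintype.card_pos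
  have hfin := h₁ k hk1 Γ G hI hT hind (by
    intro X hX
    have hl : 0 ≤ (k : ℝ) ^ (1 - y - η) := by positivity
    refine (hSPC Γ G hI _ hsp hl X).trans ?_
    have hX0 : (0 : ℝ) ≤ X.card := by positivity
    have hD0 : (0 : ℝ) < (nb G 0).card := by linarith
    -- `k^(1-y-η) ≤ (η/4) D |X| / N`
    have e1 : (k : ℝ) ^ (1 - y - η) = k * (k : ℝ) ^ (-y) * (k : ℝ) ^ (-η) := by
      rw [show 1 - y - η = 1 + -y + -η by ring, Real.rpow_add hk0, Real.rpow_add hk0,
        Real.rpow_one]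
    have e2 : (k : ℝ) ^ (-y) ≤ X.card / Fintype.card Γ := by
      rw [Real.rpow_neg hk0.le, le_div_iff₀ hNpos, inv_mul_le_iff₀ (by positivity)]
      exact hX
    have e3 : (k : ℝ) ^ (1 - y - η) ≤
        η / 4 * (nb G 0).card * (X.card / Fintype.card Γ) := by
      rw [e1]
      have e4 : (k : ℝ) * (k : ℝ) ^ (-y) * (k : ℝ) ^ (-η) ≤
          k * (X.card / Fintype.card Γ) * (η / 4 / 2) := by gcongr
      refine e4.trans ?_
      have e5 : (0 : ℝ) ≤ X.card / Fintype.card Γ := by positivity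
      have e6 : (k : ℝ) * (X.card / Fintype.card Γ) * (η / 4 / 2) =
          η / 4 * (k / 2) * (X.card / Fintype.card Γ) := by ring
      rw [e6]
      gcongr
    have e7 := mul_le_mul_of_nonneg_right e3 hX0
    have e8 : (1 + η / 4) * ((nb G 0).card : ℝ) * (X.card : ℝ) ^ 2 / Fintype.card Γ =
        (nb G 0).card * (X.card : ℝ) ^ 2 / Fintype.card Γ +
          η / 4 * (nb G 0).card * (X.card / Fintype.card Γ) * X.card := by
      ring
    rw [e8]
    linarith)
  have h9 := mul_le_mul_of_nonneg_right hc hkl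
  linarith

end Pool.Agent.Lib.MP8be6f6.AC
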