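import Pool.Agent.Lib.MP_8be6f6_co.AC.Spec

/-! # INT: intervals in `ZMod p` -/

set_option autoImplicit false

namespace Pool.Agent.Lib.MP8be6f6.AC

open Finset Classical

namespace INTM

lemma bad (p w r : ℕ) (hp : p.Prime) (hw : 0 < w) (_hwp : w ≤ p) (_hr : r ≤ w) (t : ZMod p)
    (O : Finset (ZMod p)) (hO : ∀ o ∈ O, (t - r - o).val / w ≠ (t - o).val / w) :
    O.card ≤ r * (p / w + 1) := by
  have : Fact p.Prime := ⟨hp⟩
  have hcard : (range r ×ˢ range (p / w + 1)).card = r * (p / w + 1) := by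
    rw [card_product, card_range, card_range]
  rw [← hcard]
  apply Finset.card_le_card_of_injOn (fun o : ZMod p => ((t - o).val % w, (t - o).val / w))
  · intro o ho
    have ho' := hO o (by simpa using ho)
    simp only [coe_product, coe_range, Set.mem_prod, Set.mem_Iio]
    have hlt : (t - o).val < p := ZMod.val_lt _
    refine ⟨?_, Nat.lt_succ_of_le (Nat.div_le_div_right hlt.le)⟩
    by_contra hcon
    push Not at hcon
    apply ho'
    set u := (t - o).val with hu
    have hru : r ≤ u := hcon.trans (Nat.mod_le _ _)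
    have h1 : t - r - o = ((u - r : ℕ) : ZMod p) := by
      rw [Nat.cast_sub hru, hu, ZMod.natCast_zmod_val]
      ring
    have h2 : (t - r - o).val = u - r := by
      rw [h1, ZMod.val_natCast, Nat.mod_eq_of_lt (lt_of_le_of_lt (Nat.sub_le _ _) hlt)]
    rw [h2]
    have hdm := Nat.div_add_mod u w
    have h3 : u - r = w * (u / w) + (u % w - r) := by omega
    rw [h3, Nat.mul_add_div hw]
    have h4 : (u % w - r) / w = 0 := Nat.div_eq_of_lt
      (lt_of_le_of_lt (Nat.sub_le _ _) (Nat.mod_lt _ hw))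
    omega
  · intro a _ b _ hab
    simp only [Prod.mk.injEq] at hab
    have h1 := Nat.div_add_mod (t - a).val w
    have h2 := Nat.div_add_mod (t - b).val w
    rw [hab.1, hab.2, h2] at h1
    have h3 := ZMod.val_injective p h1
    have h4 : t - a = t - b := h3.symm
    exact sub_right_injective h4

lemma fib (p w : ℕ) (hp : p.Prime) (hw : 0 < w) (o : ZMod p) (i : ℕ) : ∃ j : ZMod p, ∀ t : ZMod p,
    (t - o).val / w = i → ∃ v : ℕ, v < w ∧ t = j + v := by
  have : Fact p.Prime := ⟨hp⟩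
  refine ⟨o + (w * i : ℕ), fun t ht => ⟨(t - o).val % w, Nat.mod_lt _ hw, ?_⟩⟩
  have h1 := Nat.div_add_mod (t - o).val w
  rw [ht] at h1
  have h2 : ((w * i + (t - o).val % w : ℕ) : ZMod p) = t - o := by
    rw [h1, ZMod.natCast_zmod_val]
  rw [Nat.cast_add] at h2
  rw [add_assoc, h2]
  ring

lemma fib' (p w : ℕ) (hp : p.Prime) (hw : 0 < w) (o g : ZMod p) (i : ℕ) :
    ∃ j : ZMod p, ∀ t : ZMod p, (g - t - o).val / w = i → ∃ v : ℕ, v < w ∧ t = j + v := by
  have : Fact p.Prime := ⟨hp⟩
  refine ⟨g - o - (w * i : ℕ) - (w - 1 : ℕ), fun t ht =>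
    ⟨w - 1 - (g - t - o).val % w, by omega, ?_⟩⟩
  have h1 := Nat.div_add_mod (g - t - o).val w
  have hlt := Nat.mod_lt (g - t - o).val hw
  rw [ht] at h1
  have h2 : ((w * i + (g - t - o).val % w : ℕ) : ZMod p) = g - t - o := by
    rw [h1, ZMod.natCast_zmod_val]
  rw [Nat.cast_add] at h2
  rw [Nat.cast_sub (show (g - t - o).val % w ≤ w - 1 by omega)]
  linear_combination h2

end INTM

theorem specINT : SpecINT where
  bad := INTM.bad
  fib := INTM.fib
  fib' := INTM.fib'

end Pool.Agent.Lib.MP8be6f6.AC
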