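import Pool.Agent.Lib.MP_8be6f6_co.AC.Spec

/-!
# MP_8be6f6_co, AC: module ONE, the main inequality
-/

set_option autoImplicit false

namespace Pool.Agent.Lib.MP8be6f6.AC

open Finset Classical

universe u

namespace ONEM

lemma nb_ind {V : Type u} [Fintype V] (G : SimpleGraph V) (hT : TF G) (o : V) : Ind G (nb G o) := by
  intro x hx y hy hxy
  simp only [nb, mem_filter, mem_univ, true_and] at hx hy
  exact hT o x y hx hxy hy

lemma cn_sub {V : Type u} [Fintype V] (G : SimpleGraph V) (o x : V) : cn G o x ⊆ nb G o := by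
  intro z hz
  simp only [cn, nb, mem_filter, mem_univ, true_and] at hz ⊢
  exact hz.1

lemma cell_bound {Γ : Type u} [AddCommGroup Γ] [Fintype Γ] (G : SimpleGraph Γ) (k m : ℕ)
    (hm : 2 ≤ m) (y δ : ℝ) (hδ : 0 ≤ δ) (K : Finset Γ) (cell : Γ → ℕ) (hC : Cell G m K cell)
    (hmk : ((m : ℝ)) ^ 3 ≤ (k : ℝ) ^ y)
    (hsp : ∀ X : Finset Γ, (Fintype.card Γ : ℝ) ≤ (k : ℝ) ^ y * X.card →
      (ed G X : ℝ) ≤ (1 + δ) * (nb G 0).card * (X.card : ℝ) ^ 2 / Fintype.card Γ) (c : ℕ) :
    ((((nb G 0).filter fun s => cell s = c).card : ℕ) : ℝ) ≤ 18 * (1 + δ) * (nb G 0).card / m := by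
  obtain ⟨X, h1, h2, h3⟩ := hC.thin c
  have hN : 0 < Fintype.card Γ := Fintype.card_pos
  have hNr : (0 : ℝ) < (Fintype.card Γ : ℝ) := by exact_mod_cast hN
  have hX : 0 < X.card := by
    rcases Nat.eq_zero_or_pos X.card with h | h
    · rw [h, mul_zero] at h1
      omega
    · exact h
  have hXr : (0 : ℝ) < (X.card : ℝ) := by exact_mod_cast hX
  have hmr : (0 : ℝ) < (m : ℝ) := by
    have : 0 < m := by omega
    exact_mod_cast this
  have h1r : (Fintype.card Γ : ℝ) ≤ (m : ℝ) ^ 3 * X.card := by exact_mod_cast h1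
  have h2r : (m : ℝ) * X.card ≤ 3 * (Fintype.card Γ : ℝ) := by exact_mod_cast h2
  have h3r : ((((nb G 0).filter fun s => cell s = c).card : ℕ) : ℝ) * X.card ≤ 6 * (ed G X : ℝ) := by
    exact_mod_cast h3
  have h4 : (Fintype.card Γ : ℝ) ≤ (k : ℝ) ^ y * X.card :=
    h1r.trans (mul_le_mul_of_nonneg_right hmk hXr.le)
  have h5 := hsp X h4
  set D : ℝ := ((nb G 0).card : ℝ) with hD
  have hD0 : 0 ≤ D := by rw [hD]; positivity
  set N : ℝ := (Fintype.card Γ : ℝ) with hNdef
  set x : ℝ := (X.card : ℝ) with hx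
  set a : ℝ := ((((nb G 0).filter fun s => cell s = c).card : ℕ) : ℝ) with ha
  have h6 : a * x ≤ 6 * ((1 + δ) * D * x ^ 2 / N) :=
    h3r.trans (mul_le_mul_of_nonneg_left h5 (by norm_num))
  have h7 : a ≤ 6 * ((1 + δ) * D * x / N) := by
    have h8 : 6 * ((1 + δ) * D * x ^ 2 / N) = 6 * ((1 + δ) * D * x / N) * x := by ring
    rw [h8] at h6
    exact le_of_mul_le_mul_right h6 hXr
  have h9 : x / N ≤ 3 / m := by
    rw [div_le_div_iff₀ hNr hmr]
    linarith
  calc a ≤ 6 * ((1 + δ) * D * x / N) := h7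
    _ = 6 * (1 + δ) * D * (x / N) := by ring
    _ ≤ 6 * (1 + δ) * D * (3 / m) := mul_le_mul_of_nonneg_left h9 (by positivity)
    _ = 18 * (1 + δ) * D / m := by ring

end ONEM

open ONEM

theorem specONE (hSHE : SpecSHE.{u}) (hBIA : SpecBIA.{u}) : SpecONE.{u} := by
  intro Γ _ _ G hT k m hm y δ θ hy hδ hθ hθ1 hind K cell hC hD hDK hmk hsp hN1 hone
  have hN : 0 < Fintype.card Γ := Fintype.card_pos
  have hNr : (0 : ℝ) < (Fintype.card Γ : ℝ) := by exact_mod_cast hN
  have hmr : (0 : ℝ) < (m : ℝ) := by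
    have : 0 < m := by omega
    exact_mod_cast this
  have hDr : (0 : ℝ) < ((nb G 0).card : ℝ) := by exact_mod_cast hD
  have hκD : (0 : ℝ) < (K.card : ℝ) - (nb G 0).card := by linarith
  have hκ : (0 : ℝ) < (K.card : ℝ) := by linarith
  -- the set K minus S
  have hK' : (K.card : ℝ) - (nb G 0).card ≤ ((K \ nb G 0).card : ℝ) := by
    have h := Finset.card_le_card_sdiff_add_card (s := K) (t := nb G 0)
    have h2 : (K.card : ℝ) ≤ ((K \ nb G 0).card : ℝ) + (nb G 0).card := by exact_mod_cast h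
    linarith
  have hK'ne : (K \ nb G 0).Nonempty := by
    rw [← Finset.card_pos]
    have : (0 : ℝ) < ((K \ nb G 0).card : ℝ) := lt_of_lt_of_le hκD hK'
    exact_mod_cast this
  set μ : ℝ := mu (Fintype.card Γ) (nb G 0).card K.card m with hμ
  have hμ0 : 0 ≤ μ := by
    rw [hμ, mu]
    have h1 : (0 : ℝ) < 1 + 6 / (m : ℝ) := by positivity
    positivity
  have hμeq : μ * ((K.card : ℝ) - (nb G 0).card) * (2 * (Fintype.card Γ : ℝ)) =
      (1 + 6 / (m : ℝ)) * (((nb G 0).card : ℝ) ^ 2 + (nb G 0).card) * (K.card : ℝ) := by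
    rw [hμ, mu]
    field_simp
  -- the images
  have hMU : ∀ x ∈ K \ nb G 0, (cn G 0 x).image cell ⊆ (nb G 0).image cell := fun x _ =>
    Finset.image_subset_image (cn_sub G 0 x)
  have hsum : ∑ x ∈ K \ nb G 0, ((((cn G 0 x).image cell).card : ℕ) : ℝ) ≤ μ * (K \ nb G 0).card := by
    have h1 : ∑ x ∈ K \ nb G 0, ((((cn G 0 x).image cell).card : ℕ) : ℝ) ≤
        ∑ x ∈ K, ((((cn G 0 x).image cell).card : ℕ) : ℝ) :=
      Finset.sum_le_sum_of_subset_of_nonneg Finset.sdiff_subset (fun _ _ _ => Nat.cast_nonneg _)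
    have h2 := hC.avg
    have h3 : ∑ x ∈ K, ((((cn G 0 x).image cell).card : ℕ) : ℝ) ≤
        μ * ((K.card : ℝ) - (nb G 0).card) := by
      rw [← hμeq] at h2
      have h4 : (∑ x ∈ K, ((((cn G 0 x).image cell).card : ℕ) : ℝ)) * (2 * (Fintype.card Γ : ℝ)) ≤
          μ * ((K.card : ℝ) - (nb G 0).card) * (2 * (Fintype.card Γ : ℝ)) := by
        calc _ = 2 * (∑ x ∈ K, ((((cn G 0 x).image cell).card : ℕ) : ℝ)) * (Fintype.card Γ : ℝ) := by
              ring
          _ ≤ _ := h2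
      exact le_of_mul_le_mul_right h4 (by positivity)
    exact h1.trans (h3.trans (mul_le_mul_of_nonneg_left hK' hμ0))
  obtain ⟨C, hCU, hTc, hJc⟩ := hBIA Γ (K \ nb G 0) hK'ne (fun x => (cn G 0 x).image cell)
    ((nb G 0).image cell) hMU
    (fun c => ((((nb G 0).filter fun s => cell s = c).card : ℕ) : ℝ))
    (18 * (1 + δ) * (nb G 0).card / m) μ y θ (fun c => Nat.cast_nonneg _)
    (fun c => cell_bound G k m hm y δ hδ K cell hC hmk hsp c) hy hθ hθ1 hsum
  have hU : ∑ c ∈ (nb G 0).image cell, ((((nb G 0).filter fun s => cell s = c).card : ℕ) : ℝ) =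
      ((nb G 0).card : ℝ) := by
    have h := Finset.card_eq_sum_card_image cell (nb G 0)
    rw [h]
    push_cast
    rfl
  rw [hU] at hJc
  set J : Finset Γ := (nb G 0).filter fun s => cell s ∈ C with hJ
  have hJcard : ∑ c ∈ C, ((((nb G 0).filter fun s => cell s = c).card : ℕ) : ℝ) = (J.card : ℝ) := by
    have h := Finset.card_eq_sum_card_fiberwise (f := cell) (s := J) (t := C) (by
      intro s hs
      have hs2 : s ∈ J := hs
      rw [hJ, mem_filter] at hs2
      exact hs2.2)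
    rw [h]
    push_cast
    refine Finset.sum_congr rfl fun c hc => ?_
    congr 2
    ext s
    simp only [hJ, mem_filter]
    constructor
    · rintro ⟨h1, h2⟩
      exact ⟨⟨h1, by rw [h2]; exact hc⟩, h2⟩
    · rintro ⟨⟨h1, _⟩, h2⟩
      exact ⟨h1, h2⟩
  rw [hJcard] at hJc
  set T : Finset Γ := (K \ nb G 0).filter fun x => Disjoint ((cn G 0 x).image cell) C with hTdef
  have hE0 : θ * e0 (Fintype.card Γ) (nb G 0).card K.card m y ≤ (T.card : ℝ) := by
    refine le_trans ?_ hTc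
    refine mul_le_mul_of_nonneg_left ?_ hθ.le
    rw [e0, ← hμ]
    exact mul_le_mul_of_nonneg_right hK' (Real.exp_pos _).le
  set E : ℝ := θ * e0 (Fintype.card Γ) (nb G 0).card K.card m y with hE
  have hEpos : 0 < E := by
    rw [hE, e0]
    exact mul_pos hθ (mul_pos hκD (Real.exp_pos _))
  have hTpos : (0 : ℝ) < (T.card : ℝ) := lt_of_lt_of_le hEpos hE0
  have hky : (0 : ℝ) ≤ (k : ℝ) ^ y := Real.rpow_nonneg (Nat.cast_nonneg _) _
  have hNT : (Fintype.card Γ : ℝ) ≤ (k : ℝ) ^ y * T.card :=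
    hN1.trans (mul_le_mul_of_nonneg_left hE0 hky)
  have hed := hsp T hNT
  set ρ : ℝ := (1 + δ) * (nb G 0).card / Fintype.card Γ with hρ
  have hρpos : 0 < ρ := by rw [hρ]; positivity
  have hd1 : 1 ≤ ρ * T.card := hone.trans (mul_le_mul_of_nonneg_left hE0 hρpos.le)
  obtain ⟨I, hIT, hII, hIc⟩ := hSHE Γ G hT T (ρ * T.card) hd1 (by
    refine hed.trans (le_of_eq ?_)
    rw [hρ]
    ring)
  have hIc2 : (Real.log (ρ * E) - 1) / ρ ≤ (I.card : ℝ) := by
    refine le_trans ?_ hIc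
    have h1 : (T.card : ℝ) * ((Real.log (ρ * T.card) - 1) / (ρ * T.card)) =
        (Real.log (ρ * T.card) - 1) / ρ := by
      field_simp
    rw [h1]
    refine div_le_div_of_nonneg_right ?_ hρpos.le
    have h2 : Real.log (ρ * E) ≤ Real.log (ρ * T.card) :=
      Real.log_le_log (mul_pos hρpos hEpos) (mul_le_mul_of_nonneg_left hE0 hρpos.le)
    linarith
  -- the union is independent
  have hJS : J ⊆ nb G 0 := Finset.filter_subset _ _
  have hIK : ∀ x ∈ I, x ∉ nb G 0 := by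
    intro x hx
    have h1 := hIT hx
    rw [hTdef, mem_filter, mem_sdiff] at h1
    exact h1.1.2
  have hdisj : Disjoint J I := by
    rw [Finset.disjoint_left]
    intro x hx1 hx2
    exact hIK x hx2 (hJS hx1)
  have hcross : ∀ s ∈ J, ∀ x ∈ I, ¬ G.Adj s x := by
    intro s hs x hx hadj
    have h1 := hIT hx
    rw [hTdef, mem_filter] at h1
    rw [hJ, mem_filter] at hs
    have h0 : G.Adj 0 s := by
      have := hs.1
      simpa only [nb, mem_filter, mem_univ, true_and] using this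
    have h2 : s ∈ cn G 0 x := by
      simp only [cn, mem_filter, mem_univ, true_and]
      exact ⟨h0, hadj⟩
    exact Finset.disjoint_left.1 h1.2 (Finset.mem_image_of_mem cell h2) hs.2
  have hunion : Ind G (J ∪ I) := by
    intro x hx z hz hxz
    rw [mem_union] at hx hz
    rcases hx with hx | hx <;> rcases hz with hz | hz
    · exact nb_ind G hT 0 x (hJS hx) z (hJS hz) hxz
    · exact hcross x hx z hz hxz
    · exact hcross z hz x hx hxz.symm
    · exact hII x hx z hz hxz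
  have hlt := hind (J ∪ I) hunion
  rw [Finset.card_union_of_disjoint hdisj] at hlt
  have hltr : (J.card : ℝ) + I.card < k := by exact_mod_cast hlt
  have hrho2 : (Fintype.card Γ : ℝ) / ((1 + δ) * (nb G 0).card) * (Real.log (ρ * E) - 1) =
      (Real.log (ρ * E) - 1) / ρ := by
    rw [hρ]
    have h1 : (1 + δ) * ((nb G 0).card : ℝ) ≠ 0 := by positivity
    field_simp
  rw [hrho2]
  linarith

end Pool.Agent.Lib.MP8be6f6.AC
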