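import Pool.Agent.Lib.MP_8be6f6_co.AC.Spec

set_option autoImplicit false

namespace Pool.Agent.Lib.MP8be6f6.AC

open Finset Classical

universe u

namespace ORBM

lemma mem_nb {V : Type u} [Fintype V] {G : SimpleGraph V} {x z : V} :
    z ∈ nb G x ↔ G.Adj x z := by
  simp [nb]

lemma mem_cn {V : Type u} [Fintype V] {G : SimpleGraph V} {x y z : V} :
    z ∈ cn G x y ↔ G.Adj x z ∧ G.Adj z y := by
  simp [cn]

variable {Γ : Type u} [AddCommGroup Γ] [Fintype Γ]

omit [Fintype Γ] in
lemma adj_add {G : SimpleGraph Γ} (hG : Inv G) (x z : Γ) : G.Adj x (x + z) ↔ G.Adj 0 z := by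
  have := hG x 0 z
  rwa [add_zero] at this

lemma deg {G : SimpleGraph Γ} (hG : Inv G) (x : Γ) : (nb G x).card = (nb G 0).card := by
  symm
  refine Finset.card_bij (fun z _ => x + z) ?_ ?_ ?_
  · intro z hz
    rw [mem_nb] at hz ⊢
    exact (adj_add hG x z).2 hz
  · intro a _ b _ h
    exact add_left_cancel h
  · intro b hb
    refine ⟨b - x, ?_, by abel⟩
    rw [mem_nb] at hb ⊢
    rw [← adj_add hG x]
    rwa [add_sub_cancel]

lemma sum {G : SimpleGraph Γ} (hG : Inv G) :
    ∑ x : Γ, (cn G 0 x).card = (nb G 0).card ^ 2 := by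
  have h1 : ∑ x : Γ, (cn G 0 x).card =
      ∑ x : Γ, ∑ s : Γ, (if G.Adj 0 s ∧ G.Adj s x then 1 else 0) := by
    refine Finset.sum_congr rfl fun x _ => ?_
    rw [cn, Finset.card_filter]
  rw [h1, Finset.sum_comm]
  have h2 : ∀ s : Γ, ∑ x : Γ, (if G.Adj 0 s ∧ G.Adj s x then 1 else 0) =
      if G.Adj 0 s then (nb G 0).card else 0 := by
    intro s
    by_cases hs : G.Adj 0 s
    · rw [if_pos hs, ← deg hG s, nb, Finset.card_filter]
      refine Finset.sum_congr rfl fun x _ => ?_
      simp [hs]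
    · rw [if_neg hs]
      refine Finset.sum_eq_zero fun x _ => ?_
      rw [if_neg]
      exact fun h => hs h.1
  rw [Finset.sum_congr rfl fun s _ => h2 s, ← Finset.sum_filter, Finset.sum_const, smul_eq_mul,
    sq]
  rfl

lemma fix {G : SimpleGraph Γ} :
    ∑ x : Γ, ((cn G 0 x).filter fun s => x - s = s).card ≤ (nb G 0).card := by
  have h1 : ∑ x : Γ, ((cn G 0 x).filter fun s => x - s = s).card =
      ∑ x : Γ, ∑ s : Γ, (if (G.Adj 0 s ∧ G.Adj s x) ∧ x - s = s then 1 else 0) := by
    refine Finset.sum_congr rfl fun x _ => ?_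
    rw [cn, Finset.filter_filter, Finset.card_filter]
  rw [h1, Finset.sum_comm, nb, Finset.card_filter]
  refine Finset.sum_le_sum fun s _ => ?_
  by_cases hs : G.Adj 0 s
  · rw [if_pos hs]
    calc ∑ x : Γ, (if (G.Adj 0 s ∧ G.Adj s x) ∧ x - s = s then 1 else 0)
        ≤ ∑ x : Γ, (if x = s + s then 1 else 0) := by
          refine Finset.sum_le_sum fun x _ => ?_
          by_cases h : (G.Adj 0 s ∧ G.Adj s x) ∧ x - s = s
          · rw [if_pos h, if_pos]
            exact sub_eq_iff_eq_add.1 h.2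
          · rw [if_neg h]
            exact Nat.zero_le _
      _ = 1 := by simp
  · rw [if_neg hs]
    refine le_of_eq (Finset.sum_eq_zero fun x _ => ?_)
    rw [if_neg]
    exact fun h => hs h.1.1

lemma inv_mem {G : SimpleGraph Γ} (hG : Inv G) {x s : Γ} (hs : s ∈ cn G 0 x) :
    x - s ∈ cn G 0 x := by
  rw [mem_cn] at hs ⊢
  obtain ⟨h0, h1⟩ := hs
  constructor
  · rw [← adj_add hG s]
    rwa [add_sub_cancel]
  · have h2 := (adj_add hG (x - s) s).2 h0
    rwa [sub_add_cancel] at h2

lemma orb {G : SimpleGraph Γ} (hG : Inv G) (cell : Γ → ℕ) (x : Γ) :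
    2 * ((cn G 0 x).image cell).card ≤ (cn G 0 x).card +
      ((cn G 0 x).filter fun s => x - s = s).card +
      ((cn G 0 x).filter fun s => cell (x - s) ≠ cell s).card := by
  set R := cn G 0 x with hR
  have hm : ∀ (p : Γ → Prop) [DecidablePred p], (R.filter p).card =
      ∑ c ∈ R.image cell, ((R.filter fun s => cell s = c).filter p).card := by
    intro p _
    rw [Finset.card_eq_sum_card_fiberwise (f := cell) (s := R.filter p) (t := R.image cell)
      (fun s hs => Finset.mem_coe.2
        (Finset.mem_image_of_mem cell (Finset.mem_filter.1 (Finset.mem_coe.1 hs)).1))]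
    refine Finset.sum_congr rfl fun c _ => ?_
    rw [Finset.filter_filter, Finset.filter_filter]
    congr 1
    ext s
    simp only [Finset.mem_filter]
    tauto
  rw [Finset.card_eq_sum_card_image cell R, hm, hm, ← Finset.sum_add_distrib,
    ← Finset.sum_add_distrib, mul_comm, ← smul_eq_mul, ← Finset.sum_const]
  refine Finset.sum_le_sum fun c hc => ?_
  obtain ⟨s, hs, rfl⟩ := Finset.mem_image.1 hc
  have hsF : s ∈ R.filter fun s' => cell s' = cell s := Finset.mem_filter.2 ⟨hs, rfl⟩
  have h0 : 1 ≤ (R.filter fun s' => cell s' = cell s).card := Finset.card_pos.2 ⟨s, hsF⟩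
  by_cases h1 : x - s = s
  · have h2 : 1 ≤ ((R.filter fun s' => cell s' = cell s).filter fun s' => x - s' = s').card :=
      Finset.card_pos.2 ⟨s, Finset.mem_filter.2 ⟨hsF, h1⟩⟩
    omega
  · by_cases h3 : cell (x - s) = cell s
    · have h4 : x - s ∈ R.filter fun s' => cell s' = cell s :=
        Finset.mem_filter.2 ⟨inv_mem hG hs, h3⟩
      have h5 : 2 ≤ (R.filter fun s' => cell s' = cell s).card := by
        have := Finset.one_lt_card.2 ⟨x - s, h4, s, hsF, h1⟩
        omega
      omega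
    · have h2 : 1 ≤ ((R.filter fun s' => cell s' = cell s).filter
          fun s' => cell (x - s') ≠ cell s').card :=
        Finset.card_pos.2 ⟨s, Finset.mem_filter.2 ⟨hsF, h3⟩⟩
      omega

end ORBM

theorem specORB : SpecORB.{u} where
  deg := fun _ _ _ _ hG x => ORBM.deg hG x
  sum := fun _ _ _ _ hG => ORBM.sum hG
  fix := fun _ _ _ _ _ => ORBM.fix
  orb := fun _ _ _ _ hG cell x => ORBM.orb hG cell x

end Pool.Agent.Lib.MP8be6f6.AC
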