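import Pool.Agent.Lib.MP_8be6f6_co.AC.Spec

/-!
# MP_8be6f6_co, module SHE: the theorem of Shearer for triangle-free graphs
-/

set_option autoImplicit false

namespace Pool.Agent.Lib.MP8be6f6.AC

open Finset Classical

universe u

namespace SHEM

variable {V : Type u} {G : SimpleGraph V}

/-- the neighbours of `v` in `T` -/
noncomputable def N (G : SimpleGraph V) (T : Finset V) (v : V) : Finset V :=
  T.filter fun w => G.Adj v w

/-- what remains of `T` after removing `v` and its neighbours -/
noncomputable def R (G : SimpleGraph V) (T : Finset V) (v : V) : Finset V :=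
  T.filter fun w => w ≠ v ∧ ¬ G.Adj v w

lemma mem_N {T : Finset V} {v w : V} : w ∈ N G T v ↔ w ∈ T ∧ G.Adj v w := by
  simp [N]

lemma mem_R {T : Finset V} {v w : V} : w ∈ R G T v ↔ w ∈ T ∧ w ≠ v ∧ ¬ G.Adj v w := by
  simp [R]

lemma sum_N (T : Finset V) : ∑ v ∈ T, (N G T v).card = ed G T := by
  unfold ed N
  rw [Finset.card_filter, Finset.sum_product]
  refine Finset.sum_congr rfl fun v _ => ?_
  rw [Finset.card_filter]

lemma card_R {T : Finset V} {v : V} (hv : v ∈ T) :
    (R G T v).card + (N G T v).card + 1 = T.card := by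
  have h1 : (T.erase v).card + 1 = T.card := Finset.card_erase_add_one hv
  have h2 : R G T v = (T.erase v).filter fun w => ¬ G.Adj v w := by
    ext w
    simp only [mem_R, mem_filter, mem_erase]
    tauto
  have h3 : N G T v = (T.erase v).filter fun w => G.Adj v w := by
    ext w
    simp only [mem_N, mem_filter, mem_erase]
    constructor
    · rintro ⟨h, h'⟩
      exact ⟨⟨fun e => G.loopless.irrefl v (e ▸ h'), h⟩, h'⟩
    · rintro ⟨⟨_, h⟩, h'⟩
      exact ⟨h, h'⟩
  have h4 := Finset.card_filter_add_card_filter_not (s := T.erase v) (fun w => G.Adj v w)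
  rw [h2, h3]
  omega

/-- the ordered adjacent pairs of `T` whose first element is in `A` -/
lemma card_fst (T A : Finset V) (hA : A ⊆ T) :
    (((T ×ˢ T).filter fun z => G.Adj z.1 z.2).filter fun z => z.1 ∈ A).card =
      ∑ w ∈ A, (N G T w).card := by
  rw [Finset.filter_filter]
  have : (T ×ˢ T).filter (fun z => G.Adj z.1 z.2 ∧ z.1 ∈ A) =
      (A ×ˢ T).filter (fun z => G.Adj z.1 z.2) := by
    ext ⟨x, y⟩
    simp only [mem_filter, mem_product]
    constructor
    · rintro ⟨⟨_, h2⟩, h3, h4⟩
      exact ⟨⟨h4, h2⟩, h3⟩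
    · rintro ⟨⟨h1, h2⟩, h3⟩
      exact ⟨⟨hA h1, h2⟩, h3, h1⟩
  rw [this, Finset.card_filter, Finset.sum_product]
  refine Finset.sum_congr rfl fun v _ => ?_
  unfold N
  rw [Finset.card_filter]

lemma card_snd (T A : Finset V) (hA : A ⊆ T) :
    (((T ×ˢ T).filter fun z => G.Adj z.1 z.2).filter fun z => z.2 ∈ A).card =
      ∑ w ∈ A, (N G T w).card := by
  rw [← card_fst T A hA]
  refine Finset.card_bij (fun z _ => (z.2, z.1)) ?_ ?_ ?_
  · rintro ⟨x, y⟩ h
    simp only [mem_filter, mem_product] at h ⊢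
    exact ⟨⟨⟨h.1.1.2, h.1.1.1⟩, h.1.2.symm⟩, h.2⟩
  · rintro ⟨x, y⟩ _ ⟨x', y'⟩ _ h
    simp only [Prod.mk.injEq] at h ⊢
    exact ⟨h.2, h.1⟩
  · rintro ⟨x, y⟩ h
    simp only [mem_filter, mem_product] at h
    refine ⟨(y, x), ?_, rfl⟩
    simp only [mem_filter, mem_product]
    exact ⟨⟨⟨h.1.1.2, h.1.1.1⟩, h.1.2.symm⟩, h.2⟩

lemma ed_R (hG : TF G) (T : Finset V) (v : V) :
    ed G (R G T v) + 2 * ∑ w ∈ N G T v, (N G T w).card ≤ ed G T := by
  have hA : N G T v ⊆ T := Finset.filter_subset _ _
  set P := (T ×ˢ T).filter fun z => G.Adj z.1 z.2 with hP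
  set X := P.filter fun z => z.1 ∈ N G T v with hX
  set Y := P.filter fun z => z.2 ∈ N G T v with hY
  have hXY : Disjoint X Y := by
    rw [Finset.disjoint_left]
    rintro ⟨x, y⟩ h h'
    simp only [hX, hY, hP, mem_filter, mem_product, mem_N] at h h'
    exact hG v x y h.2.2 h.1.2 h'.2.2
  have hR : Disjoint (X ∪ Y) (((R G T v) ×ˢ (R G T v)).filter fun z => G.Adj z.1 z.2) := by
    rw [Finset.disjoint_left]
    rintro ⟨x, y⟩ h h'
    simp only [hX, hY, hP, mem_union, mem_filter, mem_product, mem_N, mem_R] at h h'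
    rcases h with h | h
    · exact h'.1.1.2.2 h.2.2
    · exact h'.1.2.2.2 h.2.2
  have hsub : (X ∪ Y) ∪ (((R G T v) ×ˢ (R G T v)).filter fun z => G.Adj z.1 z.2) ⊆ P := by
    rintro ⟨x, y⟩ h
    simp only [hX, hY, hP, mem_union, mem_filter, mem_product, mem_N, mem_R] at h ⊢
    rcases h with (h | h) | h
    · exact h.1
    · exact h.1
    · exact ⟨⟨h.1.1.1, h.1.2.1⟩, h.2⟩
  have h1 := Finset.card_le_card hsub
  rw [Finset.card_union_of_disjoint hR, Finset.card_union_of_disjoint hXY] at h1
  have h2 : X.card = ∑ w ∈ N G T v, (N G T w).card := card_fst T _ hA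
  have h3 : Y.card = ∑ w ∈ N G T v, (N G T w).card := card_snd T _ hA
  have h4 : ed G (R G T v) =
      (((R G T v) ×ˢ (R G T v)).filter fun z => G.Adj z.1 z.2).card := rfl
  have h5 : ed G T = P.card := rfl
  omega

lemma sum_sum (T : Finset V) :
    ∑ v ∈ T, ∑ w ∈ N G T v, (N G T w).card = ∑ w ∈ T, (N G T w).card ^ 2 := by
  have h1 : ∀ v ∈ T, ∑ w ∈ N G T v, (N G T w).card =
      ∑ w ∈ T, if G.Adj v w then (N G T w).card else 0 := by
    intro v _
    unfold N
    rw [Finset.sum_filter]
  rw [Finset.sum_congr rfl h1, Finset.sum_comm]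
  refine Finset.sum_congr rfl fun w _ => ?_
  rw [← Finset.sum_filter, Finset.sum_const, smul_eq_mul, sq]
  congr 1
  unfold N
  congr 1
  ext v
  simp [G.adj_comm]

lemma core (h : SpecSHF) (hG : TF G) : ∀ (n : ℕ) (T : Finset V), T.card = n →
    ∃ I ⊆ T, Ind G I ∧ (T.card : ℝ) * sf ((ed G T : ℝ) / T.card) ≤ I.card := by
  intro n
  induction n using Nat.strong_induction_on with
  | _ n ih =>
    intro T hT
    by_cases he : ed G T = 0
    · refine ⟨T, Finset.Subset.refl _, ?_, ?_⟩
      · intro x hx y hy hxy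
        have : (x, y) ∈ (T ×ˢ T).filter fun z => G.Adj z.1 z.2 := by
          simp [hx, hy, hxy]
        unfold ed at he
        rw [Finset.card_eq_zero] at he
        rw [he] at this
        exact absurd this (Finset.notMem_empty _)
      · rw [he]
        simp [h.zero]
    -- the average degree
    have hT0 : T.Nonempty := by
      rw [Finset.nonempty_iff_ne_empty]
      rintro rfl
      exact he (by simp [ed])
    have hn : (0 : ℝ) < T.card := by exact_mod_cast hT0.card_pos
    set d : ℝ := (ed G T : ℝ) / T.card with hd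
    have hd0 : 0 < d := div_pos (by exact_mod_cast Nat.pos_of_ne_zero he) hn
    have hnd : (ed G T : ℝ) = T.card * d := by
      rw [hd]; field_simp
    set f := sf d with hf
    set g := sg d with hg
    have hg0 : 0 ≤ g := h.pos d hd0
    have hode := h.ode d hd0
    -- the bracket
    let D : V → ℝ := fun v => ((N G T v).card : ℝ)
    let S : V → ℝ := fun v => ∑ w ∈ N G T v, ((N G T w).card : ℝ)
    let b : V → ℝ := fun v => 1 - (1 + D v) * f - g * ((1 + D v) * d - 2 * S v)
    have hsD : ∑ v ∈ T, D v = T.card * d := by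
      rw [← hnd]
      simp only [D]
      exact_mod_cast sum_N (G := G) T
    have hsS : ∑ v ∈ T, S v = ∑ w ∈ T, D w ^ 2 := by
      simp only [D, S]
      exact_mod_cast sum_sum (G := G) T
    have hcs : (T.card : ℝ) * d ^ 2 ≤ ∑ w ∈ T, D w ^ 2 := by
      have h1 : (∑ w ∈ T, D w) ^ 2 ≤ T.card * ∑ w ∈ T, D w ^ 2 := sq_sum_le_card_mul_sum_sq
      rw [hsD] at h1
      have h2 : (T.card : ℝ) * ((T.card : ℝ) * d ^ 2) ≤ T.card * ∑ w ∈ T, D w ^ 2 := by
        nlinarith
      exact le_of_mul_le_mul_left h2 hn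
    have hsb : 0 ≤ ∑ v ∈ T, b v := by
      have h1 : ∑ v ∈ T, b v = T.card - (T.card + ∑ v ∈ T, D v) * f -
          g * ((T.card + ∑ v ∈ T, D v) * d - 2 * ∑ v ∈ T, S v) := by
        simp only [b]
        rw [Finset.sum_sub_distrib, Finset.sum_sub_distrib, ← Finset.mul_sum,
          Finset.sum_sub_distrib, ← Finset.sum_mul, ← Finset.sum_mul, ← Finset.mul_sum,
          Finset.sum_add_distrib]
        simp
      rw [h1, hsD, hsS]
      have h2 : g * ((T.card : ℝ) * d ^ 2) ≤ g * ∑ w ∈ T, D w ^ 2 :=
        mul_le_mul_of_nonneg_left hcs hg0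
      have h3 : (T.card : ℝ) * ((1 + d) * f - (d ^ 2 - d) * g) = T.card * 1 := by
        rw [hode]
      nlinarith
    obtain ⟨v, hv, hbv⟩ : ∃ v ∈ T, 0 ≤ b v := by
      by_contra hcon
      push Not at hcon
      have := Finset.sum_lt_sum_of_nonempty hT0 hcon
      simp at this
      linarith
    -- the induction hypothesis for the rest
    have hc := card_R (G := G) hv
    obtain ⟨I, hI, hInd, hcard⟩ := ih (R G T v).card (by omega) (R G T v) rfl
    have hvI : v ∉ I := fun hvI => (mem_R.1 (hI hvI)).2.1 rfl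
    refine ⟨insert v I, ?_, ?_, ?_⟩
    · intro x hx
      rw [Finset.mem_insert] at hx
      rcases hx with rfl | hx
      · exact hv
      · exact (mem_R.1 (hI hx)).1
    · intro x hx y hy hxy
      rw [Finset.mem_insert] at hx hy
      rcases hx with rfl | hx
      · rcases hy with rfl | hy
        · exact G.loopless.irrefl _ hxy
        · exact (mem_R.1 (hI hy)).2.2 hxy
      · rcases hy with rfl | hy
        · exact (mem_R.1 (hI hx)).2.2 hxy.symm
        · exact hInd x hx y hy hxy
    · rw [Finset.card_insert_of_notMem hvI]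
      push_cast
      have hcR : ((R G T v).card : ℝ) = T.card - 1 - D v := by
        have : ((R G T v).card : ℝ) + (N G T v).card + 1 = T.card := by exact_mod_cast hc
        simp only [D]
        linarith
      have heR : (ed G (R G T v) : ℝ) ≤ T.card * d - 2 * S v := by
        have h1 := ed_R hG T v
        have h2 : ((ed G (R G T v) : ℝ)) + 2 * S v ≤ ed G T := by
          simp only [S]
          exact_mod_cast h1
        rw [hnd] at h2
        linarith
      have key : ((R G T v).card : ℝ) * f - g * ((ed G (R G T v) : ℝ) - (R G T v).card * d) ≤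
          (R G T v).card * sf ((ed G (R G T v) : ℝ) / (R G T v).card) := by
        rcases Nat.eq_zero_or_pos (R G T v).card with h0 | h0
        · have h1 : R G T v = ∅ := Finset.card_eq_zero.1 h0
          have h2 : ed G (R G T v) = 0 := by
            rw [h1]; simp [ed]
          rw [h0, h2]
          simp
        · have h1 : (0 : ℝ) < (R G T v).card := by exact_mod_cast h0
          have h2 := h.tan d ((ed G (R G T v) : ℝ) / (R G T v).card) hd0
            (div_nonneg (Nat.cast_nonneg _) (Nat.cast_nonneg _))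
          have h3 := mul_le_mul_of_nonneg_left h2 h1.le
          have h5 : ((R G T v).card : ℝ) * ((ed G (R G T v) : ℝ) / (R G T v).card) =
              ed G (R G T v) := mul_div_cancel₀ _ h1.ne'
          have h4 : ((R G T v).card : ℝ) * (f - g * ((ed G (R G T v) : ℝ) / (R G T v).card - d))
              = (R G T v).card * f - g * ((ed G (R G T v) : ℝ) - (R G T v).card * d) := by
            linear_combination (-g) * h5
          rw [← h4]
          exact h3
      have h5 : g * (ed G (R G T v) : ℝ) ≤ g * (T.card * d - 2 * S v) :=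
        mul_le_mul_of_nonneg_left heR hg0
      have h6 : 0 ≤ 1 - (1 + D v) * f - g * ((1 + D v) * d - 2 * S v) := hbv
      rw [hcR] at key hcard
      have h7 : (T.card - 1 - D v) * sf ((ed G (R G T v) : ℝ) / (T.card - 1 - D v)) ≤ I.card :=
        hcard
      nlinarith

end SHEM

open SHEM

/-- Module SHE: the theorem of Shearer. -/
theorem specSHE (h : SpecSHF) : SpecSHE.{u} := by
  intro V _ G hG T d hd he
  obtain ⟨I, hI, hInd, hcard⟩ := core h hG T.card T rfl
  refine ⟨I, hI, hInd, le_trans ?_ hcard⟩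
  rcases Nat.eq_zero_or_pos T.card with h0 | h0
  · rw [h0]
    simp
  · have hn : (0 : ℝ) < T.card := by exact_mod_cast h0
    refine mul_le_mul_of_nonneg_left (h.low d _ hd (by positivity) ?_) hn.le
    rw [div_le_iff₀ hn]
    exact he

end Pool.Agent.Lib.MP8be6f6.AC
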