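import Pool.Agent.Lib.MP_8be6f6_co.AC.Spec

/-!
# MP_8be6f6_co, AC: module SHF.  The function of Shearer.
-/

set_option autoImplicit false

namespace Pool.Agent.Lib.MP8be6f6.AC

open MeasureTheory intervalIntegral

namespace SHFM

theorem den_pos {d t : ℝ} (hd : 0 < d) (h0 : 0 ≤ t) (h1 : t ≤ 1) : 0 < 1 - t + t * d := by
  rcases h0.eq_or_lt with rfl | h
  · norm_num
  · have := mul_pos h hd
    linarith

theorem cont_f {d : ℝ} (hd : 0 < d) :
    ContinuousOn (fun t : ℝ => (1 - t) / (1 - t + t * d)) (Set.uIcc 0 1) := by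
  apply ContinuousOn.div
  · fun_prop
  · fun_prop
  · intro t ht
    rw [Set.uIcc_of_le zero_le_one] at ht
    exact (den_pos hd ht.1 ht.2).ne'

theorem cont_g {d : ℝ} (hd : 0 < d) :
    ContinuousOn (fun t : ℝ => t * (1 - t) / (1 - t + t * d) ^ 2) (Set.uIcc 0 1) := by
  apply ContinuousOn.div
  · fun_prop
  · fun_prop
  · intro t ht
    rw [Set.uIcc_of_le zero_le_one] at ht
    exact (pow_pos (den_pos hd ht.1 ht.2) 2).ne'

theorem ode (d : ℝ) (hd : 0 < d) : (1 + d) * sf d - (d ^ 2 - d) * sg d = 1 := by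
  have h1 : ∫ t in (0 : ℝ)..1, ((1 + d) * ((1 - t) / (1 - t + t * d)) -
      (d ^ 2 - d) * (t * (1 - t) / (1 - t + t * d) ^ 2)) =
      (-(1 - (1 : ℝ)) ^ 2 / (1 - 1 + 1 * d)) - (-(1 - (0 : ℝ)) ^ 2 / (1 - 0 + 0 * d)) := by
    apply integral_eq_sub_of_hasDerivAt (f := fun t : ℝ => -(1 - t) ^ 2 / (1 - t + t * d))
    · intro t ht
      rw [Set.uIcc_of_le zero_le_one] at ht
      have hD := den_pos hd ht.1 ht.2
      have e1 : HasDerivAt (fun t : ℝ => -(1 - t) ^ 2) (2 * (1 - t)) t :=
        HasDerivAt.congr_deriv (f := fun t : ℝ => -(1 - t) ^ 2)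
          (((hasDerivAt_id' t).const_sub 1).pow 2).neg (by push_cast; ring)
      have e2 : HasDerivAt (fun t : ℝ => 1 - t + t * d) (-1 + d) t :=
        HasDerivAt.congr_deriv (f := fun t : ℝ => 1 - t + t * d)
          (((hasDerivAt_id' t).const_sub 1).add ((hasDerivAt_id' t).mul_const d)) (by ring)
      have e3 : HasDerivAt (fun t : ℝ => -(1 - t) ^ 2 / (1 - t + t * d))
          ((2 * (1 - t) * (1 - t + t * d) - -(1 - t) ^ 2 * (-1 + d)) / (1 - t + t * d) ^ 2) t :=
        e1.div e2 hD.ne'
      refine e3.congr_deriv ?_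
      field_simp
      ring
    · apply ContinuousOn.intervalIntegrable
      exact (continuousOn_const.mul (cont_f hd)).sub (continuousOn_const.mul (cont_g hd))
  rw [intervalIntegral.integral_sub ((cont_f hd).intervalIntegrable.const_mul _)
    ((cont_g hd).intervalIntegrable.const_mul _), intervalIntegral.integral_const_mul,
    intervalIntegral.integral_const_mul] at h1
  unfold sf sg
  rw [h1]
  norm_num

theorem zero : sf 0 = 1 := by
  unfold sf
  have h : ∫ t in (0 : ℝ)..1, (1 - t) / (1 - t + t * 0) = ∫ t in (0 : ℝ)..1, (1 : ℝ) := by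
    apply intervalIntegral.integral_congr_ae
    have h1 : ∀ᵐ t : ℝ, t ∉ ({1} : Set ℝ) := (Set.countable_singleton 1).ae_notMem volume
    filter_upwards [h1] with t ht _
    have h2 : (1 : ℝ) - t ≠ 0 := by
      intro h3
      apply ht
      show t = 1
      linarith
    rw [mul_zero, add_zero, div_self h2]
  rw [h]
  simp

theorem tan (d d' : ℝ) (hd : 0 < d) (hd' : 0 ≤ d') : sf d - sg d * (d' - d) ≤ sf d' := by
  have hi1 := (cont_f hd).intervalIntegrable (μ := volume)
  have hi2 := (cont_g hd).intervalIntegrable (μ := volume)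
  have h1 : sf d - sg d * (d' - d) = ∫ t in (0 : ℝ)..1, ((1 - t) / (1 - t + t * d) -
      t * (1 - t) / (1 - t + t * d) ^ 2 * (d' - d)) := by
    rw [intervalIntegral.integral_sub hi1 (hi2.mul_const _), intervalIntegral.integral_mul_const]
    rfl
  rw [h1]
  have hi3 : IntervalIntegrable (fun t : ℝ => (1 - t) / (1 - t + t * d) -
      t * (1 - t) / (1 - t + t * d) ^ 2 * (d' - d)) volume 0 1 := hi1.sub (hi2.mul_const _)
  rcases hd'.eq_or_lt with rfl | hd'
  · rw [zero]
    have h2 : (1 : ℝ) = ∫ t in (0 : ℝ)..1, (1 : ℝ) := by simp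
    conv_rhs => rw [h2]
    apply integral_mono_on zero_le_one hi3 intervalIntegrable_const
    intro t ht
    have hD := den_pos hd ht.1 ht.2
    have h3 : (1 - t) / (1 - t + t * d) - t * (1 - t) / (1 - t + t * d) ^ 2 * (0 - d) =
        1 - (t * d) ^ 2 / (1 - t + t * d) ^ 2 := by
      field_simp
      ring
    rw [h3]
    have : 0 ≤ (t * d) ^ 2 / (1 - t + t * d) ^ 2 := by positivity
    linarith
  · apply integral_mono_on zero_le_one hi3 (cont_f hd').intervalIntegrable
    intro t ht
    have hD := den_pos hd ht.1 ht.2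
    have hD' := den_pos hd' ht.1 ht.2
    have h3 : (1 - t) / (1 - t + t * d') - ((1 - t) / (1 - t + t * d) -
        t * (1 - t) / (1 - t + t * d) ^ 2 * (d' - d)) =
        (1 - t) * (t * (d' - d)) ^ 2 / ((1 - t + t * d') * (1 - t + t * d) ^ 2) := by
      field_simp
      ring
    have h4 : 0 ≤ (1 - t) * (t * (d' - d)) ^ 2 / ((1 - t + t * d') * (1 - t + t * d) ^ 2) := by
      have : 0 ≤ 1 - t := by linarith [ht.2]
      positivity
    linarith

theorem pos (d : ℝ) (hd : 0 < d) : 0 ≤ sg d := by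
  unfold sg
  apply integral_nonneg zero_le_one
  intro t ht
  have hD := den_pos hd ht.1 ht.2
  have : 0 ≤ 1 - t := by linarith [ht.2]
  have := ht.1
  positivity

theorem low_int (d : ℝ) (hd : 0 < d) :
    ∫ t in (0 : ℝ)..1, (1 - t) / (1 + t * d) = ((d + 1) * Real.log (1 + d) - d) / d ^ 2 := by
  have h1 : ∫ t in (0 : ℝ)..1, (1 - t) / (1 + t * d) =
      (-1 / d + (1 + 1 / d) * Real.log (1 + 1 * d) / d) -
        (-0 / d + (1 + 1 / d) * Real.log (1 + 0 * d) / d) := by
    apply integral_eq_sub_of_hasDerivAt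
      (f := fun t : ℝ => -t / d + (1 + 1 / d) * Real.log (1 + t * d) / d)
    · intro t ht
      rw [Set.uIcc_of_le zero_le_one] at ht
      have hD : 0 < 1 + t * d := by
        have := mul_nonneg ht.1 hd.le
        linarith
      have e1 : HasDerivAt (fun t : ℝ => -t / d) (-1 / d) t :=
        (hasDerivAt_id' t).neg.div_const d
      have e2 : HasDerivAt (fun t : ℝ => 1 + t * d) d t :=
        HasDerivAt.congr_deriv (f := fun t : ℝ => 1 + t * d)
          (((hasDerivAt_id' t).mul_const d).const_add 1) (by ring)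
      have e3 : HasDerivAt (fun t : ℝ => (1 + 1 / d) * Real.log (1 + t * d) / d)
          ((1 + 1 / d) * (d / (1 + t * d)) / d) t :=
        ((e2.log hD.ne').const_mul _).div_const d
      have e4 : HasDerivAt (fun t : ℝ => -t / d + (1 + 1 / d) * Real.log (1 + t * d) / d)
          (-1 / d + (1 + 1 / d) * (d / (1 + t * d)) / d) t := e1.add e3
      refine e4.congr_deriv ?_
      have hne : 1 + t * d ≠ 0 := hD.ne'
      have hdne : d ≠ 0 := hd.ne'
      have h2 : (1 + 1 / d) * (d / (1 + t * d)) / d = (d + 1) / (d * (1 + t * d)) := by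
        rw [div_eq_div_iff hdne (mul_ne_zero hdne hne)]
        rw [mul_div_assoc']
        rw [div_mul_eq_mul_div, div_eq_iff hne]
        field_simp
      rw [h2, div_add_div _ _ hdne (mul_ne_zero hdne hne), div_eq_div_iff
        (mul_ne_zero hdne (mul_ne_zero hdne hne)) hne]
      ring
    · apply ContinuousOn.intervalIntegrable
      apply ContinuousOn.div
      · fun_prop
      · fun_prop
      · intro t ht
        rw [Set.uIcc_of_le zero_le_one] at ht
        have := mul_nonneg ht.1 hd.le
        linarith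
  rw [h1]
  simp only [one_mul, zero_mul, add_zero, Real.log_one]
  field_simp
  ring

theorem low (d x : ℝ) (hd : 1 ≤ d) (hx : 0 ≤ x) (hxd : x ≤ d) : (Real.log d - 1) / d ≤ sf x := by
  have hd0 : 0 < d := by linarith
  rcases hx.eq_or_lt with rfl | hx
  · rw [zero, div_le_one hd0]
    have := Real.log_le_sub_one_of_pos hd0
    linarith
  have h1 : ∫ t in (0 : ℝ)..1, (1 - t) / (1 + t * d) ≤ sf x := by
    unfold sf
    apply integral_mono_on zero_le_one _ (cont_f hx).intervalIntegrable
    · intro t ht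
      have hD := den_pos hx ht.1 ht.2
      have h2 : 0 ≤ 1 - t := by linarith [ht.2]
      apply div_le_div_of_nonneg_left h2 hD
      have := mul_le_mul_of_nonneg_left hxd ht.1
      linarith [ht.1]
    · apply ContinuousOn.intervalIntegrable
      apply ContinuousOn.div
      · fun_prop
      · fun_prop
      · intro t ht
        rw [Set.uIcc_of_le zero_le_one] at ht
        have := mul_nonneg ht.1 hd0.le
        linarith
  rw [low_int d hd0] at h1
  refine le_trans ?_ h1
  rw [div_le_div_iff₀ hd0 (by positivity)]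
  have h3 : Real.log d ≤ Real.log (1 + d) := Real.log_le_log hd0 (by linarith)
  have h4 : 0 ≤ Real.log (1 + d) := Real.log_nonneg (by linarith)
  have h5 : d * Real.log d ≤ (d + 1) * Real.log (1 + d) := by nlinarith
  have h6 : (Real.log d - 1) * d ^ 2 = (d * Real.log d - d) * d := by ring
  rw [h6]
  exact mul_le_mul_of_nonneg_right (by linarith) hd0.le

end SHFM

theorem specSHF : SpecSHF := ⟨SHFM.ode, SHFM.tan, SHFM.pos, SHFM.low, SHFM.zero⟩

end Pool.Agent.Lib.MP8be6f6.AC
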