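import Pool.Agent.Lib.MP_8be6f6_co.AC.Spec

/-!
# MP_8be6f6_co, module SPC: from the spectral condition to the absence of dense spots
-/

set_option autoImplicit false

namespace Pool.Agent.Lib.MP8be6f6.AC

open Finset Classical

universe u

namespace SPCM

variable {Γ : Type u} [AddCommGroup Γ] [Fintype Γ]

lemma deg (G : SimpleGraph Γ) (hG : Inv G) (x : Γ) : (nb G x).card = (nb G 0).card := by
  symm
  refine Finset.card_bij (fun z _ => x + z) ?_ ?_ ?_
  · intro z hz
    simp only [nb, Finset.mem_filter, Finset.mem_univ, true_and] at hz ⊢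
    have h := (hG x 0 z).mpr hz
    rwa [add_zero] at h
  · intro z _ z' _ h
    exact add_left_cancel h
  · intro z hz
    simp only [nb, Finset.mem_filter, Finset.mem_univ, true_and] at hz
    refine ⟨z - x, ?_, by abel⟩
    simp only [nb, Finset.mem_filter, Finset.mem_univ, true_and]
    have h : G.Adj (x + 0) (x + (z - x)) := by
      have e : x + (z - x) = z := by abel
      rw [e, add_zero]
      exact hz
    exact (hG x 0 (z - x)).mp h

lemma rowsum (G : SimpleGraph Γ) (hG : Inv G) (x : Γ) :
    ∑ z : Γ, (if G.Adj x z then (1 : ℝ) else 0) = (nb G 0).card := by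
  rw [Finset.sum_boole, ← deg G hG x]
  rfl

lemma colsum (G : SimpleGraph Γ) (hG : Inv G) (z : Γ) :
    ∑ x : Γ, (if G.Adj x z then (1 : ℝ) else 0) = (nb G 0).card := by
  rw [← rowsum G hG z]
  refine Finset.sum_congr rfl fun x _ => ?_
  simp only [G.adj_comm]

omit [AddCommGroup Γ] in
lemma edsum (G : SimpleGraph Γ) (X : Finset Γ) :
    (ed G X : ℝ) = ∑ x : Γ, ∑ z : Γ, (if G.Adj x z then (1 : ℝ) else 0) *
      ((if x ∈ X then 1 else 0) * (if z ∈ X then 1 else 0)) := by
  unfold ed
  rw [Finset.card_filter, Nat.cast_sum, Finset.sum_product]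
  have h1 : ∀ x : Γ, ∑ z : Γ, (if G.Adj x z then (1 : ℝ) else 0) *
      ((if x ∈ X then 1 else 0) * (if z ∈ X then 1 else 0)) =
      if x ∈ X then ∑ z ∈ X, (if G.Adj x z then (1 : ℝ) else 0) else 0 := by
    intro x
    split_ifs with hx
    · rw [← Finset.sum_filter_add_sum_filter_not univ (fun z => z ∈ X)]
      rw [Finset.filter_mem_eq_inter, Finset.univ_inter]
      have e2 : ∑ z ∈ univ.filter (fun z => z ∉ X), (if G.Adj x z then (1 : ℝ) else 0) *
          (1 * (if z ∈ X then 1 else 0)) = 0 := by
        refine Finset.sum_eq_zero fun z hz => ?_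
        rw [Finset.mem_filter] at hz
        rw [if_neg hz.2]
        ring
      rw [e2, add_zero]
      refine Finset.sum_congr rfl fun z hz => ?_
      rw [if_pos hz]
      ring
    · refine Finset.sum_eq_zero fun z _ => ?_
      ring
  simp only [h1]
  rw [← Finset.sum_filter, Finset.filter_mem_eq_inter, Finset.univ_inter]
  refine Finset.sum_congr rfl fun x _ => ?_
  refine Finset.sum_congr rfl fun z _ => ?_
  push_cast
  rfl

end SPCM

open SPCM in
/-- The module SPC. -/
theorem specSPC : SpecSPC.{u} := by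
  intro Γ _ _ G hG l hl hl0 X
  have hN : (0 : ℝ) < Fintype.card Γ := by
    exact_mod_cast Fintype.card_pos_iff.mpr ⟨(0 : Γ)⟩
  set N : ℝ := (Fintype.card Γ : ℝ) with hNdef
  set D : ℝ := ((nb G 0).card : ℝ) with hD
  set n : ℝ := (X.card : ℝ) with hn
  set a : ℝ := n / N with ha
  have haN : a * N = n := by rw [ha]; field_simp
  have ha0 : 0 ≤ a := by rw [ha]; positivity
  have hn0 : 0 ≤ n := by rw [hn]; positivity
  let i : Γ → ℝ := fun x => if x ∈ X then 1 else 0
  have hisum : ∑ x, i x = n := by
    simp only [i]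
    rw [Finset.sum_boole, Finset.filter_mem_eq_inter, Finset.univ_inter]
  have hi2 : ∀ x, i x ^ 2 = i x := by
    intro x
    simp only [i]
    split_ifs <;> norm_num
  have hconst : ∑ _x : Γ, a = n := by
    rw [Finset.sum_const, nsmul_eq_mul, Finset.card_univ, mul_comm]
    exact haN
  have h0 : ∑ x, (i x - a) = 0 := by
    rw [Finset.sum_sub_distrib, hisum, hconst]
    ring
  have h1 := hl (fun x => i x - a) h0
  have hsq : ∑ x, (i x - a) ^ 2 ≤ n := by
    have e : ∀ x, (i x - a) ^ 2 = i x - 2 * a * i x + a * a := by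
      intro x
      have := hi2 x
      nlinarith
    simp only [e]
    rw [Finset.sum_add_distrib, Finset.sum_sub_distrib, ← Finset.mul_sum, hisum,
      Finset.sum_const, nsmul_eq_mul, Finset.card_univ]
    have : (Fintype.card Γ : ℝ) * (a * a) = a * n := by
      rw [← haN]; ring
    rw [this]
    nlinarith [mul_nonneg ha0 hn0]
  have hdouble : ∑ x, ∑ z ∈ nb G x, (i x - a) * (i z - a) = (ed G X : ℝ) - a * D * n := by
    have e1 : ∀ x, ∑ z ∈ nb G x, (i x - a) * (i z - a) =
        ∑ z : Γ, (if G.Adj x z then (1 : ℝ) else 0) * ((i x - a) * (i z - a)) := by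
      intro x
      unfold nb
      rw [Finset.sum_filter]
      refine Finset.sum_congr rfl fun z _ => ?_
      split_ifs <;> ring
    simp only [e1]
    have e2 : ∀ x z : Γ, (if G.Adj x z then (1 : ℝ) else 0) * ((i x - a) * (i z - a)) =
        (if G.Adj x z then (1 : ℝ) else 0) * (i x * i z) -
        a * i x * (if G.Adj x z then (1 : ℝ) else 0) -
        a * i z * (if G.Adj x z then (1 : ℝ) else 0) +
        a * a * (if G.Adj x z then (1 : ℝ) else 0) := by
      intro x z
      ring
    simp only [e2, Finset.sum_add_distrib, Finset.sum_sub_distrib]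
    have t1 : ∑ x : Γ, ∑ z : Γ, (if G.Adj x z then (1 : ℝ) else 0) * (i x * i z) = ed G X :=
      (edsum G X).symm
    have t2 : ∑ x : Γ, ∑ z : Γ, a * i x * (if G.Adj x z then (1 : ℝ) else 0) = a * D * n := by
      have : ∀ x : Γ, ∑ z : Γ, a * i x * (if G.Adj x z then (1 : ℝ) else 0) = a * D * i x := by
        intro x
        rw [← Finset.mul_sum, rowsum G hG x]
        ring
      simp only [this]
      rw [← Finset.mul_sum, hisum]
    have t3 : ∑ x : Γ, ∑ z : Γ, a * i z * (if G.Adj x z then (1 : ℝ) else 0) = a * D * n := by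
      rw [Finset.sum_comm]
      have : ∀ z : Γ, ∑ x : Γ, a * i z * (if G.Adj x z then (1 : ℝ) else 0) = a * D * i z := by
        intro z
        rw [← Finset.mul_sum, colsum G hG z]
        ring
      simp only [this]
      rw [← Finset.mul_sum, hisum]
    have t4 : ∑ x : Γ, ∑ z : Γ, a * a * (if G.Adj x z then (1 : ℝ) else 0) = a * D * n := by
      have : ∀ x : Γ, ∑ z : Γ, a * a * (if G.Adj x z then (1 : ℝ) else 0) = a * a * D := by
        intro x
        rw [← Finset.mul_sum, rowsum G hG x]
      simp only [this]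
      rw [Finset.sum_const, nsmul_eq_mul, Finset.card_univ, ← haN]
      ring
    rw [t1, t2, t3, t4]
    ring
  rw [hdouble] at h1
  have h2 : l * ∑ x, (i x - a) ^ 2 ≤ l * n := mul_le_mul_of_nonneg_left hsq hl0
  have h3 : a * D * n = D * n ^ 2 / N := by rw [ha]; ring
  linarith

end Pool.Agent.Lib.MP8be6f6.AC
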