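import Mathlib

/-!
# MP_8be6f6_co (asymptotics of R(3,k)): quasirandom abelian Cayley graphs.  Specification.

Captain helper77.  THEOREM.  Let `0 < y ≤ log 2`, `0 ≤ δ`, `0 < η`, `k` large.  A triangle-free Cayley graph on a finite
abelian group with `N` elements, of degree `D`, without independent sets of `k` vertices, and without dense spots
(`e(X) ≤ (1 + δ) D |X|² / N` for all `X` with `|X| ≥ N / k^y`, `e` = ordered adjacent pairs) has
`N ≤ ((1 + δ) (e^(-y) + y / 2) + η) k² / log k`.  (Shearer: `1 + o(1)`; `e^(-y) + y / 2 = 0.8466` for `y = log 2`.)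

Idea.  Common neighbours of `0` and `x` come in pairs `s`, `x - s`.  There are cells (a partition of the group into many
small parts) and a set `K` of size `N / polylog` such that for `x ∈ K` the two elements of (almost) every pair are in
the same cell.  Choose every cell with probability `q = 1 - e^(-y)`, `J` = the neighbours of `0` in the chosen
cells, `T` = the elements of `K` without neighbours in `J`: `|T|` is about `|K| (1 - q)^(c / 2)`, `c = D² / N` the mean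
codegree.  Shearer's bound in `T` (no dense spots) and `J` together are an independent set of size
`q D + (N / D) (log D - y D² / (2 N))`.

The module `XXX` is the file `Pool/Agent/Lib/MP_8be6f6_co/AC/XXX.lean`, namespace `Pool.Agent.Lib.MP8be6f6.AC`, it imports
this file and proves `theorem specXXX (h : SpecYYY) .. : SpecXXX`, the hypotheses are the modules named after
`from`, in this order (universe `u` explicit as here: `SpecXXX.{u}`).  Auxiliary lemmas: namespace `XXXM`.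
-/

set_option autoImplicit false

namespace Pool.Agent.Lib.MP8be6f6.AC

open Finset Classical

universe u

/-! ### definitions -/

/-- No triangles. -/
def TF {V : Type u} (G : SimpleGraph V) : Prop := ∀ x y z, G.Adj x y → G.Adj y z → ¬ G.Adj x z

/-- An independent set. -/
def Ind {V : Type u} (G : SimpleGraph V) (I : Finset V) : Prop := ∀ x ∈ I, ∀ y ∈ I, ¬ G.Adj x y

/-- The number of ordered pairs of adjacent elements of `X`. -/
noncomputable def ed {V : Type u} (G : SimpleGraph V) (X : Finset V) : ℕ :=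
  ((X ×ˢ X).filter fun z => G.Adj z.1 z.2).card

/-- The neighbours of `x`. -/
noncomputable def nb {V : Type u} [Fintype V] (G : SimpleGraph V) (x : V) : Finset V :=
  univ.filter fun z => G.Adj x z

/-- The common neighbours of `x` and `y`. -/
noncomputable def cn {V : Type u} [Fintype V] (G : SimpleGraph V) (x y : V) : Finset V :=
  univ.filter fun z => G.Adj x z ∧ G.Adj z y

/-- `G` is invariant under translations, that is, a Cayley graph. -/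
def Inv {Γ : Type u} [AddCommGroup Γ] (G : SimpleGraph Γ) : Prop :=
  ∀ g x y, G.Adj (g + x) (g + y) ↔ G.Adj x y

/-- The data of the pairing: a set `K` and a function `cell`. -/
structure Cell {Γ : Type u} [AddCommGroup Γ] [Fintype Γ] (G : SimpleGraph Γ) (m : ℕ)
    (K : Finset Γ) (cell : Γ → ℕ) : Prop where
  big : Fintype.card Γ ≤ m ^ 3 * K.card
  avg : 2 * (∑ x ∈ K, (((cn G 0 x).image cell).card : ℝ)) * (Fintype.card Γ : ℝ) ≤
    (1 + 6 / (m : ℝ)) * (((nb G 0).card : ℝ) ^ 2 + (nb G 0).card) * (K.card : ℝ)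
  thin : ∀ c : ℕ, ∃ X : Finset Γ, Fintype.card Γ ≤ m ^ 3 * X.card ∧ m * X.card ≤ 3 * Fintype.card Γ ∧
    ((nb G 0).filter fun s => cell s = c).card * X.card ≤ 6 * ed G X

/-! ### the modules -/

/-- ORB (120 lines).

PROOF.  `deg`: the translation `z ↦ x + z` is a bijection from `nb G 0` to `nb G x`.
`sum`: `∑_x |cn G 0 x|` is the number of pairs `(s, x)` with `s ∈ nb G 0`, `G.Adj s x`, which is
`∑_{s ∈ nb G 0} |nb G s| = |nb G 0| ²`.
`fix`: `(x, s)` with `s ∈ cn G 0 x`, `x - s = s` is determined by `s ∈ nb G 0` (`x = s + s`).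
`orb`: `s ↦ x - s` is an involution of `R = cn G 0 x` (`G.Adj 0 (x - s)` iff `G.Adj s x`, `G.Adj (x - s) x` iff
`G.Adj 0 s`, by translations).  For `c ∈ R.image cell` let `F_c = {s ∈ R | cell s = c}`: then
`2 ≤ |F_c| + |{s ∈ F_c | x - s = s}| + |{s ∈ F_c | cell (x - s) ≠ cell s}|`: there is `s ∈ F_c`; if it is in neither of the
last two sets, then `x - s ∈ F_c`, `x - s ≠ s`.  Sum over `c` (`Finset.card_eq_sum_card_image`). -/
structure SpecORB : Prop where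
  deg : ∀ (Γ : Type u) [AddCommGroup Γ] [Fintype Γ] (G : SimpleGraph Γ) (_ : Inv G) (x : Γ),
    (nb G x).card = (nb G 0).card
  sum : ∀ (Γ : Type u) [AddCommGroup Γ] [Fintype Γ] (G : SimpleGraph Γ) (_ : Inv G),
    ∑ x : Γ, (cn G 0 x).card = (nb G 0).card ^ 2
  fix : ∀ (Γ : Type u) [AddCommGroup Γ] [Fintype Γ] (G : SimpleGraph Γ) (_ : Inv G),
    ∑ x : Γ, ((cn G 0 x).filter fun s => x - s = s).card ≤ (nb G 0).card
  orb : ∀ (Γ : Type u) [AddCommGroup Γ] [Fintype Γ] (G : SimpleGraph Γ) (_ : Inv G)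
    (cell : Γ → ℕ) (x : Γ), 2 * ((cn G 0 x).image cell).card ≤ (cn G 0 x).card +
      ((cn G 0 x).filter fun s => x - s = s).card +
      ((cn G 0 x).filter fun s => cell (x - s) ≠ cell s).card

/-- DIC (80 lines).  The dichotomy.

PROOF.  Let `H` be a subgroup with index `≥ m` of minimal index (the trivial subgroup has index `|Γ| ≥ m`).
Suppose its index is `> m³`, `Q = Γ ⧸ H`.  For every subgroup `Q' ≠ ⊥` of `Q` the index of its preimage in `Γ` is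
`|Q| / |Q'| < |Q|`, so by minimality `|Q| / |Q'| < m`.  Let `p = minFac |Q|`, `x ∈ Q` an element of order `p` (Cauchy:
`exists_prime_addOrderOf_dvd_card`), `Q' = zmultiples x`: `|Q| / p < m`.  If `|Q| ≠ p` then `p ≤ |Q| / p`
(`Nat.minFac_sq_le_self` or similar), so `|Q| = p (|Q| / p) < m²`: contradiction.  So `|Q| = p` is prime. -/
def SpecDIC : Prop :=
  ∀ (Γ : Type u) [AddCommGroup Γ] [Fintype Γ] (m : ℕ) (_ : 2 ≤ m) (_ : m ≤ Fintype.card Γ),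
    ∃ H : AddSubgroup Γ, (m ≤ H.index ∧ H.index ≤ m ^ 3) ∨ (H.index.Prime ∧ m ^ 3 < H.index)

/-- CLA (150 lines, from ORB).  Cells from a subgroup of moderate index.

PROOF.  `Q = Γ ⧸ H`, `M = H.index = |Q|`, `π : Γ → Q`, `b : Q → ℕ` injective.  The sum over `g ∈ Q` of
`A(g) = ∑_{x : π x = g} (|cn G 0 x| + |{s ∈ cn G 0 x | x - s = s}|)` is at most `D² + D`, `D = |nb G 0|` (ORB); choose `g` with
`M A(g) ≤ D² + D`.  `K = {x | π x = g}`, `|K| M = |Γ|`.  `cell t = min (b (π t)) (b (g - π t))`.  For `x ∈ K`: `π (x - s) = g - π s`, so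
`cell (x - s) = cell s`, and ORB `orb` gives `2 ∑_{x ∈ K} |image| ≤ A(g)`: `avg` (even without `6 / m`).  `big`: `M ≤ m³`.
`thin`: for `c` the set `{s | cell s = c}` is contained in `{s | b (π s) = c} ∪ {s | b (g - π s) = c}`, and each of the two is
empty or a coset of `H` (`b` injective).  So there is a coset `π⁻¹(i)` with
`|{s ∈ nb G 0 | cell s = c}| ≤ 2 |nb G 0 ∩ π⁻¹(i)|`.  `X = H ∪ π⁻¹(i)`: `|H| ≤ |X| ≤ 2 |H|`; the pairs `(x, x + s)`, `x ∈ H`,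
`s ∈ nb G 0 ∩ π⁻¹(i)` are adjacent and in `X × X`: `|H| |nb G 0 ∩ π⁻¹(i)| ≤ ed G X`, so `|..| |X| ≤ 4 ed G X`. -/
def SpecCLA : Prop :=
  ∀ (Γ : Type u) [AddCommGroup Γ] [Fintype Γ] (G : SimpleGraph Γ) (_ : Inv G) (m : ℕ) (_ : 2 ≤ m)
    (H : AddSubgroup Γ) (_ : m ≤ H.index) (_ : H.index ≤ m ^ 3),
    ∃ (K : Finset Γ) (cell : Γ → ℕ), Cell G m K cell

/-- INT (120 lines).  Intervals in `ZMod p`.  `b o t = (t - o).val / w`.

PROOF.  `bad`: let `u = (t - o).val`; if `r ≤ u % w` then `r ≤ u`, `(t - r - o).val = u - r`, `(u - r) / w = u / w`.  So the `o` in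
the set have `u % w < r`; `o ↦ u` is injective with values in `[0, p)`, and at most `r (p / w + 1)` numbers
`u < p` have `u % w < r`.  `fib`: `(t - o).val / w = i` gives `(t - o).val = i w + v`, `v < w`, so `t = j + v`, `j = o + i w`.
`fib'`: `(g - t - o).val = i w + v`, `v < w`: `t = g - o - i w - v = j + (w - 1 - v)`, `j = g - o - i w - (w - 1)`. -/
structure SpecINT : Prop where
  bad : ∀ (p w r : ℕ) (_ : p.Prime) (_ : 0 < w) (_ : w ≤ p) (_ : r ≤ w) (t : ZMod p)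
    (O : Finset (ZMod p)) (_ : ∀ o ∈ O, (t - r - o).val / w ≠ (t - o).val / w),
    O.card ≤ r * (p / w + 1)
  fib : ∀ (p w : ℕ) (_ : p.Prime) (_ : 0 < w) (o : ZMod p) (i : ℕ), ∃ j : ZMod p, ∀ t : ZMod p,
    (t - o).val / w = i → ∃ v : ℕ, v < w ∧ t = j + v
  fib' : ∀ (p w : ℕ) (_ : p.Prime) (_ : 0 < w) (o g : ZMod p) (i : ℕ), ∃ j : ZMod p, ∀ t : ZMod p,
    (g - t - o).val / w = i → ∃ v : ℕ, v < w ∧ t = j + v

/-- CLB (250 lines, from ORB, INT).  Cells from a cyclic quotient of large prime order.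

PROOF.  `p = H.index > m³`, `Γ ⧸ H ≃+ ZMod p` (prime cardinality: `zmodAddEquivOfGenerator` or
`AddEquiv` of cyclic groups of the same order), `π : Γ →+ ZMod p` surjective, every fibre has `h = |Γ| / p` elements.
`w = p / m`, `l = w / m` (`m² ≤ w`, `m ≤ l`, `w ≤ p / m`, `p < 2 m w`, `w < 2 m l`).
For `g ∈ ZMod p` let `K_g = {x | ∃ r < l, π x = g + r}`, `|K_g| = l h`.  Every `x` is in exactly `l` of the sets `K_g`.  Let
`f x = |cn G 0 x| + |{s ∈ cn G 0 x | x - s = s}|`: `∑_g ∑_{x ∈ K_g} f x = l ∑ f ≤ l (D² + D)`, choose `g` with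
`p ∑_{x ∈ K_g} f x ≤ l (D² + D)`, `K = K_g`.  For `o ∈ ZMod p`: `b_o t = (t - o).val / w`, `cell_o y = min (b_o (π y)) (b_o (g - π y))`.
For `x ∈ K`, `π x = g + r`, `r < l`, `s ∈ cn G 0 x`, `t = π s`: `cell_o (x - s) = min (b_o (g - t + r)) (b_o (t - r))` (`g - π (x - s) = t - r`).
It is equal to `cell_o s` if `b_o (t - r) = b_o t` and `b_o (g - t + r) = b_o (g - t)`; by INT `bad` each of the two conditions
fails for at most `r (p / w + 1) ≤ l (2 m + 1) ≤ 3 m l ≤ 3 w` of the `o` (`p / w ≤ 2 m`; `m l ≤ w`), so both together for at most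
`6 w ≤ 6 p / m` of the `o`.  So `∑_o ∑_{x ∈ K} |bad_o x| ≤ (6 p / m) ∑_{x ∈ K} |cn G 0 x|`, choose `o` with
`∑_{x ∈ K} |bad_o x| ≤ (6 / m) ∑_{x ∈ K} |cn G 0 x|`, `cell = cell_o`.  ORB `orb`:
`2 ∑_{x ∈ K} |image| ≤ (1 + 6 / m) ∑_{x ∈ K} f x ≤ (1 + 6 / m) l (D² + D) / p`, and `|K| / |Γ| = l / p`: `avg`.
`big`: `|K| = l h`, `p < 2 m w < 4 m² l`, and `4 m² ≤ 2 m³`..: for `m ≥ 4` `4 m² ≤ m³`; that is why `4 ≤ m` is assumed.
`thin`: `{s ∈ nb G 0 | cell s = c}` is contained in the union of two sets `{s ∈ nb G 0 | ∃ v < w, π s = j + v}` (INT `fib`,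
`fib'`), take the `j` for which it is larger.  `X = A ∪ B`, `A = {x | ∃ v < w, π x = v}`, `B = {x | ∃ v < 2 w, π x = j + v}`: `|A| = w h`,
`|B| ≤ 2 w h`, the pairs `(x, x + s)`, `x ∈ A`, `s` in the set, are adjacent and in `X × X`: `w h |..| ≤ ed G X`;
`w h ≤ |X| ≤ 3 w h`.  `p ≤ 2 m w ≤ m³ w`; `m w ≤ p`. -/
def SpecCLB : Prop :=
  ∀ (Γ : Type u) [AddCommGroup Γ] [Fintype Γ] (G : SimpleGraph Γ) (_ : Inv G) (m : ℕ) (_ : 4 ≤ m)
    (H : AddSubgroup Γ) (_ : H.index.Prime) (_ : m ^ 3 < H.index),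
    ∃ (K : Finset Γ) (cell : Γ → ℕ), Cell G m K cell

/-- The function of Shearer. -/
noncomputable def sf (d : ℝ) : ℝ := ∫ t in (0 : ℝ)..1, (1 - t) / (1 - t + t * d)

/-- Minus its derivative. -/
noncomputable def sg (d : ℝ) : ℝ := ∫ t in (0 : ℝ)..1, t * (1 - t) / (1 - t + t * d) ^ 2

/-- SHF (150 lines).  The function.

PROOF.  For `d > 0` the denominators `1 - t + t d` are `≥ min 1 d > 0` on `[0, 1]`, everything is continuous.
`ode`: with `D = 1 - t + t d`: `(1 + d) (1 - t) / D - (d² - d) t (1 - t) / D² = d/dt (-(1 - t)² / D)` (both are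
`(1 - t) ((1 - t) (d + 1) + 2 t d) / D²`), so the integral is `0 - (-1) = 1`.
`tan`: `(1 - t) / D' ≥ (1 - t) / D - (d' - d) t (1 - t) / D²` for every `t ∈ [0, 1]`: for `D' > 0` this is
`1 / D' ≥ 1 / D - (D' - D) / D²`, i.e. `(D' - D)² ≥ 0`; `D' = 0` only if `d' = 0`, `t = 1`, both sides are `0`.  For `d' = 0` the
integrand of `sf 0` is `1` for `t < 1`.
`low`: for `d ≥ 1`, `0 ≤ x ≤ d`: `(1 - t) / (1 - t + t x) ≥ (1 - t) / (1 + t d)`, and
`∫ (1 - t) / (1 + t d) = ((d + 1) log (1 + d) - d) / d² ≥ (log d - 1) / d` (antiderivative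
`-t / d + (1 + 1 / d) log (1 + t d) / d`).  `pos`: the integrand is nonnegative.  `zero`: the integrand is `1` for `t < 1`. -/
structure SpecSHF : Prop where
  ode : ∀ d : ℝ, 0 < d → (1 + d) * sf d - (d ^ 2 - d) * sg d = 1
  tan : ∀ d d' : ℝ, 0 < d → 0 ≤ d' → sf d - sg d * (d' - d) ≤ sf d'
  pos : ∀ d : ℝ, 0 < d → 0 ≤ sg d
  low : ∀ d x : ℝ, 1 ≤ d → 0 ≤ x → x ≤ d → (Real.log d - 1) / d ≤ sf x
  zero : sf 0 = 1

/-- SHE (200 lines, from SHF).  The theorem of Shearer.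

PROOF.  By induction on `|T|` there is an independent `I ⊆ T` with `|T| f(ed T / |T|) ≤ |I|`, `f = sf`; then SHF `low`
(`x = ed T / |T|`).  `T = ∅`: trivial.  `ed T = 0`: `I = T`, `f 0 = 1`.  Otherwise `n = |T|`, `d = ed T / n > 0`, `g = sg d`, `d_v` = the
number of neighbours of `v` in `T`.  For `v ∈ T` let `N_v` be the set of its neighbours in `T`,
`T' = T \ ({v} ∪ N_v)`, `|T'| = n - 1 - d_v`, `ed T' = n d - 2 ∑_{w ∈ N_v} d_w` (`N_v` is independent: triangle-free; every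
neighbour of `v` is in `N_v`).  Only `≤` is needed: `T'` has the ordered pairs of `T` without an end in `N_v`.
`tan` times `|T'|`: `|T'| f(ed T' / |T'|) ≥ |T'| f(d) - g (ed T' - |T'| d)` (also for `T' = ∅`).  So with the set `I'` of `T'`
(induction) and `v`: `1 + |I'| ≥ n f(d) + [1 - (1 + d_v) f(d) - g ((1 + d_v) d - 2 ∑_{w ∈ N_v} d_w)]`.  The sum of the
bracket over `v ∈ T` is `n (1 - (1 + d) f(d) - g (d + d²)) + 2 g ∑_w d_w²` (`∑_v d_v = n d`, `∑_v ∑_{w ∈ N_v} d_w = ∑_w d_w²`)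
and `∑ d_w² ≥ n d²`, so it is `≥ n (1 - (1 + d) f(d) + (d² - d) g) = 0` (`ode`).  So there is `v` with a nonnegative
bracket. -/
def SpecSHE : Prop :=
  ∀ (V : Type u) [Fintype V] (G : SimpleGraph V) (_ : TF G) (T : Finset V) (d : ℝ) (_ : 1 ≤ d)
    (_ : (ed G T : ℝ) ≤ d * T.card),
    ∃ I ⊆ T, Ind G I ∧ (T.card : ℝ) * ((Real.log d - 1) / d) ≤ I.card

/-- BIA (200 lines).  A choice of cells.

PROOF.  `q = 1 - e^(-y) ∈ (0, 1)`.  For `C ⊆ U` let `P(C) = q^|C| (1 - q)^|U \ C|`, `∑_{C ⊆ U} P(C) = 1`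
(`Finset.prod_add`, `Finset.sum_pow_mul_eq_add_pow`).  `T_C = {x ∈ K | M x ∩ C = ∅}`, `J_C = ∑_{c ∈ C} a c`,
`w_x = (1 - q)^|M x| = e^(-y |M x|)`, `E = ∑_{x ∈ K} w_x`.  `∑_C P(C) [M x ∩ C = ∅] = w_x`,
`∑_C P(C) [M x ∩ C = ∅] J_C = q w_x ∑_{c ∈ U \ M x} a c ≥ q w_x (S - A |M x|)`, `S = ∑_{c ∈ U} a c` (each `c` is in `C` with probability `q`,
independently).  So `∑_C P(C) |T_C| J_C ≥ q ∑_x w_x (S - A |M x|) ≥ q (S - μ A) E` by Chebyshev's inequality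
(`w_x` is an antitone function of `|M x|`, `∑ |M x| ≤ μ |K|`; `Antivary` in Mathlib, or expand
`∑_{x, x'} (w_x - w_{x'}) (|M x| - |M x'|) ≤ 0`).  `E ≥ |K| e^(-y μ) = E₀` (Jensen for `exp`, or
`e^(-y a) ≥ e^(-y μ) (1 - y (a - μ))` summed).
Suppose every `C` with `θ E₀ ≤ |T_C|` has `J_C < j = q (S - μ A) - θ S`.  Let `E' = ∑ P(C) |T_C|` over these `C`.  The others
contribute at most `θ E₀ S ≤ θ E S` to `∑ P(C) |T_C| J_C`.  If `E' = 0` then `E < θ E₀ ≤ θ E`: contradiction (`E > 0`).  So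
`E' > 0`, `j > 0` (as `J_C ≥ 0`), `∑ P(C) |T_C| J_C < j E' + θ E S ≤ (j + θ S) E = q (S - μ A) E`: contradiction. -/
def SpecBIA : Prop :=
  ∀ (V : Type u) (K : Finset V) (_ : K.Nonempty) (M : V → Finset ℕ) (U : Finset ℕ)
    (_ : ∀ x ∈ K, M x ⊆ U) (a : ℕ → ℝ) (A μ y θ : ℝ) (_ : ∀ c, 0 ≤ a c) (_ : ∀ c, a c ≤ A)
    (_ : 0 < y) (_ : 0 < θ) (_ : θ < 1)
    (_ : ∑ x ∈ K, ((M x).card : ℝ) ≤ μ * K.card),
    ∃ C ⊆ U, θ * (K.card * Real.exp (-(y * μ))) ≤ ((K.filter fun x => Disjoint (M x) C).card : ℝ) ∧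
      (1 - Real.exp (-y)) * (∑ c ∈ U, a c - μ * A) - θ * ∑ c ∈ U, a c ≤ ∑ c ∈ C, a c

/-- The bound for the mean number of cells. -/
noncomputable def mu (N D κ m : ℝ) : ℝ := (1 + 6 / m) * (D ^ 2 + D) * κ / (2 * N * (κ - D))

/-- The expected size of `T`. -/
noncomputable def e0 (N D κ m y : ℝ) : ℝ := (κ - D) * Real.exp (-(y * mu N D κ m))

/-- ONE (250 lines, from SHE, BIA).  The main inequality.

PROOF.  `S = nb G 0`, `D = |S|`, `N = |Γ|`, `κ = |K|`.  `K' = K \ S`, `|K'| ≥ κ - D > 0`.  `M x = (cn G 0 x).image cell ⊆ U = S.image cell`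
(`cn G 0 x ⊆ S`), `a c = |{s ∈ S | cell s = c}|`, `∑_{c ∈ U} a c = D`.  `a c ≤ A = 18 (1 + δ) D / m`: by `thin` `a c |X| ≤ 6 ed G X`
`≤ 6 (1 + δ) D |X|² / N` (`N ≤ m³ |X| ≤ k^y |X|`), `|X| > 0`, so `a c ≤ 6 (1 + δ) D |X| / N ≤ 18 (1 + δ) D / m`.
`∑_{x ∈ K'} |M x| ≤ ∑_{x ∈ K} |M x| ≤ mu · (κ - D) ≤ mu · |K'|` (`avg`).  BIA (for `K'`, `θ`): `C`.  `T = {x ∈ K' | M x ∩ C = ∅}`,
`J = {s ∈ S | cell s ∈ C}`, `|J| = ∑_{c ∈ C} a c`, `|T| ≥ θ |K'| e^(-y mu) ≥ θ e0`.  `N ≤ k^y |T|`, so with `ρ = (1 + δ) D / N`, `d = ρ |T|`: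
`ed G T ≤ d |T|`, `d ≥ ρ θ e0 ≥ 1`, SHE: `I ⊆ T` independent, `|I| ≥ |T| (log d - 1) / d = (log d - 1) / ρ`
`≥ (log (ρ θ e0) - 1) / ρ`.  `J ∪ I` is independent: `J ⊆ S = nb G 0` is independent (`TF`); if `s ∈ J`, `x ∈ I` are adjacent then
`s ∈ cn G 0 x`, `cell s ∈ M x ∩ C`: contradiction.  `J`, `I` are disjoint (`J ⊆ S`, `I ⊆ K \ S`).  So `|J| + |I| < k`. -/
def SpecONE : Prop :=
  ∀ (Γ : Type u) [AddCommGroup Γ] [Fintype Γ] (G : SimpleGraph Γ) (_ : TF G) (k m : ℕ)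
    (_ : 2 ≤ m) (y δ θ : ℝ) (_ : 0 < y) (_ : 0 ≤ δ) (_ : 0 < θ) (_ : θ < 1)
    (_ : ∀ I : Finset Γ, Ind G I → I.card < k) (K : Finset Γ) (cell : Γ → ℕ)
    (_ : Cell G m K cell) (_ : 0 < (nb G 0).card) (_ : ((nb G 0).card : ℝ) < K.card)
    (_ : ((m : ℝ)) ^ 3 ≤ (k : ℝ) ^ y)
    (_ : ∀ X : Finset Γ, (Fintype.card Γ : ℝ) ≤ (k : ℝ) ^ y * X.card →
      (ed G X : ℝ) ≤ (1 + δ) * (nb G 0).card * (X.card : ℝ) ^ 2 / Fintype.card Γ)
    (_ : (Fintype.card Γ : ℝ) ≤ (k : ℝ) ^ y *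
      (θ * e0 (Fintype.card Γ) (nb G 0).card K.card m y))
    (_ : 1 ≤ (1 + δ) * (nb G 0).card / Fintype.card Γ *
      (θ * e0 (Fintype.card Γ) (nb G 0).card K.card m y)),
    (1 - Real.exp (-y)) * ((nb G 0).card - mu (Fintype.card Γ) (nb G 0).card K.card m *
        (18 * (1 + δ) * (nb G 0).card / m)) - θ * (nb G 0).card +
      (Fintype.card Γ : ℝ) / ((1 + δ) * (nb G 0).card) *
        (Real.log ((1 + δ) * (nb G 0).card / Fintype.card Γ *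
          (θ * e0 (Fintype.card Γ) (nb G 0).card K.card m y)) - 1) < k

/-- The constant. -/
noncomputable def cc (y δ η : ℝ) : ℝ := (1 + δ) * (Real.exp (-y) + y / 2) + η

/-- The number `m` for `k`. -/
noncomputable def mm (k : ℕ) : ℕ := ⌈Real.log k ^ 2⌉₊

/-- The simple statements about large real numbers. -/
structure BigA (y δ η : ℝ) (k : ℕ) : Prop where
  log2 : 2 ≤ Real.log k
  m4 : 4 ≤ mm k
  mky : ((mm k : ℕ) : ℝ) ^ 3 ≤ (k : ℝ) ^ y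
  mN : ∀ N : ℝ, cc y δ η * k ^ 2 / Real.log k < N → ((mm k : ℕ) : ℝ) ≤ N
  up : ∀ N : ℝ, 0 ≤ N → N * ((Real.log k - 1) / k) ≤ k → N ≤ 2 * k ^ 2 / Real.log k
  half : ∀ N : ℝ, 0 ≤ N → N * ((Real.log ((k : ℝ) / 2) - 1) / ((k : ℝ) / 2)) ≤ k →
    N ≤ cc y δ η * k ^ 2 / Real.log k

/-- ASA (150 lines).  Real analysis, first part.

PROOF.  `L = log k → ∞`, `m = mm k ∈ [L², L² + 1]`, `C = cc y δ η ≥ e^(-y) + y / 2 ≥ 1 - y / 2 ≥ 1 - 0.35 > 0.6`.  `mky`: `(2 L²)³ = 8 L⁶ ≤ e^(y L)`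
for large `L`.  `mN`: `2 L² ≤ 0.6 k² / L`.  `up`: `N ≤ k² / (L - 1)`.  `half`: `N ≤ k² / (2 (L - log 2 - 1)) ≤ 0.6 k² / L`. -/
def SpecASA : Prop :=
  ∀ y δ η : ℝ, 0 < y → y ≤ Real.log 2 → 0 ≤ δ → 0 < η → ∃ k₀ : ℕ, ∀ k : ℕ, k₀ ≤ k → BigA y δ η k

/-- The main statement about large real numbers. -/
def BigB (y δ η : ℝ) (k : ℕ) : Prop :=
  ∀ N D κ : ℝ, (k : ℝ) / 2 ≤ D → D ≤ k → cc y δ η * k ^ 2 / Real.log k < N →
    N ≤ 2 * k ^ 2 / Real.log k → N ≤ ((mm k : ℕ) : ℝ) ^ 3 * κ → κ ≤ N →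
    D < κ ∧ N ≤ (k : ℝ) ^ y * (1 / Real.log k * e0 N D κ (mm k) y) ∧
    1 ≤ (1 + δ) * D / N * (1 / Real.log k * e0 N D κ (mm k) y) ∧
    (k : ℝ) ≤ (1 - Real.exp (-y)) * (D - mu N D κ (mm k) * (18 * (1 + δ) * D / (mm k))) -
      1 / Real.log k * D + N / ((1 + δ) * D) *
        (Real.log ((1 + δ) * D / N * (1 / Real.log k * e0 N D κ (mm k) y)) - 1)

/-- ASB (300 lines).  Real analysis, second part.

PROOF.  `L = log k → ∞`, `m = mm k ∈ [L², L² + 1] ⊆ [L², 2 L²]`, `C = cc y δ η ≥ e^(-y) + y / 2 ≥ 1 - y / 2 ≥ 1 - 0.35 > 0.6`.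
`κ ≥ N / m³ ≥ 0.6 k² / (8 L⁷)`, so `D / κ ≤ 14 L⁷ / k =: e₁ → 0`, `D < κ`; `D² / N ≤ k² L / (0.6 k²) ≤ 2 L`.
`mu = (1 + 6 / m) (1 + 1 / D) (D² / (2 N)) / (1 - D / κ) ≤ (1 + e₂) D² / (2 N)`, `e₂ = e₂(k)` with `L e₂ → 0` (`e₂` of order
`1 / L²`: `6 / m ≤ 6 / L²`, `1 / D ≤ 2 / k`, `1 / (1 - D / κ) ≤ 1 + 2 e₁`), so `mu ≤ D² / (2 N) + L e₂` and `mu ≤ 2 L`.
`D² / (2 N) ≤ L / 1.2`.  `e0 ≥ (κ / 2) e^(-y mu) ≥ (N / (16 L⁶)) e^(-y mu)`.
(second) `k^y e0 / (L N) ≥ e^(y L - y L / 1.2 - y L e₂) / (16 L⁷) ≥ 1` for large `k` (`y > 0` is fixed).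
(third) `D / N · e0 / L ≥ (k / 2) e^(-y mu) / (16 L⁷)`, `y mu ≤ 0.7 (L / 1.2 + L e₂) ≤ 0.6 L`, `k = e^L`.
(fourth) `log (..) ≥ log D - log L - log (16 L⁶) - y mu ≥ L - log 2 - 7 log L - log 16 - y D² / (2 N) - y L e₂`, so with
`N / ((1 + δ) D) ≤ 4 k / L` the last term is at least `N L / ((1 + δ) D) - y D / (2 (1 + δ)) - e₃ k`,
`e₃ = (4 / L) (7 log L + 5 + L e₂) → 0`.  `mu · 18 (1 + δ) D / m ≤ 2 L · 18 (1 + δ) k / L² = 36 (1 + δ) k / L`.
So the right side is at least `(1 - e^(-y) - y / 2) D + N L / ((1 + δ) D) - e₄ k`, `e₄ = e₃ + (36 (1 + δ) + 1) / L → 0`.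
Let `g = 1 - e^(-y) - y / 2 < 1/2`, `N L ≥ C k²`, `D = a k`, `0 < a ≤ 1`: `g a + C / ((1 + δ) a) ≥ g + C / (1 + δ)` (the difference is
`(1 - a) (C / ((1 + δ) a) - g) ≥ 0`), which is `g + (e^(-y) + y / 2) + η / (1 + δ) = 1 + η / (1 + δ)`.  So `e₄ ≤ η / (1 + δ)` is
enough. -/
def SpecASB : Prop :=
  ∀ y δ η : ℝ, 0 < y → y ≤ Real.log 2 → 0 ≤ δ → 0 < η → ∃ k₀ : ℕ, ∀ k : ℕ, k₀ ≤ k → BigB y δ η k

/-- The theorem.  First part: Cayley graphs without dense spots; second part: the same for a spectral condition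
(all non-trivial eigenvalues are at most `k ^ (1 - y - η)`). -/
def Main : Prop :=
  ∀ y η : ℝ, 0 < y → y ≤ Real.log 2 → 0 < η →
    (∀ δ : ℝ, 0 ≤ δ → ∃ k₀ : ℕ, ∀ k : ℕ, k₀ ≤ k →
      ∀ (Γ : Type u) [AddCommGroup Γ] [Fintype Γ] (G : SimpleGraph Γ) (_ : Inv G) (_ : TF G)
        (_ : ∀ I : Finset Γ, Ind G I → I.card < k)
        (_ : ∀ X : Finset Γ, (Fintype.card Γ : ℝ) ≤ (k : ℝ) ^ y * X.card →
          (ed G X : ℝ) ≤ (1 + δ) * (nb G 0).card * (X.card : ℝ) ^ 2 / Fintype.card Γ),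
        (Fintype.card Γ : ℝ) ≤
          ((1 + δ) * (Real.exp (-y) + y / 2) + η) * ((k : ℝ) ^ 2 / Real.log k)) ∧
    ∃ k₀ : ℕ, ∀ k : ℕ, k₀ ≤ k →
      ∀ (Γ : Type u) [AddCommGroup Γ] [Fintype Γ] (G : SimpleGraph Γ) (_ : Inv G) (_ : TF G)
        (_ : ∀ I : Finset Γ, Ind G I → I.card < k)
        (_ : ∀ f : Γ → ℝ, ∑ x, f x = 0 → ∑ x, ∑ z ∈ nb G x, f x * f z ≤
          (k : ℝ) ^ (1 - y - η) * ∑ x, f x ^ 2),
        (Fintype.card Γ : ℝ) ≤ (Real.exp (-y) + y / 2 + η) * ((k : ℝ) ^ 2 / Real.log k)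

/-- SPC (100 lines).  From the spectral condition to the absence of dense spots.

PROOF.  `f = 1_X - |X| / N`: `∑ f = 0`, `∑ f² = |X| - |X|² / N ≤ |X|`, and `∑_x ∑_{z ∈ nb x} f x f z = ed G X - 2 (|X| / N) D |X| + (|X| / N)² N D`
`= ed G X - D |X|² / N` (every vertex has degree `D`, ORB `deg`; `nb` is symmetric). -/
def SpecSPC : Prop :=
  ∀ (Γ : Type u) [AddCommGroup Γ] [Fintype Γ] (G : SimpleGraph Γ) (_ : Inv G) (l : ℝ)
    (_ : ∀ f : Γ → ℝ, ∑ x, f x = 0 → ∑ x, ∑ z ∈ nb G x, f x * f z ≤ l * ∑ x, f x ^ 2)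
    (_ : 0 ≤ l) (X : Finset Γ),
    (ed G X : ℝ) ≤ (nb G 0).card * (X.card : ℝ) ^ 2 / Fintype.card Γ + l * X.card

/-- FIN (200 lines, from ORB, DIC, CLA, CLB, SHE, ONE, ASA, ASB, SPC).

PROOF.  First part: `k₀` from ASA (`BigA`) and ASB (`BigB`).  Suppose `N > cc · k² / log k`.  `D = |nb G 0| < k` (`nb G 0` is independent).  SHE for `univ`
(`ed G univ = N D`, ORB `deg`) with `d = k`: `N (log k - 1) / k ≤ |I| ≤ k`, so `N ≤ 2 k² / log k` (`up`).  `k / 2 ≤ D`: otherwise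
SHE with `d = k / 2` and `half`.  `m = mm k ≤ N` (`mN`), DIC, CLA, CLB: `Cell G m K cell`.  `BigB` for `N`, `D`, `κ = |K|` (`big`,
`κ ≤ N`) gives all the hypotheses of ONE (`θ = 1 / log k`), and its last statement contradicts ONE.
Second part: the first part with `η / 2` and `δ` such that `δ (e^(-y) + y / 2) ≤ η / 2` (`δ = η / 4`).  If `N` is larger than the bound, then
(as in the first part) `k / 2 ≤ D`, and SPC: for `N ≤ k^y |X|`: `k^(1 - y - η) |X| ≤ δ D |X|² / N` since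
`D |X| / N ≥ (k / 2) k^(-y)` and `k^(-η) ≤ δ / 2` for large `k`.  So the hypothesis of the first part holds. -/
def SpecFIN : Prop := Main.{u}

end Pool.Agent.Lib.MP8be6f6.AC
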