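import Pool.Agent.Lib.MP_8be6f6_co.AC.ONE
import Pool.Agent.Lib.MP_8be6f6_co.AC.ASB
import Pool.Agent.Lib.MP_8be6f6_co.AC.FIN

/-!
# MP_8be6f6_co: version 2, the scale of the hypothesis separated from `y` (remark of helper90)

The set `T` has about `N k^(-y D² / (2 N log k))` elements, and `D² / (2 N) < log k / (2 C)` for
`N > C k² / log k`.  So dense spots have to be excluded only for sets of at least `N / k^t` elements,
`t > y / (2 e^(-y) + y)`.
-/

set_option autoImplicit false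

namespace Pool.Agent.Lib.MP8be6f6.AC.V2

open Finset Classical Pool.Agent.Lib.MP8be6f6.AC

universe u

/-- The main inequality, with the scale `t` of the hypothesis separated from `y`. -/
theorem one2 (hSHE : SpecSHE.{u}) (hBIA : SpecBIA.{u})
    (Γ : Type u) [AddCommGroup Γ] [Fintype Γ] (G : SimpleGraph Γ) (hT : TF G) (k m : ℕ)
    (hm : 2 ≤ m) (y t δ θ : ℝ) (hy : 0 < y) (hδ : 0 ≤ δ) (hθ : 0 < θ) (hθ1 : θ < 1)
    (hind : ∀ I : Finset Γ, Ind G I → I.card < k) (K : Finset Γ) (cell : Γ → ℕ)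
    (hC : Cell G m K cell) (hD : 0 < (nb G 0).card) (hDK : ((nb G 0).card : ℝ) < K.card)
    (hmk : ((m : ℝ)) ^ 3 ≤ (k : ℝ) ^ t)
    (hsp : ∀ X : Finset Γ, (Fintype.card Γ : ℝ) ≤ (k : ℝ) ^ t * X.card →
      (ed G X : ℝ) ≤ (1 + δ) * (nb G 0).card * (X.card : ℝ) ^ 2 / Fintype.card Γ)
    (hN1 : (Fintype.card Γ : ℝ) ≤ (k : ℝ) ^ t *
      (θ * e0 (Fintype.card Γ) (nb G 0).card K.card m y))
    (hone : 1 ≤ (1 + δ) * (nb G 0).card / Fintype.card Γ *
      (θ * e0 (Fintype.card Γ) (nb G 0).card K.card m y)) :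
    (1 - Real.exp (-y)) * ((nb G 0).card - mu (Fintype.card Γ) (nb G 0).card K.card m *
        (18 * (1 + δ) * (nb G 0).card / m)) - θ * (nb G 0).card +
      (Fintype.card Γ : ℝ) / ((1 + δ) * (nb G 0).card) *
        (Real.log ((1 + δ) * (nb G 0).card / Fintype.card Γ *
          (θ * e0 (Fintype.card Γ) (nb G 0).card K.card m y)) - 1) < k := by
  have hN : 0 < Fintype.card Γ := Fintype.card_pos
  have hNr : (0 : ℝ) < (Fintype.card Γ : ℝ) := by exact_mod_cast hN
  have hmr : (0 : ℝ) < (m : ℝ) := by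
    have : 0 < m := by omega
    exact_mod_cast this
  have hDr : (0 : ℝ) < ((nb G 0).card : ℝ) := by exact_mod_cast hD
  have hκD : (0 : ℝ) < (K.card : ℝ) - (nb G 0).card := by linarith
  have hκ : (0 : ℝ) < (K.card : ℝ) := by linarith
  -- the set K minus S
  have hK' : (K.card : ℝ) - (nb G 0).card ≤ ((K \ nb G 0).card : ℝ) := by
    have h := Finset.card_le_card_sdiff_add_card (s := K) (t := nb G 0)
    have h2 : (K.card : ℝ) ≤ ((K \ nb G 0).card : ℝ) + (nb G 0).card := by exact_mod_cast h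
    linarith
  have hK'ne : (K \ nb G 0).Nonempty := by
    rw [← Finset.card_pos]
    have : (0 : ℝ) < ((K \ nb G 0).card : ℝ) := lt_of_lt_of_le hκD hK'
    exact_mod_cast this
  set μ : ℝ := mu (Fintype.card Γ) (nb G 0).card K.card m with hμ
  have hμ0 : 0 ≤ μ := by
    rw [hμ, mu]
    have h1 : (0 : ℝ) < 1 + 6 / (m : ℝ) := by positivity
    positivity
  have hμeq : μ * ((K.card : ℝ) - (nb G 0).card) * (2 * (Fintype.card Γ : ℝ)) =
      (1 + 6 / (m : ℝ)) * (((nb G 0).card : ℝ) ^ 2 + (nb G 0).card) * (K.card : ℝ) := by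
    rw [hμ, mu]
    field_simp
  -- the images
  have hMU : ∀ x ∈ K \ nb G 0, (cn G 0 x).image cell ⊆ (nb G 0).image cell := fun x _ =>
    Finset.image_subset_image (ONEM.cn_sub G 0 x)
  have hsum : ∑ x ∈ K \ nb G 0, ((((cn G 0 x).image cell).card : ℕ) : ℝ) ≤ μ * (K \ nb G 0).card := by
    have h1 : ∑ x ∈ K \ nb G 0, ((((cn G 0 x).image cell).card : ℕ) : ℝ) ≤
        ∑ x ∈ K, ((((cn G 0 x).image cell).card : ℕ) : ℝ) :=
      Finset.sum_le_sum_of_subset_of_nonneg Finset.sdiff_subset (fun _ _ _ => Nat.cast_nonneg _)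
    have h2 := hC.avg
    have h3 : ∑ x ∈ K, ((((cn G 0 x).image cell).card : ℕ) : ℝ) ≤
        μ * ((K.card : ℝ) - (nb G 0).card) := by
      rw [← hμeq] at h2
      have h4 : (∑ x ∈ K, ((((cn G 0 x).image cell).card : ℕ) : ℝ)) * (2 * (Fintype.card Γ : ℝ)) ≤
          μ * ((K.card : ℝ) - (nb G 0).card) * (2 * (Fintype.card Γ : ℝ)) := by
        calc _ = 2 * (∑ x ∈ K, ((((cn G 0 x).image cell).card : ℕ) : ℝ)) * (Fintype.card Γ : ℝ) := by
              ring
          _ ≤ _ := h2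
      exact le_of_mul_le_mul_right h4 (by positivity)
    exact h1.trans (h3.trans (mul_le_mul_of_nonneg_left hK' hμ0))
  obtain ⟨C, hCU, hTc, hJc⟩ := hBIA Γ (K \ nb G 0) hK'ne (fun x => (cn G 0 x).image cell)
    ((nb G 0).image cell) hMU
    (fun c => ((((nb G 0).filter fun s => cell s = c).card : ℕ) : ℝ))
    (18 * (1 + δ) * (nb G 0).card / m) μ y θ (fun c => Nat.cast_nonneg _)
    (fun c => ONEM.cell_bound G k m hm t δ hδ K cell hC hmk hsp c) hy hθ hθ1 hsum
  have hU : ∑ c ∈ (nb G 0).image cell, ((((nb G 0).filter fun s => cell s = c).card : ℕ) : ℝ) =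
      ((nb G 0).card : ℝ) := by
    have h := Finset.card_eq_sum_card_image cell (nb G 0)
    rw [h]
    push_cast
    rfl
  rw [hU] at hJc
  set J : Finset Γ := (nb G 0).filter fun s => cell s ∈ C with hJ
  have hJcard : ∑ c ∈ C, ((((nb G 0).filter fun s => cell s = c).card : ℕ) : ℝ) = (J.card : ℝ) := by
    have h := Finset.card_eq_sum_card_fiberwise (f := cell) (s := J) (t := C) (by
      intro s hs
      have hs2 : s ∈ J := hs
      rw [hJ, mem_filter] at hs2
      exact hs2.2)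
    rw [h]
    push_cast
    refine Finset.sum_congr rfl fun c hc => ?_
    congr 2
    ext s
    simp only [hJ, mem_filter]
    constructor
    · rintro ⟨h1, h2⟩
      exact ⟨⟨h1, by rw [h2]; exact hc⟩, h2⟩
    · rintro ⟨⟨h1, _⟩, h2⟩
      exact ⟨h1, h2⟩
  rw [hJcard] at hJc
  set T : Finset Γ := (K \ nb G 0).filter fun x => Disjoint ((cn G 0 x).image cell) C with hTdef
  have hE0 : θ * e0 (Fintype.card Γ) (nb G 0).card K.card m y ≤ (T.card : ℝ) := by
    refine le_trans ?_ hTc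
    refine mul_le_mul_of_nonneg_left ?_ hθ.le
    rw [e0, ← hμ]
    exact mul_le_mul_of_nonneg_right hK' (Real.exp_pos _).le
  set E : ℝ := θ * e0 (Fintype.card Γ) (nb G 0).card K.card m y with hE
  have hEpos : 0 < E := by
    rw [hE, e0]
    exact mul_pos hθ (mul_pos hκD (Real.exp_pos _))
  have hTpos : (0 : ℝ) < (T.card : ℝ) := lt_of_lt_of_le hEpos hE0
  have hky : (0 : ℝ) ≤ (k : ℝ) ^ t := Real.rpow_nonneg (Nat.cast_nonneg _) _
  have hNT : (Fintype.card Γ : ℝ) ≤ (k : ℝ) ^ t * T.card :=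
    hN1.trans (mul_le_mul_of_nonneg_left hE0 hky)
  have hed := hsp T hNT
  set ρ : ℝ := (1 + δ) * (nb G 0).card / Fintype.card Γ with hρ
  have hρpos : 0 < ρ := by rw [hρ]; positivity
  have hd1 : 1 ≤ ρ * T.card := hone.trans (mul_le_mul_of_nonneg_left hE0 hρpos.le)
  obtain ⟨I, hIT, hII, hIc⟩ := hSHE Γ G hT T (ρ * T.card) hd1 (by
    refine hed.trans (le_of_eq ?_)
    rw [hρ]
    ring)
  have hIc2 : (Real.log (ρ * E) - 1) / ρ ≤ (I.card : ℝ) := by
    refine le_trans ?_ hIc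
    have h1 : (T.card : ℝ) * ((Real.log (ρ * T.card) - 1) / (ρ * T.card)) =
        (Real.log (ρ * T.card) - 1) / ρ := by
      field_simp
    rw [h1]
    refine div_le_div_of_nonneg_right ?_ hρpos.le
    have h2 : Real.log (ρ * E) ≤ Real.log (ρ * T.card) :=
      Real.log_le_log (mul_pos hρpos hEpos) (mul_le_mul_of_nonneg_left hE0 hρpos.le)
    linarith
  -- the union is independent
  have hJS : J ⊆ nb G 0 := Finset.filter_subset _ _
  have hIK : ∀ x ∈ I, x ∉ nb G 0 := by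
    intro x hx
    have h1 := hIT hx
    rw [hTdef, mem_filter, mem_sdiff] at h1
    exact h1.1.2
  have hdisj : Disjoint J I := by
    rw [Finset.disjoint_left]
    intro x hx1 hx2
    exact hIK x hx2 (hJS hx1)
  have hcross : ∀ s ∈ J, ∀ x ∈ I, ¬ G.Adj s x := by
    intro s hs x hx hadj
    have h1 := hIT hx
    rw [hTdef, mem_filter] at h1
    rw [hJ, mem_filter] at hs
    have h0 : G.Adj 0 s := by
      have := hs.1
      simpa only [nb, mem_filter, mem_univ, true_and] using this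
    have h2 : s ∈ cn G 0 x := by
      simp only [cn, mem_filter, mem_univ, true_and]
      exact ⟨h0, hadj⟩
    exact Finset.disjoint_left.1 h1.2 (Finset.mem_image_of_mem cell h2) hs.2
  have hunion : Ind G (J ∪ I) := by
    intro x hx z hz hxz
    rw [mem_union] at hx hz
    rcases hx with hx | hx <;> rcases hz with hz | hz
    · exact ONEM.nb_ind G hT 0 x (hJS hx) z (hJS hz) hxz
    · exact hcross x hx z hz hxz
    · exact hcross z hz x hx hxz.symm
    · exact hII x hx z hz hxz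
  have hlt := hind (J ∪ I) hunion
  rw [Finset.card_union_of_disjoint hdisj] at hlt
  have hltr : (J.card : ℝ) + I.card < k := by exact_mod_cast hlt
  have hrho2 : (Fintype.card Γ : ℝ) / ((1 + δ) * (nb G 0).card) * (Real.log (ρ * E) - 1) =
      (Real.log (ρ * E) - 1) / ρ := by
    rw [hρ]
    have h1 : (1 + δ) * ((nb G 0).card : ℝ) ≠ 0 := by positivity
    field_simp
  rw [hrho2]
  linarith


/-- The exponent `y / (2 e^(-y) + y)`. -/
noncomputable def tau (y : ℝ) : ℝ := y / (2 * Real.exp (-y) + y)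

theorem tau_pos {y : ℝ} (hy : 0 < y) : 0 < tau y := by
  unfold tau
  positivity

theorem mm_pow (hASA : SpecASA) (t : ℝ) (ht : 0 < t) :
    ∃ k₀ : ℕ, ∀ k : ℕ, k₀ ≤ k → ((mm k : ℕ) : ℝ) ^ 3 ≤ (k : ℝ) ^ t := by
  have hl : (0 : ℝ) < Real.log 2 := Real.log_pos (by norm_num)
  obtain ⟨k₀, h⟩ := hASA (min t (Real.log 2)) 0 1 (lt_min ht hl) (min_le_right _ _) le_rfl one_pos
  refine ⟨max k₀ 1, fun k hk => ?_⟩
  have hk1 : (1 : ℝ) ≤ k := by exact_mod_cast le_trans (le_max_right _ _) hk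
  exact (h k (le_trans (le_max_left _ _) hk)).mky.trans
    (Real.rpow_le_rpow_of_exponent_le hk1 (min_le_left _ _))

/-- The size of `T`. -/
theorem second (y t δ η : ℝ) (hy : 0 < y) (hy2 : y ≤ Real.log 2) (ht : tau y < t) (hδ : 0 ≤ δ)
    (hη : 0 < η) : ∃ k₀ : ℕ, ∀ k : ℕ, k₀ ≤ k → ∀ N D κ : ℝ, (k : ℝ) / 2 ≤ D → D ≤ k →
      cc y δ η * k ^ 2 / Real.log k < N → N ≤ ((mm k : ℕ) : ℝ) ^ 3 * κ →
      N ≤ (k : ℝ) ^ t * (1 / Real.log k * e0 N D κ (mm k) y) := by
  have hτ : 0 < t - tau y := by linarith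
  have e3 : ∀ᶠ L : ℝ in Filter.atTop, 16 * L ^ 7 ≤ Real.exp ((t - tau y) * L - 23 * y) := by
    have h := (isLittleO_pow_exp_pos_mul_atTop 7 (b := t - tau y) hτ).bound
      (show (0 : ℝ) < Real.exp (-(23 * y)) / 16 by positivity)
    filter_upwards [h, Filter.eventually_ge_atTop 0] with L hL h0
    rw [Real.norm_of_nonneg (by positivity), Real.norm_of_nonneg (Real.exp_pos _).le] at hL
    have h2 : Real.exp ((t - tau y) * L - 23 * y) =
        Real.exp (-(23 * y)) * Real.exp ((t - tau y) * L) := by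
      rw [← Real.exp_add]; congr 1; ring
    rw [h2]
    linarith
  have e1 := ASBM.ok_eventually y δ η hy hδ hη
  have htt : Filter.Tendsto (fun k : ℕ => Real.log (k : ℝ)) Filter.atTop Filter.atTop :=
    Real.tendsto_log_atTop.comp tendsto_natCast_atTop_atTop
  obtain ⟨k₀, hk₀⟩ := Filter.eventually_atTop.1
    ((htt.eventually (e1.and e3)).and (Filter.eventually_ge_atTop 1))
  refine ⟨k₀, fun k hk => ?_⟩
  obtain ⟨⟨ok, c3⟩, hk1⟩ := hk₀ k hk
  intro N D κ h1 h2 h3 h5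
  have hk0 : (0 : ℝ) < k := by
    have : 0 < k := by omega
    exact_mod_cast this
  have hkexp : (k : ℝ) = Real.exp (Real.log k) := (Real.exp_log hk0).symm
  obtain ⟨l6, c1, -, -, -⟩ := ok
  set L : ℝ := Real.log k with hLdef
  have hL0 : 0 < L := by linarith
  have m1 : L ^ 2 ≤ ((mm k : ℕ) : ℝ) := by
    unfold mm
    exact Nat.le_ceil _
  have m2 : ((mm k : ℕ) : ℝ) ≤ 2 * L ^ 2 := by
    unfold mm
    have := (Nat.ceil_lt_add_one (show (0 : ℝ) ≤ Real.log (k : ℝ) ^ 2 by positivity)).le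
    nlinarith
  have hlow := ASBM.exp_lower y hy hy2
  have hcc : Real.exp (-y) + y / 2 ≤ cc y δ η := by
    unfold cc
    have : 0 ≤ δ * (Real.exp (-y) + y / 2) := by positivity
    nlinarith
  have hC : 3 / 5 ≤ cc y δ η := hlow.trans hcc
  have hc1 : 28 * L ^ 9 ≤ (k : ℝ) := hkexp ▸ c1
  obtain ⟨a1, hN, hκ, hmu0, -, hmu⟩ := ASBM.mu_le l6 hC hc1 h1 h2 h3 h5 m1 m2
  have hD0 : 0 < D := by linarith
  -- the codegree
  have hc0 : 0 < 2 * Real.exp (-y) + y := by positivity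
  have hu : y * (D ^ 2 / (2 * N)) ≤ tau y * L := by
    have h6 : (Real.exp (-y) + y / 2) * (k : ℝ) ^ 2 ≤ N * L := by
      rw [div_lt_iff₀ hL0] at h3
      exact (mul_le_mul_of_nonneg_right hcc (by positivity)).trans h3.le
    have h7 : D ^ 2 ≤ (k : ℝ) ^ 2 := by gcongr
    unfold tau
    rw [← mul_div_assoc, div_mul_eq_mul_div, div_le_div_iff₀ (by positivity) hc0]
    have h8 : D ^ 2 * (2 * Real.exp (-y) + y) ≤ L * (2 * N) := by
      calc D ^ 2 * (2 * Real.exp (-y) + y) ≤ (k : ℝ) ^ 2 * (2 * Real.exp (-y) + y) := by gcongr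
        _ = 2 * ((Real.exp (-y) + y / 2) * (k : ℝ) ^ 2) := by ring
        _ ≤ 2 * (N * L) := by linarith
        _ = L * (2 * N) := by ring
    calc y * D ^ 2 * (2 * Real.exp (-y) + y) = y * (D ^ 2 * (2 * Real.exp (-y) + y)) := by ring
      _ ≤ y * (L * (2 * N)) := mul_le_mul_of_nonneg_left h8 hy.le
      _ = y * L * (2 * N) := by ring
  have hmu2 : y * mu N D κ (mm k) ≤ tau y * L + 23 * y := by
    have h9 : 23 / L ≤ 23 := by
      rw [div_le_iff₀ hL0]
      nlinarith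
    have h10 : y * mu N D κ (mm k) ≤ y * (D ^ 2 / (2 * N) + 23 / L) :=
      mul_le_mul_of_nonneg_left hmu hy.le
    have h11 : y * (23 / L) ≤ y * 23 := mul_le_mul_of_nonneg_left h9 hy.le
    nlinarith
  have hexp : Real.exp (-(tau y * L + 23 * y)) ≤ Real.exp (-(y * mu N D κ (mm k))) :=
    Real.exp_le_exp.2 (neg_le_neg hmu2)
  have hZ : N / (16 * L ^ 7) * Real.exp (-(tau y * L + 23 * y)) ≤
      1 / L * e0 N D κ (mm k) y := by
    unfold e0
    have h6 : N / (16 * L ^ 6) ≤ κ - D := by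
      have : N / (16 * L ^ 6) = N / (8 * L ^ 6) / 2 := by
        field_simp
        norm_num
      rw [this]
      linarith
    have h7 : N / (16 * L ^ 6) * Real.exp (-(tau y * L + 23 * y)) ≤
        (κ - D) * Real.exp (-(y * mu N D κ (mm k))) := by
      apply mul_le_mul h6 hexp (Real.exp_pos _).le
      linarith
    have h8 : N / (16 * L ^ 7) * Real.exp (-(tau y * L + 23 * y)) =
        1 / L * (N / (16 * L ^ 6) * Real.exp (-(tau y * L + 23 * y))) := by
      field_simp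
    rw [h8]
    exact mul_le_mul_of_nonneg_left h7 (by positivity)
  have hpow : (k : ℝ) ^ t = Real.exp (t * L) := by
    rw [Real.rpow_def_of_pos hk0, mul_comm]
  rw [hpow]
  have h9 : N * 1 ≤ Real.exp (t * L) *
      (N / (16 * L ^ 7) * Real.exp (-(tau y * L + 23 * y))) := by
    have h10 : Real.exp (t * L) * (N / (16 * L ^ 7) * Real.exp (-(tau y * L + 23 * y))) =
        N * (Real.exp ((t - tau y) * L - 23 * y) / (16 * L ^ 7)) := by
      have h12 : (t - tau y) * L - 23 * y = t * L + -(tau y * L + 23 * y) := by ring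
      rw [h12, Real.exp_add]
      ring
    rw [h10]
    apply mul_le_mul_of_nonneg_left _ hN.le
    rw [le_div_iff₀ (by positivity), one_mul]
    exact c3
  rw [mul_one] at h9
  exact h9.trans (mul_le_mul_of_nonneg_left hZ (Real.exp_pos _).le)

/-- First part: no dense spots with at least `N / k ^ t` elements. -/
theorem part1 (hORB : SpecORB.{u}) (hDIC : SpecDIC.{u}) (hCLA : SpecCLA.{u}) (hCLB : SpecCLB.{u})
    (hSHE : SpecSHE.{u}) (hBIA : SpecBIA.{u}) (hASA : SpecASA) (hASB : SpecASB)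
    (y t η δ : ℝ) (hy : 0 < y) (hy2 : y ≤ Real.log 2) (ht : tau y < t) (hη : 0 < η)
    (hδ : 0 ≤ δ) :
    ∃ k₀ : ℕ, ∀ k : ℕ, k₀ ≤ k →
      ∀ (Γ : Type u) [AddCommGroup Γ] [Fintype Γ] (G : SimpleGraph Γ) (_ : Inv G) (_ : TF G)
        (_ : ∀ I : Finset Γ, Ind G I → I.card < k)
        (_ : ∀ X : Finset Γ, (Fintype.card Γ : ℝ) ≤ (k : ℝ) ^ t * X.card →
          (ed G X : ℝ) ≤ (1 + δ) * (nb G 0).card * (X.card : ℝ) ^ 2 / Fintype.card Γ),
        (Fintype.card Γ : ℝ) ≤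
          ((1 + δ) * (Real.exp (-y) + y / 2) + η) * ((k : ℝ) ^ 2 / Real.log k) := by
  have ht0 : 0 < t := (tau_pos hy).trans ht
  obtain ⟨k₁, h₁⟩ := hASA y δ η hy hy2 hδ hη
  obtain ⟨k₂, h₂⟩ := hASB y δ η hy hy2 hδ hη
  obtain ⟨k₃, h₃⟩ := mm_pow hASA t ht0
  obtain ⟨k₄, h₄⟩ := second y t δ η hy hy2 ht hδ hη
  refine ⟨max (max k₁ k₂) (max k₃ k₄), ?_⟩
  intro k hk Γ _ _ G hI hT hind hsp
  have hA := h₁ k (le_trans (le_trans (le_max_left _ _) (le_max_left _ _)) hk)
  have hB := h₂ k (le_trans (le_trans (le_max_right _ _) (le_max_left _ _)) hk)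
  have hM := h₃ k (le_trans (le_trans (le_max_left _ _) (le_max_right _ _)) hk)
  have hS := h₄ k (le_trans (le_trans (le_max_right _ _) (le_max_right _ _)) hk)
  by_contra hN
  push Not at hN
  have hN' : cc y δ η * (k : ℝ) ^ 2 / Real.log k < Fintype.card Γ := by
    rw [mul_div_assoc]
    exact hN
  obtain ⟨c1, c2, c3⟩ := FINM.common hORB hSHE hA G hI hT hind hN'
  have hD : ((nb G 0).card : ℝ) ≤ k := by exact_mod_cast c1.le
  have hmN : mm k ≤ Fintype.card Γ := by exact_mod_cast hA.mN _ hN'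
  have hm4 := hA.m4
  obtain ⟨K, cell, hC⟩ : ∃ (K : Finset Γ) (cell : Γ → ℕ), Cell G (mm k) K cell := by
    obtain ⟨H, hH | hH⟩ := hDIC Γ (mm k) (by omega) hmN
    · exact hCLA Γ G hI (mm k) (by omega) H hH.1 hH.2
    · exact hCLB Γ G hI (mm k) hm4 H hH.1 hH.2
  have hbig : (Fintype.card Γ : ℝ) ≤ ((mm k : ℕ) : ℝ) ^ 3 * K.card := by exact_mod_cast hC.big
  have hK : (K.card : ℝ) ≤ Fintype.card Γ := by exact_mod_cast card_le_univ K
  obtain ⟨b1, -, b3, b4⟩ := hB _ _ _ c2 hD hN' c3 hbig hK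
  have b2 := hS _ _ _ c2 hD hN' hbig
  have hlog := hA.log2
  have hk0 : (0 : ℝ) < (nb G 0).card := by
    have : (0 : ℝ) < k := by
      by_contra h
      push Not at h
      have h0 : (k : ℝ) = 0 := le_antisymm h (by positivity)
      rw [h0, Real.log_zero] at hlog
      linarith
    linarith
  have hθ : 0 < 1 / Real.log (k : ℝ) := by positivity
  have hθ1 : 1 / Real.log (k : ℝ) < 1 := by
    rw [div_lt_one (by linarith)]
    linarith
  have h := one2 hSHE hBIA Γ G hT k (mm k) (by omega) y t δ (1 / Real.log (k : ℝ)) hy hδ hθ hθ1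
    hind K cell hC (by exact_mod_cast hk0) b1 hM hsp b2 b3
  linarith

/-- Second part: the non-trivial eigenvalues are at most `k ^ s`, `s < 1 - tau y`. -/
theorem part2 (hORB : SpecORB.{u}) (hDIC : SpecDIC.{u}) (hCLA : SpecCLA.{u}) (hCLB : SpecCLB.{u})
    (hSHE : SpecSHE.{u}) (hBIA : SpecBIA.{u}) (hASA : SpecASA) (hASB : SpecASB)
    (hSPC : SpecSPC.{u}) (y s η : ℝ) (hy : 0 < y) (hy2 : y ≤ Real.log 2)
    (hs : s < 1 - tau y) (hη : 0 < η) :
    ∃ k₀ : ℕ, ∀ k : ℕ, k₀ ≤ k →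
      ∀ (Γ : Type u) [AddCommGroup Γ] [Fintype Γ] (G : SimpleGraph Γ) (_ : Inv G) (_ : TF G)
        (_ : ∀ I : Finset Γ, Ind G I → I.card < k)
        (_ : ∀ f : Γ → ℝ, ∑ x, f x = 0 → ∑ x, ∑ z ∈ nb G x, f x * f z ≤
          (k : ℝ) ^ s * ∑ x, f x ^ 2),
        (Fintype.card Γ : ℝ) ≤ (Real.exp (-y) + y / 2 + η) * ((k : ℝ) ^ 2 / Real.log k) := by
  have hη2 : 0 < η / 2 := by linarith
  have hδ : 0 ≤ η / 4 := by linarith
  -- the scale `t` and the gap `r`
  obtain ⟨t, ht⟩ : ∃ t : ℝ, t = (tau y + 1 - s) / 2 := ⟨_, rfl⟩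
  obtain ⟨r, hr⟩ : ∃ r : ℝ, r = 1 - s - t := ⟨_, rfl⟩
  have hr0 : 0 < r := by rw [hr, ht]; linarith
  obtain ⟨k₁, h₁⟩ := part1 hORB hDIC hCLA hCLB hSHE hBIA hASA hASB y t (η / 2) (η / 4) hy hy2
    (by rw [ht]; linarith) hη2 hδ
  obtain ⟨k₂, h₂⟩ := hASA y (η / 4) (η / 2) hy hy2 hδ hη2
  have htt : Filter.Tendsto (fun k : ℕ => (k : ℝ) ^ (-r)) Filter.atTop (nhds 0) :=
    (tendsto_rpow_neg_atTop hr0).comp tendsto_natCast_atTop_atTop
  obtain ⟨k₃, h₃⟩ := Filter.eventually_atTop.1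
    (htt.eventually (Iio_mem_nhds (show (0 : ℝ) < η / 4 / 2 by positivity)))
  refine ⟨max k₁ (max k₂ k₃), ?_⟩
  intro k hk Γ _ _ G hI hT hind hsp
  have hk1 : k₁ ≤ k := le_trans (le_max_left _ _) hk
  have hk2 : k₂ ≤ k := le_trans (le_max_left _ _) (le_trans (le_max_right _ _) hk)
  have hk3 : k₃ ≤ k := le_trans (le_max_right _ _) (le_trans (le_max_right _ _) hk)
  have hA := h₂ k hk2
  have hη3 : (k : ℝ) ^ (-r) ≤ η / 4 / 2 := (h₃ k hk3).le
  have hlog := hA.log2
  have hk0 : (0 : ℝ) < k := by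
    by_contra h
    push Not at h
    have h0 : (k : ℝ) = 0 := le_antisymm h (by positivity)
    rw [h0, Real.log_zero] at hlog
    linarith
  have hkl : 0 ≤ (k : ℝ) ^ 2 / Real.log k := by positivity
  have hc : (1 + η / 4) * (Real.exp (-y) + y / 2) + η / 2 ≤ Real.exp (-y) + y / 2 + η := by
    have e1 : Real.exp (-y) ≤ 1 := by
      rw [← Real.exp_zero]
      exact Real.exp_le_exp.2 (by linarith)
    have e2 : Real.log 2 < 0.6931471808 := Real.log_two_lt_d9
    nlinarith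
  by_contra hN
  push Not at hN
  have hN' : cc y (η / 4) (η / 2) * (k : ℝ) ^ 2 / Real.log k < Fintype.card Γ := by
    rw [mul_div_assoc]
    refine lt_of_le_of_lt ?_ hN
    exact mul_le_mul_of_nonneg_right hc hkl
  obtain ⟨-, c2, -⟩ := FINM.common hORB hSHE hA G hI hT hind hN'
  have hNpos : (0 : ℝ) < Fintype.card Γ := by exact_mod_cast Fintype.card_pos
  have hfin := h₁ k hk1 Γ G hI hT hind (by
    intro X hX
    have hl : 0 ≤ (k : ℝ) ^ s := by positivity
    refine (hSPC Γ G hI _ hsp hl X).trans ?_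
    have hX0 : (0 : ℝ) ≤ X.card := by positivity
    have hD0 : (0 : ℝ) < (nb G 0).card := by linarith
    have e1 : (k : ℝ) ^ s = k * (k : ℝ) ^ (-t) * (k : ℝ) ^ (-r) := by
      rw [show s = 1 + -t + -r by rw [hr]; ring, Real.rpow_add hk0, Real.rpow_add hk0,
        Real.rpow_one]
    have e2 : (k : ℝ) ^ (-t) ≤ X.card / Fintype.card Γ := by
      rw [Real.rpow_neg hk0.le, le_div_iff₀ hNpos, inv_mul_le_iff₀ (by positivity)]
      exact hX
    have e3 : (k : ℝ) ^ s ≤ η / 4 * (nb G 0).card * (X.card / Fintype.card Γ) := by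
      rw [e1]
      have e4 : (k : ℝ) * (k : ℝ) ^ (-t) * (k : ℝ) ^ (-r) ≤
          k * (X.card / Fintype.card Γ) * (η / 4 / 2) := by gcongr
      refine e4.trans ?_
      have e5 : (0 : ℝ) ≤ X.card / Fintype.card Γ := by positivity
      have e6 : (k : ℝ) * (X.card / Fintype.card Γ) * (η / 4 / 2) =
          η / 4 * (k / 2) * (X.card / Fintype.card Γ) := by ring
      rw [e6]
      gcongr
    have e7 := mul_le_mul_of_nonneg_right e3 hX0
    have e8 : (1 + η / 4) * ((nb G 0).card : ℝ) * (X.card : ℝ) ^ 2 / Fintype.card Γ =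
        (nb G 0).card * (X.card : ℝ) ^ 2 / Fintype.card Γ +
          η / 4 * (nb G 0).card * (X.card / Fintype.card Γ) * X.card := by
      ring
    rw [e8]
    linarith)
  have h9 := mul_le_mul_of_nonneg_right hc hkl
  linarith

end Pool.Agent.Lib.MP8be6f6.AC.V2
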